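import Mathlib.RingTheory.Unramified.Field
import Mathlib.RingTheory.Etale.Kaehler
import Mathlib.FieldTheory.PurelyInseparable.Basic
import Mathlib.FieldTheory.KummerPolynomial
import Mathlib.Algebra.CharP.IntermediateField

/-! In a field of characteristic p, an element killed by all derivations is a p-th power. -/

namespace Pool.Agent.H54.Larsen

open Polynomial IntermediateField

variable {K : Type*} [Field K]

lemma zorn_subfield (C : Subfield K) (z : K) (hz : z ∉ C) :
    ∃ M : Subfield K, C ≤ M ∧ z ∉ M ∧ ∀ N : Subfield K, M ≤ N → z ∉ N → N ≤ M := by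
  obtain ⟨M, hM, hmax⟩ := zorn_le_nonempty₀ {N : Subfield K | C ≤ N ∧ z ∉ N} (by
    intro c hc hchain y hy
    have hne : c.Nonempty := ⟨y, hy⟩
    have hdir : DirectedOn (· ≤ ·) c := hchain.directedOn
    refine ⟨sSup c, ⟨(hc hy).1.trans (le_sSup hy), ?_⟩, fun s hs => le_sSup hs⟩
    intro hmem
    rw [Subfield.mem_sSup_of_directedOn hne hdir] at hmem
    obtain ⟨s, hs, hzs⟩ := hmem
    exact (hc hs).2 hzs) C ⟨le_rfl, hz⟩
  refine ⟨M, hmax.1.1, hmax.1.2, fun N h1 h2 => ?_⟩
  exact hmax.2 ⟨hmax.1.1.trans h1, h2⟩ h1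

variable (p : ℕ) [hp : Fact p.Prime] [CharP K p]

lemma minpoly_of_max (M : Subfield K) (hM : ∀ x : K, x ^ p ∈ M) (w : K) (hw : w ∉ M) :
    Module.finrank M M⟮w⟯ = p := by
  have hirr : Irreducible (X ^ p - C (⟨w ^ p, hM w⟩ : M)) := by
    apply X_pow_sub_C_irreducible_of_prime hp.out
    intro b hb
    apply hw
    have h1 : (b : K) ^ p = w ^ p := congrArg Subtype.val hb
    have h2 : (b : K) = w := frobenius_inj K p (by simpa [frobenius_def] using h1)
    rw [← h2]
    exact b.2
  have hmin : X ^ p - C (⟨w ^ p, hM w⟩ : M) = minpoly M w := by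
    apply minpoly.eq_of_irreducible_of_monic hirr
    · simp only [map_sub, map_pow, aeval_X, aeval_C]
      exact sub_self _
    · exact monic_X_pow_sub_C _ hp.out.ne_zero
  have hint : IsIntegral M w := ⟨_, monic_X_pow_sub_C (⟨w ^ p, hM w⟩ : M) hp.out.ne_zero, by
    rw [eval₂_sub, eval₂_pow, eval₂_X, eval₂_C]
    exact sub_self _⟩
  rw [adjoin.finrank hint, ← hmin, natDegree_X_pow_sub_C]

theorem exists_pow_eq_of_derivation (z : K) (h : ∀ D : Derivation ℤ K K, D z = 0) :
    ∃ y : K, y ^ p = z := by
  by_contra hcon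
  push Not at hcon
  have hzC : z ∉ (frobenius K p).fieldRange := by
    rintro ⟨y, hy⟩
    exact hcon y (by simpa [frobenius_def] using hy)
  obtain ⟨M, hCM, hzM, hmax⟩ := zorn_subfield _ z hzC
  have hM : ∀ x : K, x ^ p ∈ M := fun x => hCM ⟨x, by simp [frobenius_def]⟩
  have hfz := minpoly_of_max p M hM z hzM
  have htop : ∀ w : K, w ∈ M⟮z⟯ := by
    intro w
    by_cases hw : w ∈ M
    · exact (M⟮z⟯).algebraMap_mem ⟨w, hw⟩
    · have hfw := minpoly_of_max p M hM w hw
      have hzw : z ∈ M⟮w⟯ := by
        by_contra hzw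
        have h1 : M ≤ M⟮w⟯.toSubfield := by
          intro x hx
          exact (M⟮w⟯).algebraMap_mem ⟨x, hx⟩
        have h2 := hmax M⟮w⟯.toSubfield h1 hzw
        exact hw (h2 (mem_adjoin_simple_self M w))
      have hle : M⟮z⟯ ≤ M⟮w⟯ := by
        rw [adjoin_simple_le_iff]
        exact hzw
      have : FiniteDimensional M M⟮w⟯ := by
        apply FiniteDimensional.of_finrank_pos
        rw [hfw]
        exact hp.out.pos
      have heq := IntermediateField.eq_of_le_of_finrank_eq hle (hfz.trans hfw.symm)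
      rw [heq]
      exact mem_adjoin_simple_self M w
  have htop' : M⟮z⟯ = ⊤ := by
    rw [eq_top_iff]
    intro w _
    exact htop w
  have hint : IsIntegral M z := ⟨_, monic_X_pow_sub_C (⟨z ^ p, hM z⟩ : M) hp.out.ne_zero, by
    rw [eval₂_sub, eval₂_pow, eval₂_X, eval₂_C]
    exact sub_self _⟩
  have hfin : FiniteDimensional M K := by
    have : FiniteDimensional M M⟮z⟯ := adjoin.finiteDimensional hint
    rw [htop'] at this
    exact Module.Finite.equiv (IntermediateField.topEquiv (F := M) (E := K)).toLinearEquiv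
  have hder : ∀ D : Derivation M K K, D = 0 := by
    intro D
    have hDz : D z = 0 := h (D.restrictScalars ℤ)
    ext w
    have hw : w ∈ Algebra.adjoin M {z} := by
      rw [← adjoin_simple_toSubalgebra_of_isAlgebraic hint.isAlgebraic]
      exact htop w
    exact Derivation.eqOn_adjoin (D1 := D) (D2 := 0) (s := {z}) (by
      intro t ht
      rw [Set.mem_singleton_iff] at ht
      rw [ht, hDz]
      rfl) hw
  have hsub : Subsingleton (Ω[K⁄M]) := by
    constructor
    intro a b
    rw [← sub_eq_zero]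
    rw [← Module.forall_dual_apply_eq_zero_iff K]
    intro φ
    have := hder ((KaehlerDifferential.linearMapEquivDerivation M K) φ)
    have h2 : φ = 0 := by
      apply (KaehlerDifferential.linearMapEquivDerivation M K).injective
      rw [this, map_zero]
    rw [h2]
    rfl
  have : Algebra.FormallyUnramified M K := ⟨hsub⟩
  have : Algebra.IsSeparable M K := Algebra.FormallyUnramified.isSeparable M K
  have : ExpChar M p := by
    have : CharP M p := inferInstance
    exact ExpChar.prime hp.out
  have : IsPurelyInseparable M K := by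
    rw [isPurelyInseparable_iff_pow_mem M p]
    intro x
    exact ⟨1, ⟨⟨x ^ p, hM x⟩, by rw [pow_one]; rfl⟩⟩
  obtain ⟨m, hm⟩ := IsPurelyInseparable.surjective_algebraMap_of_isSeparable M K z
  exact hzM (hm ▸ m.2)

end Pool.Agent.H54.Larsen
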