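import Pool.Agent.H54.Larsen.Delta
import Pool.Agent.H54.Larsen.PthPower

/-! Frobenius on points; multiplication by p factors through Frobenius. -/

namespace Pool.Agent.H54.Larsen

open WeierstrassCurve

section map
variable {M N : Type*} [Field M] [Field N] [DecidableEq M] [DecidableEq N]

/-- functoriality of points under a ring homomorphism of fields -/
noncomputable def mapHom {W : Affine M} {V : Affine N} (f : M →+* N) (hV : W.map f = V) :
    W.Point →+ V.Point where
  toFun P := match P with
    | .zero => .zero
    | .some x y h => .some (f x) (f y) (by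
        subst hV; exact (W.map_nonsingular f.injective x y).mpr h)
  map_zero' := rfl
  map_add' := by
    subst hV
    rintro (_ | ⟨x₁, y₁, h₁⟩) (_ | ⟨x₂, y₂, h₂⟩)
    any_goals rfl
    by_cases hxy : x₁ = x₂ ∧ y₁ = W.negY x₂ y₂
    · rw [Affine.Point.add_of_Y_eq hxy.left hxy.right]
      show (0 : (W.map f).toAffine.Point) = _
      rw [Affine.Point.add_of_Y_eq (congr_arg _ hxy.left) (by rw [hxy.right, Affine.map_negY])]
    · have h' : ¬(f x₁ = f x₂ ∧ f y₁ = (W.map f).toAffine.negY (f x₂) (f y₂)) := by
        rintro ⟨h3, h4⟩
        rw [Affine.map_negY] at h4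
        exact hxy ⟨f.injective h3, f.injective h4⟩
      rw [Affine.Point.add_some hxy, Affine.Point.add_some h']
      simp only [Affine.Point.some.injEq]
      constructor
      · rw [Affine.map_slope, Affine.map_addX]
      · rw [Affine.map_slope, Affine.map_addY]

@[simp] lemma mapHom_some {W : Affine M} {V : Affine N} (f : M →+* N) (hV : W.map f = V)
    {x y : M} (h : W.Nonsingular x y) :
    mapHom f hV (.some x y h) = .some (f x) (f y) (by
        subst hV; exact (W.map_nonsingular f.injective x y).mpr h) := rfl

lemma mapHom_injective {W : Affine M} {V : Affine N} (f : M →+* N) (hV : W.map f = V) :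
    Function.Injective (mapHom f hV) := by
  rw [injective_iff_map_eq_zero]
  rintro (_ | ⟨x, y, h⟩) hP
  · rfl
  · exact absurd hP (Affine.Point.some_ne_zero _)

end map

section frob
variable {M : Type*} [Field M] [DecidableEq M] (p : ℕ) [hp : Fact p.Prime] [CharP M p]

lemma D_pow_p (D : Derivation ℤ M M) (a : M) : D (a ^ p) = 0 := by
  rw [Derivation.leibniz_pow]
  simp

lemma constCoeff_frob (D : Derivation ℤ M M) {W V : Affine M}
    (hV : W.map (frobenius M p) = V) : ConstCoeff D V := by
  subst hV
  constructor <;> simp only [WeierstrassCurve.map, frobenius_def] <;> exact D_pow_p p D _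

/-- multiplication by p lands in the image of Frobenius -/
theorem exists_frob_of_smul {W V : Affine M} (hV : W.map (frobenius M p) = V) (Q : V.Point) :
    ∃ P : W.Point, mapHom (frobenius M p) hV P = p • Q := by
  have hδ : ∀ D : Derivation ℤ M M, delta (constCoeff_frob p D hV) (p • Q) = 0 := by
    intro D
    rw [map_nsmul, nsmul_eq_mul, CharP.cast_eq_zero, zero_mul]
  rcases hR : p • Q with _ | ⟨x, y, h⟩
  · exact ⟨0, rfl⟩
  · rw [hR] at hδ
    have hd : ∀ D : Derivation ℤ M M, D x = 0 ∧ D y = 0 := by
      intro D
      have h1 := hδ D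
      rw [delta_some] at h1
      have h2 := dl_spec (constCoeff_frob p D hV) h
      rw [h1] at h2
      simpa using h2
    obtain ⟨x0, hx0⟩ := exists_pow_eq_of_derivation p x (fun D => (hd D).1)
    obtain ⟨y0, hy0⟩ := exists_pow_eq_of_derivation p y (fun D => (hd D).2)
    subst hV
    have h' : W.Nonsingular x0 y0 := by
      rw [← W.map_nonsingular (frobenius M p).injective x0 y0, frobenius_def, frobenius_def,
        hx0, hy0]
      exact h
    refine ⟨.some x0 y0 h', ?_⟩
    rw [mapHom_some]
    simp only [Affine.Point.some.injEq, frobenius_def]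
    exact ⟨hx0, hy0⟩

end frob

end Pool.Agent.H54.Larsen
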