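import Pool.Agent.H54.Larsen.Joint
import Pool.Agent.H54.Larsen.Frob
import Mathlib.Combinatorics.Pigeonhole

/-! Characteristic two: the image of the logarithmic derivative is infinite. -/

namespace Pool.Agent.H54.Larsen

open WeierstrassCurve

section wp
variable (K : Type*) [Field K] [CharP K 2]

/-- The Artin-Schreier map in characteristic two. -/
def wp : K →+ K where
  toFun z := z ^ 2 + z
  map_zero' := by simp
  map_add' a b := by rw [CharTwo.add_sq]; ring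

/-- the class modulo the image of the Artin-Schreier map -/
def chi : K →+ K ⧸ (wp K).range := QuotientAddGroup.mk' _

variable {K}

lemma chi_surjective : Function.Surjective (chi K) := QuotientAddGroup.mk'_surjective _

lemma chi_eq_zero {z : K} (h : chi K z = 0) : ∃ u, u ^ 2 + u = z := by
  have : z ∈ (wp K).range := by
    rw [← QuotientAddGroup.eq_zero_iff]; exact h
  exact this

lemma chi_sq_add (z : K) : chi K (z ^ 2 + z) = 0 := by
  have : z ^ 2 + z ∈ (wp K).range := ⟨z, rfl⟩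
  rw [← QuotientAddGroup.eq_zero_iff] at this; exact this

lemma two_chi (v : K ⧸ (wp K).range) : v + v = 0 := by
  obtain ⟨z, rfl⟩ := chi_surjective v
  rw [← map_add, CharTwo.add_self_eq_zero, map_zero]

lemma chi_sq (z : K) : chi K (z ^ 2) = chi K z := by
  have h1 := chi_sq_add z
  rw [map_add] at h1
  have h2 := two_chi (chi K z)
  have h3 : chi K (z ^ 2) + chi K z = chi K z + chi K z := by rw [h1, h2]
  exact add_right_cancel h3

end wp

section ordinary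
variable {K : Type*} [Field K] [CharP K 2] [DecidableEq K]

lemma ordinary_point {W V : Affine K} (hV : W.map (frobenius K 2) = V) [V.IsElliptic]
    (D : Derivation ℤ K K) (h1 : W.a₁ ≠ 0) {η : K} (hη : η ≠ 0)
    (hcl : chi K (η * (W.a₁⁻¹) ^ 6) + chi K ((W.a₃ ^ 4 * (W.a₁⁻¹) ^ 6 + W.a₄ ^ 2 * (W.a₁⁻¹) ^ 2 +
      (W.a₃ ^ 3 * (W.a₁⁻¹) ^ 3 + W.a₂ * W.a₃ ^ 2 * (W.a₁⁻¹) ^ 2 + W.a₄ * W.a₃ * W.a₁⁻¹ + W.a₆))
      * η⁻¹) = chi K (W.a₃ ^ 2 * (W.a₁⁻¹) ^ 6 + W.a₂ ^ 2 * (W.a₁⁻¹) ^ 4)) :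
    ∃ P : V.Point, delta (constCoeff_frob 2 D hV) P = (D η / η) * (W.a₁⁻¹) ^ 2 := by
  set i := W.a₁⁻¹ with hi
  have hi1 : W.a₁ * i = 1 := mul_inv_cancel₀ h1
  set γ := W.a₃ ^ 3 * i ^ 3 + W.a₂ * W.a₃ ^ 2 * i ^ 2 + W.a₄ * W.a₃ * i + W.a₆ with hγ
  obtain ⟨u, hu⟩ : ∃ u, u ^ 2 + u = η * i ^ 6 + (W.a₃ ^ 2 * i ^ 6 + W.a₂ ^ 2 * i ^ 4) +
      (W.a₃ ^ 4 * i ^ 6 + W.a₄ ^ 2 * i ^ 2) * η⁻¹ + (γ * η⁻¹) ^ 2 := by
    apply chi_eq_zero
    rw [map_add, map_add, map_add, chi_sq, ← hcl]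
    rw [add_mul _ _ η⁻¹, map_add]
    have e1 := two_chi (chi K (η * i ^ 6))
    have e2 := two_chi (chi K ((W.a₃ ^ 4 * i ^ 6 + W.a₄ ^ 2 * i ^ 2) * η⁻¹))
    have e3 := two_chi (chi K (γ * η⁻¹))
    calc _ = (chi K (η * i ^ 6) + chi K (η * i ^ 6)) +
        (chi K ((W.a₃ ^ 4 * i ^ 6 + W.a₄ ^ 2 * i ^ 2) * η⁻¹) +
          chi K ((W.a₃ ^ 4 * i ^ 6 + W.a₄ ^ 2 * i ^ 2) * η⁻¹)) +
          (chi K (γ * η⁻¹) + chi K (γ * η⁻¹)) := by abel
      _ = 0 := by rw [e1, e2, e3]; simp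
  have h2 : (2 : K) = 0 := CharTwo.two_eq_zero
  have hηi : η * η⁻¹ = 1 := mul_inv_cancel₀ hη
  have hu2 : η ^ 2 * (u ^ 2 + u) = η ^ 3 * i ^ 6 + η ^ 2 * (W.a₃ ^ 2 * i ^ 6 + W.a₂ ^ 2 * i ^ 4) +
      (W.a₃ ^ 4 * i ^ 6 + W.a₄ ^ 2 * i ^ 2) * η + γ ^ 2 := by
    rw [hu]
    linear_combination ((W.a₃ ^ 4 * i ^ 6 + W.a₄ ^ 2 * i ^ 2) * η + γ ^ 2 * (η * η⁻¹ + 1)) * hηi
  have hi2 : W.a₁ ^ 2 * i ^ 2 = 1 := by rw [← mul_pow, hi1, one_pow]
  have hns : V.Nonsingular ((η + W.a₃ ^ 2) * i ^ 2) (η * u) := by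
    rw [← Affine.equation_iff_nonsingular, Affine.equation_iff]
    subst hV
    simp only [WeierstrassCurve.map, frobenius_def]
    rw [hγ] at hu2
    linear_combination hu2 + ((η + W.a₃ ^ 2) * η * u) * hi2 + (W.a₃ ^ 2 * η * u
      - η ^ 2 * W.a₃ ^ 2 * i ^ 6 - η * W.a₃ ^ 4 * i ^ 6 - η * W.a₃ ^ 2 * W.a₂ ^ 2 * i ^ 4
      + (W.a₃ ^ 3 * i ^ 3 * (W.a₂ * W.a₃ ^ 2 * i ^ 2) + W.a₃ ^ 3 * i ^ 3 * (W.a₄ * W.a₃ * i)
        + W.a₃ ^ 3 * i ^ 3 * W.a₆ + W.a₂ * W.a₃ ^ 2 * i ^ 2 * (W.a₄ * W.a₃ * i)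
        + W.a₂ * W.a₃ ^ 2 * i ^ 2 * W.a₆ + W.a₄ * W.a₃ * i * W.a₆)) * h2
  refine ⟨.some _ _ hns, ?_⟩
  rw [delta_some]
  have h3 := (dl_spec (constCoeff_frob 2 D hV) hns).1
  have h4 : eta V ((η + W.a₃ ^ 2) * i ^ 2) (η * u) = η := by
    unfold eta
    subst hV
    simp only [WeierstrassCurve.map, frobenius_def]
    linear_combination (η * u + W.a₃ ^ 2) * h2 + (η + W.a₃ ^ 2) * hi2
  rw [h4] at h3
  have h5 : D ((η + W.a₃ ^ 2) * i ^ 2) = D η * i ^ 2 := by
    rw [Derivation.leibniz, D_pow_p 2 D i, map_add, D_pow_p 2 D W.a₃]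
    simp [mul_comm]
  rw [h5] at h3
  rw [div_mul_eq_mul_div, h3, mul_div_cancel_right₀ _ hη]

omit [CharP K 2] [DecidableEq K] in
lemma exists_ne_zero_fiber {V' : Type*} [AddCommGroup V'] [Finite V'] [Infinite K]
    (f : K →+ V') (z₁ : K) : ∃ z, z ≠ 0 ∧ f z = f z₁ := by
  by_cases h : z₁ = 0
  · subst h
    obtain ⟨v, hv⟩ := Finite.exists_infinite_fiber f
    have hv' : (f ⁻¹' {v}).Infinite := Set.infinite_coe_iff.1 hv
    obtain ⟨a, ha, b, hb, hab⟩ := hv'.nontrivial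
    refine ⟨a - b, sub_ne_zero.2 hab, ?_⟩
    rw [map_sub, show f a = v from ha, show f b = v from hb, sub_self, map_zero]
  · exact ⟨z₁, h, rfl⟩

omit [CharP K 2] [DecidableEq K] in
lemma exists_JS_ne_zero {V' : Type*} [AddCommGroup V'] [Finite V'] [Infinite K]
    {χ : K →+ V'} {t : K} {C₀ : Finset K} (h : JS χ t C₀) (A : K → V') :
    ∃ z, z ≠ 0 ∧ ∀ c ∈ C₀, c ≠ 0 → χ (z * (ww t c)⁻¹) = A c := by
  obtain ⟨z₁, hz₁⟩ := h A
  let f : K →+ (C₀ → V') :=
    { toFun := fun z c => χ (z * (ww t c)⁻¹)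
      map_zero' := by ext j; simp
      map_add' := by intro a b; ext j; simp [add_mul] }
  obtain ⟨z, hz, hfz⟩ := exists_ne_zero_fiber f z₁
  refine ⟨z, hz, ?_⟩
  intro c hc hc0
  rw [← hz₁ c hc hc0]
  exact congrFun hfz ⟨c, hc⟩

/-- many kernel elements -/
lemma many_kernel {V' : Type*} [AddCommGroup V'] [Finite V'] (B : K →+ V') (C₀ : Finset K)
    (hadd : ∀ a ∈ C₀, ∀ b ∈ C₀, a + b ∈ C₀) (m : ℕ) (hm : (m + 1) * Nat.card V' < C₀.card) :
    ∃ S ⊆ C₀, m < S.card ∧ ∀ c ∈ S, c ≠ 0 ∧ B c = 0 := by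
  classical
  have : Fintype V' := Fintype.ofFinite V'
  rw [Nat.card_eq_fintype_card] at hm
  obtain ⟨v, hv, hlt⟩ := Finset.exists_lt_card_fiber_of_mul_lt_card_of_maps_to
    (s := C₀) (t := Finset.univ) (f := B) (n := m + 1) (fun _ _ => Finset.mem_univ _)
    (by rw [Finset.card_univ, mul_comm]; exact hm)
  obtain ⟨c₁, hc₁⟩ : (C₀.filter (fun x => B x = v)).Nonempty := by
    rw [← Finset.card_pos]; omega
  refine ⟨((C₀.filter (fun x => B x = v)).erase c₁).image (fun c => c + c₁), ?_, ?_, ?_⟩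
  · intro a ha
    rw [Finset.mem_image] at ha
    obtain ⟨c, hc, rfl⟩ := ha
    rw [Finset.mem_erase, Finset.mem_filter] at hc
    exact hadd c hc.2.1 c₁ (Finset.mem_filter.1 hc₁).1
  · rw [Finset.card_image_of_injective _ (add_left_injective c₁), Finset.card_erase_of_mem hc₁]
    omega
  · intro a ha
    rw [Finset.mem_image] at ha
    obtain ⟨c, hc, rfl⟩ := ha
    rw [Finset.mem_erase, Finset.mem_filter] at hc
    refine ⟨fun h => hc.1 (CharTwo.add_eq_zero.1 h), ?_⟩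
    have h1 : c + c₁ = c - c₁ := by rw [CharTwo.sub_eq_add]
    rw [h1, map_sub, hc.2.2, (Finset.mem_filter.1 hc₁).2, sub_self]

lemma constants_infinite [Infinite K] (D : Derivation ℤ K K) : {c : K | D c = 0}.Infinite := by
  have h1 : (Set.range (frobenius K 2)).Infinite :=
    Set.infinite_range_of_injective (frobenius K 2).injective
  refine h1.mono ?_
  rintro _ ⟨a, rfl⟩
  rw [frobenius_def]
  exact D_pow_p 2 D a

theorem ordinary_infinite {W V : Affine K} (hV : W.map (frobenius K 2) = V) [V.IsElliptic]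
    (D : Derivation ℤ K K) (h1 : W.a₁ ≠ 0) [Infinite K] [Finite (K ⧸ (wp K).range)] {t : K}
    (ht : D t = 1) : (Set.range (delta (constCoeff_frob 2 D hV))).Infinite := by
  classical
  intro hfin
  set g := hfin.toFinset.card with hg
  obtain ⟨C₀, hcard, h0, hadd, hD, hJS⟩ := exists_JS (chi K) chi_surjective ht
    (constants_infinite D) ((g + 1) * Nat.card (K ⧸ (wp K).range) + 1)
  obtain ⟨z, hz, hzc⟩ := exists_JS_ne_zero hJS
    (fun _ => chi K (W.a₃ ^ 2 * (W.a₁⁻¹) ^ 6 + W.a₂ ^ 2 * (W.a₁⁻¹) ^ 4))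
  set β := W.a₃ ^ 4 * (W.a₁⁻¹) ^ 6 + W.a₄ ^ 2 * (W.a₁⁻¹) ^ 2 +
      (W.a₃ ^ 3 * (W.a₁⁻¹) ^ 3 + W.a₂ * W.a₃ ^ 2 * (W.a₁⁻¹) ^ 2 + W.a₄ * W.a₃ * W.a₁⁻¹ + W.a₆)
      with hβ
  let B : K →+ K ⧸ (wp K).range :=
    { toFun := fun c => chi K (β * (ww t c * (z * W.a₁ ^ 6)⁻¹))
      map_zero' := by simp [ww_zero]
      map_add' := by
        intro a b
        rw [← map_add, ww_add]
        congr 1
        ring }
  obtain ⟨S, hS, hScard, hSB⟩ := many_kernel B C₀ hadd g (by omega)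
  -- the values
  have hww : ∀ c ∈ S, ww t c ≠ 0 := fun c hc => ww_ne_zero ht (hD c (hS hc)) (hSB c hc).1
  have hval : ∀ c ∈ S, ((D z / z) - c ^ 2 / ww t c) * (W.a₁⁻¹) ^ 2 ∈ hfin.toFinset := by
    intro c hc
    rw [Set.Finite.mem_toFinset]
    have hw := hww c hc
    have hη : z * W.a₁ ^ 6 * (ww t c)⁻¹ ≠ 0 :=
      mul_ne_zero (mul_ne_zero hz (pow_ne_zero _ h1)) (inv_ne_zero hw)
    obtain ⟨P, hP⟩ := ordinary_point hV D h1 hη (by
      have e1 : z * W.a₁ ^ 6 * (ww t c)⁻¹ * (W.a₁⁻¹) ^ 6 = z * (ww t c)⁻¹ := by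
        field_simp
      rw [e1, hzc c (hS hc) (hSB c hc).1, ← hβ]
      have e2 : β * (z * W.a₁ ^ 6 * (ww t c)⁻¹)⁻¹ = β * (ww t c * (z * W.a₁ ^ 6)⁻¹) := by
        rw [mul_inv, inv_inv, mul_comm (ww t c)]
      rw [e2]
      have e3 : chi K (β * (ww t c * (z * W.a₁ ^ 6)⁻¹)) = 0 := (hSB c hc).2
      rw [e3, add_zero])
    refine ⟨P, ?_⟩
    rw [hP]
    congr 1
    have hDw : D (ww t c) = c ^ 2 := by
      unfold ww
      rw [map_add, Derivation.leibniz, Derivation.leibniz_pow, hD c (hS hc), ht]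
      simp
    have hDa : D (W.a₁ ^ 6) = 0 := by
      have : W.a₁ ^ 6 = (W.a₁ ^ 3) ^ 2 := by ring
      rw [this]; exact D_pow_p 2 D _
    rw [Derivation.leibniz, Derivation.leibniz_inv, Derivation.leibniz, hDa, hDw]
    simp only [smul_eq_mul, mul_zero, zero_add]
    field_simp
    ring
  have hinj : Set.InjOn (fun c => ((D z / z) - c ^ 2 / ww t c) * (W.a₁⁻¹) ^ 2) (S : Set K) := by
    intro a ha b hb hab
    have ha' := hww a ha
    have hb' := hww b hb
    have ha0 := (hSB a ha).1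
    have hb0 := (hSB b hb).1
    simp only at hab
    have h3 := mul_right_cancel₀ (pow_ne_zero 2 (inv_ne_zero h1)) hab
    have h4 : a ^ 2 / ww t a = b ^ 2 / ww t b := by linear_combination -h3
    rw [div_eq_div_iff ha' hb'] at h4
    unfold ww at h4
    have h5 : a * b * (a - b) = 0 := by linear_combination h4
    rcases mul_eq_zero.1 h5 with h6 | h6
    · exact absurd h6 (mul_ne_zero ha0 hb0)
    · exact sub_eq_zero.1 h6
  have := Finset.card_le_card_of_injOn _ hval hinj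
  omega

end ordinary

section sequential
variable {K V' : Type*} [Field K] [AddCommGroup V'] [Finite V']

theorem seq_step (χ : K →+ V') (hχ : Function.Surjective χ) {ι : Type*} [Finite ι] (y : ι → K)
    (hy : ∀ A : ι → V', ∃ z, ∀ i, χ (z * y i) = A i) (Y : Set K) (hY : Y.Infinite) :
    ∃ y' ∈ Y, ∀ (A : ι → V') (a : V'), ∃ z, (∀ i, χ (z * y i) = A i) ∧ χ (z * y') = a := by
  classical
  by_contra hcon
  push Not at hcon
  choose zA hzA using hy
  -- the subgroup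
  let N : AddSubgroup K :=
    { carrier := {z | ∀ i, χ (z * y i) = 0}
      zero_mem' := by intro i; simp
      add_mem' := by intro a b ha hb i; rw [add_mul, map_add, ha i, hb i, add_zero]
      neg_mem' := by intro a ha i; rw [neg_mul, map_neg, ha i, neg_zero] }
  let S : K → AddSubgroup V' := fun y' => N.map (χ.comp (AddMonoidHom.mulRight y'))
  have hS : ∀ y' ∈ Y, S y' ≠ ⊤ := by
    intro y' hy' htop
    obtain ⟨A, a, hAa⟩ := hcon y' hy'
    have : a - χ (zA A * y') ∈ S y' := by rw [htop]; trivial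
    obtain ⟨z₁, hz₁, hz₁'⟩ := this
    apply hAa (zA A + z₁)
    · intro i
      rw [add_mul, map_add, hzA, hz₁ i, add_zero]
    · have h3 : χ (z₁ * y') = a - χ (zA A * y') := hz₁'
      rw [add_mul, map_add, h3]; abel
  have hfinA : Finite (AddSubgroup V') :=
    Finite.of_injective (fun S => (S : Set V')) SetLike.coe_injective
  obtain ⟨a, ha, b, hb, hab, hf⟩ := hY.exists_ne_map_eq_of_mapsTo
    (f := fun y' => (S y', fun A => χ (zA A * y'))) (t := Set.univ) (fun _ _ => Set.mem_univ _)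
    Set.finite_univ
  simp only [Prod.mk.injEq] at hf
  obtain ⟨hf1, hf2⟩ := hf
  apply hS a ha
  rw [AddSubgroup.eq_top_iff']
  intro v
  obtain ⟨u, hu⟩ := hχ v
  have hab' : a - b ≠ 0 := sub_ne_zero.2 hab
  set z := u * (a - b)⁻¹ with hz
  set A : ι → V' := fun i => χ (z * y i) with hA
  have hN : z - zA A ∈ N := by
    intro i
    rw [sub_mul, map_sub, hzA, hA, sub_self]
  have e1 : χ ((z - zA A) * a) ∈ S a := ⟨_, hN, rfl⟩
  have e2 : χ ((z - zA A) * b) ∈ S a := by rw [hf1]; exact ⟨_, hN, rfl⟩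
  have e3 : v = χ ((z - zA A) * a) - χ ((z - zA A) * b) := by
    have h4 : χ (zA A * a) = χ (zA A * b) := congrFun hf2 A
    rw [sub_mul, sub_mul, map_sub, map_sub, h4, ← hu]
    have : u = z * a - z * b := by
      rw [hz]; field_simp
    conv_lhs => rw [this]
    rw [map_sub]; abel
  rw [e3]
  exact AddSubgroup.sub_mem _ e1 e2

theorem exists_seq (χ : K →+ V') (hχ : Function.Surjective χ) (Y : Set K) (hY : Y.Infinite)
    (n : ℕ) : ∃ y : Fin n → K, (∀ i, y i ∈ Y) ∧ ∀ A : Fin n → V', ∃ z, ∀ i, χ (z * y i) = A i := by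
  induction n with
  | zero => exact ⟨Fin.elim0, fun i => i.elim0, fun A => ⟨0, fun i => i.elim0⟩⟩
  | succ n ih =>
    obtain ⟨y, hy, hJ⟩ := ih
    obtain ⟨y', hy', hJ'⟩ := seq_step χ hχ y hJ Y hY
    refine ⟨Fin.cons y' y, ?_, ?_⟩
    · intro i
      refine Fin.cases ?_ ?_ i
      · simpa using hy'
      · intro j; simpa using hy j
    · intro A
      obtain ⟨z, hz1, hz2⟩ := hJ' (fun i => A i.succ) (A 0)
      refine ⟨z, ?_⟩
      intro i
      refine Fin.cases ?_ ?_ i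
      · simpa using hz2
      · intro j; simpa using hz1 j

end sequential

section supersingular
variable {K : Type*} [Field K] [CharP K 2] [DecidableEq K]

/-- the right-hand side -/
def Rf (W : Affine K) (x : K) : K :=
  (x ^ 3 + W.a₂ ^ 2 * x ^ 2 + W.a₄ ^ 2 * x + W.a₆ ^ 2) * (W.a₃⁻¹) ^ 4

lemma supersingular_point {W V : Affine K} (hV : W.map (frobenius K 2) = V) [V.IsElliptic]
    (D : Derivation ℤ K K) (h1 : W.a₁ = 0) (h3 : W.a₃ ≠ 0) {x : K}
    (hcl : chi K (Rf W x) = 0) :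
    ∃ P : V.Point, delta (constCoeff_frob 2 D hV) P = D x * (W.a₃⁻¹) ^ 2 := by
  obtain ⟨u, hu⟩ := chi_eq_zero hcl
  unfold Rf at hu
  have h2 : (2 : K) = 0 := CharTwo.two_eq_zero
  have hi : W.a₃ * W.a₃⁻¹ = 1 := mul_inv_cancel₀ h3
  set i := W.a₃⁻¹
  have hi4 : W.a₃ ^ 4 * i ^ 4 = 1 := by rw [← mul_pow, hi, one_pow]
  have hns : V.Nonsingular x (W.a₃ ^ 2 * u) := by
    rw [← Affine.equation_iff_nonsingular, Affine.equation_iff]
    subst hV
    simp only [WeierstrassCurve.map, frobenius_def, h1]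
    linear_combination (W.a₃ ^ 4) * hu +
      (x ^ 3 + W.a₂ ^ 2 * x ^ 2 + W.a₄ ^ 2 * x + W.a₆ ^ 2) * hi4
  refine ⟨.some _ _ hns, ?_⟩
  rw [delta_some]
  have h3' := (dl_spec (constCoeff_frob 2 D hV) hns).1
  have h4 : eta V x (W.a₃ ^ 2 * u) = W.a₃ ^ 2 := by
    unfold eta
    subst hV
    simp only [WeierstrassCurve.map, frobenius_def, h1]
    linear_combination (W.a₃ ^ 2 * u) * h2
  rw [h4] at h3'
  rw [h3', mul_assoc, ← mul_pow, hi, one_pow, mul_one]

lemma Rf_add (W : Affine K) (z ε : K) : chi K (Rf W (z + ε ^ 2)) =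
    chi K (Rf W z) + chi K (Rf W (ε ^ 2) + Rf W 0) +
      chi K (z * (ε * (W.a₃⁻¹) ^ 2 + ε ^ 4 * (W.a₃⁻¹) ^ 4)) := by
  have h2 : (2 : K) = 0 := CharTwo.two_eq_zero
  have h1 : Rf W (z + ε ^ 2) = Rf W z + (Rf W (ε ^ 2) + Rf W 0) +
      ((z * ε * (W.a₃⁻¹) ^ 2) ^ 2 + z * ε ^ 4 * (W.a₃⁻¹) ^ 4) := by
    unfold Rf
    linear_combination ((z ^ 2 * ε ^ 2 + z * ε ^ 4 + W.a₂ ^ 2 * z * ε ^ 2 - W.a₆ ^ 2) *
      (W.a₃⁻¹) ^ 4) * h2
  have h3 : z * (ε * (W.a₃⁻¹) ^ 2 + ε ^ 4 * (W.a₃⁻¹) ^ 4) =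
      z * ε * (W.a₃⁻¹) ^ 2 + z * ε ^ 4 * (W.a₃⁻¹) ^ 4 := by ring
  rw [h1, map_add, map_add, map_add _ ((z * ε * (W.a₃⁻¹) ^ 2) ^ 2), chi_sq, h3,
    map_add _ (z * ε * (W.a₃⁻¹) ^ 2)]

theorem supersingular_infinite {W V : Affine K} (hV : W.map (frobenius K 2) = V) [V.IsElliptic]
    (D : Derivation ℤ K K) (h1 : W.a₁ = 0) (h3 : W.a₃ ≠ 0) [Infinite K]
    [Finite (K ⧸ (wp K).range)] {t : K} (ht : D t = 1) :
    (Set.range (delta (constCoeff_frob 2 D hV))).Infinite := by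
  classical
  have hi : W.a₃⁻¹ ≠ 0 := inv_ne_zero h3
  set i := W.a₃⁻¹ with hidef
  let h : K → K := fun ε => ε * i ^ 2 + ε ^ 4 * i ^ 4
  have hY : (Set.range h).Infinite := by
    intro hfin
    have : Finite (Set.range h) := hfin
    obtain ⟨v, hv⟩ := Finite.exists_infinite_fiber (Set.rangeFactorization h)
    have hv' : (Set.rangeFactorization h ⁻¹' {v}).Infinite := Set.infinite_coe_iff.1 hv
    apply hv'
    let q : Polynomial K := Polynomial.C (i ^ 4) * Polynomial.X ^ 4 +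
      Polynomial.C (i ^ 2) * Polynomial.X - Polynomial.C (v : K)
    have hq : q ≠ 0 := by
      intro h0
      have := congrArg (fun r => Polynomial.coeff r 4) h0
      simp only [q, Polynomial.coeff_sub, Polynomial.coeff_add, Polynomial.coeff_C_mul,
        Polynomial.coeff_X_pow, Polynomial.coeff_X, Polynomial.coeff_C, Polynomial.coeff_zero] at this
      norm_num at this
      exact hi this
    apply Set.Finite.subset (q.roots.toFinset.finite_toSet)
    intro ε hε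
    have h5 : h ε = v := congrArg Subtype.val hε
    simp only [Finset.mem_coe, Multiset.mem_toFinset, Polynomial.mem_roots hq, Polynomial.IsRoot]
    simp only [q, Polynomial.eval_sub, Polynomial.eval_add, Polynomial.eval_mul,
      Polynomial.eval_C, Polynomial.eval_pow, Polynomial.eval_X]
    rw [← h5]
    simp only [h]
    ring
  have : Fintype (K ⧸ (wp K).range) := Fintype.ofFinite _
  let e := Fintype.equivFin (K ⧸ (wp K).range)
  obtain ⟨y, hy, hJ⟩ := exists_seq (chi K) chi_surjective (Set.range h) hY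
    (Fintype.card (K ⧸ (wp K).range))
  choose ε hε using hy
  let A₀ : Fin (Fintype.card (K ⧸ (wp K).range)) → K ⧸ (wp K).range :=
    fun r => e.symm r + chi K (Rf W ((ε r) ^ 2) + Rf W 0)
  -- good values
  have hgood : ∀ z, (∀ r, chi K (z * y r) = A₀ r) →
      D z * i ^ 2 ∈ Set.range (delta (constCoeff_frob 2 D hV)) := by
    intro z hz
    set r := e (chi K (Rf W z)) with hr
    obtain ⟨P, hP⟩ := supersingular_point hV D h1 h3 (x := z + ε r ^ 2) (by
      rw [Rf_add]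
      have h6 : z * (ε r * W.a₃⁻¹ ^ 2 + ε r ^ 4 * W.a₃⁻¹ ^ 4) = z * y r := by
        rw [← hε r]
      rw [h6, hz r]
      have h7 : e.symm r = chi K (Rf W z) := by rw [hr, Equiv.symm_apply_apply]
      simp only [A₀, h7]
      have e1 := two_chi (chi K (Rf W z))
      have e2 := two_chi (chi K (Rf W (ε r ^ 2) + Rf W 0))
      calc _ = (chi K (Rf W z) + chi K (Rf W z)) +
        (chi K (Rf W (ε r ^ 2) + Rf W 0) + chi K (Rf W (ε r ^ 2) + Rf W 0)) := by abel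
        _ = 0 := by rw [e1, e2, add_zero])
    refine ⟨P, ?_⟩
    rw [hP, map_add, D_pow_p 2 D, add_zero]
  intro hfin
  choose zA hzA using hJ
  have hDfin : (Set.range D).Finite := by
    have hF : ({w : K | w * i ^ 2 ∈ Set.range (delta (constCoeff_frob 2 D hV))}).Finite :=
      hfin.preimage ((mul_left_injective₀ (pow_ne_zero 2 hi)).injOn)
    have : Set.range D ⊆ ⋃ A : Fin (Fintype.card (K ⧸ (wp K).range)) → K ⧸ (wp K).range,
        (fun w => w + (D (zA A) - D (zA A₀))) ''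
          {w : K | w * i ^ 2 ∈ Set.range (delta (constCoeff_frob 2 D hV))} := by
      rintro _ ⟨z, rfl⟩
      rw [Set.mem_iUnion]
      refine ⟨fun r => chi K (z * y r), ?_⟩
      refine ⟨D (z - zA (fun r => chi K (z * y r)) + zA A₀), ?_, ?_⟩
      · apply hgood
        intro r
        rw [add_mul, map_add, hzA, sub_mul, map_sub, hzA, sub_self, zero_add]
      · simp only [map_add, map_sub]
        ring
    apply Set.Finite.subset _ this
    exact Set.finite_iUnion (fun A => hF.image _)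
  apply constants_infinite D
  apply Set.Finite.subset hDfin
  intro c hc
  refine ⟨c * t, ?_⟩
  rw [Derivation.leibniz, show D c = 0 from hc, ht]
  simp

end supersingular

section main
variable {K : Type*} [Field K] [CharP K 2] [DecidableEq K]

theorem char_two_infinite {W V : Affine K} (hV : W.map (frobenius K 2) = V) [V.IsElliptic]
    (D : Derivation ℤ K K) [Infinite K] [Finite (K ⧸ (wp K).range)] {t : K} (ht : D t = 1) :
    (Set.range (delta (constCoeff_frob 2 D hV))).Infinite := by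
  by_cases h1 : W.a₁ = 0
  · have h3 : W.a₃ ≠ 0 := by
      intro h3
      have hΔ : V.Δ ≠ 0 := (WeierstrassCurve.isElliptic_iff V).1 inferInstance |>.ne_zero
      apply hΔ
      have h2 : (2 : K) = 0 := CharTwo.two_eq_zero
      subst hV
      simp only [WeierstrassCurve.Δ, WeierstrassCurve.b₂, WeierstrassCurve.b₄,
        WeierstrassCurve.b₆, WeierstrassCurve.b₈, WeierstrassCurve.map, h1, h3, map_zero]
      linear_combination (-8 * (frobenius K 2 W.a₂) ^ 2 * (frobenius K 2 W.a₂ *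
        frobenius K 2 W.a₆ * 4 - frobenius K 2 W.a₄ ^ 2)
        - 32 * frobenius K 2 W.a₄ ^ 3 - 27 * 8 * frobenius K 2 W.a₆ ^ 2 +
        9 * 16 * frobenius K 2 W.a₂ * frobenius K 2 W.a₄ * frobenius K 2 W.a₆) * h2
    exact supersingular_infinite hV D h1 h3 ht
  · exact ordinary_infinite hV D h1 ht

end main

end Pool.Agent.H54.Larsen
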