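import Mathlib.AlgebraicGeometry.EllipticCurve.Affine.Point
import Mathlib.Algebra.Polynomial.Roots

/-! Finiteness of the odd torsion in characteristic different from two. -/

namespace Pool.Agent.H54.Larsen

open WeierstrassCurve Polynomial

section
variable {M : Type*} [Field M] (W : Affine M)

lemma finite_fiber (c : M) : {P : W.Point | ∃ y h, P = .some c y h}.Finite := by
  classical
  by_cases hne : ∃ y, W.Nonsingular c y
  · obtain ⟨y0, h0⟩ := hne
    apply Set.Finite.subset (Set.toFinite {Affine.Point.some c y0 h0,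
      .some c (W.negY c y0) ((Affine.nonsingular_neg ..).mpr h0)})
    rintro P ⟨y, h, rfl⟩
    rcases Affine.Y_eq_of_X_eq h.1 h0.1 rfl with h1 | h1
    · left; subst h1; rfl
    · right
      rw [Set.mem_singleton_iff]
      subst h1; rfl
  · apply Set.Finite.subset Set.finite_empty
    rintro P ⟨y, h, rfl⟩
    exact hne ⟨y, h⟩

lemma finite_roots_points (F : M[X]) (hF : F ≠ 0) :
    {P : W.Point | ∃ x y h, P = .some x y h ∧ F.eval x = 0}.Finite := by
  classical
  have : {P : W.Point | ∃ x y h, P = .some x y h ∧ F.eval x = 0} ⊆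
      ⋃ c ∈ F.roots.toFinset, {P : W.Point | ∃ y h, P = .some c y h} := by
    rintro P ⟨x, y, h, rfl, hx⟩
    simp only [Set.mem_iUnion]
    exact ⟨x, by simpa [hF] using hx, y, h, rfl⟩
  apply Set.Finite.subset _ this
  apply Set.Finite.biUnion (Finset.finite_toSet _)
  intro c _
  exact finite_fiber W c

end

section
variable {M : Type*} [Field M] [DecidableEq M] (W : Affine M)

/-- generic formula for the abscissa of a multiple -/
def Good (k : ℕ) (A B : M[X]) (P : W.Point) : Prop :=
  ∃ x y h, P = .some x y h ∧ B.eval x ≠ 0 ∧ ∃ x' y' h', k • P = .some x' y' h' ∧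
    x' * B.eval x = A.eval x

/-- generic formula for the abscissa of a multiple -/
def R (k : ℕ) : Prop := ∃ A B : M[X], {P : W.Point | ¬ Good W k A B P}.Finite

lemma R_one : R W 1 := by
  refine ⟨X, 1, ?_⟩
  apply Set.Finite.subset (Set.finite_singleton (0 : W.Point))
  rintro (_ | ⟨x, y, h⟩) hP
  · rfl
  · exfalso
    apply hP
    exact ⟨x, y, h, rfl, by simp, x, y, h, by simp, by simp⟩

lemma R_two (h2 : {P : W.Point | 2 • P = 0}.Finite) : R W 2 := by
  refine ⟨X ^ 4 - C W.b₄ * X ^ 2 - C (2 * W.b₆) * X - C W.b₈,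
    C 4 * X ^ 3 + C W.b₂ * X ^ 2 + C (2 * W.b₄) * X + C W.b₆, ?_⟩
  apply Set.Finite.subset (h2.union (Set.finite_singleton (0 : W.Point)))
  rintro (_ | ⟨x, y, h⟩) hP
  · right; rfl
  · left
    by_contra h0
    apply hP
    have hy : y ≠ W.negY x y := by
      intro hy
      apply h0
      show 2 • Affine.Point.some x y h = 0
      rw [two_smul]
      exact Affine.Point.add_of_Y_eq rfl hy
    have he : y - W.negY x y ≠ 0 := sub_ne_zero.2 hy
    have hE := (Affine.equation_iff _ _).1 h.1
    have hpsi : 4 * x ^ 3 + W.b₂ * x ^ 2 + 2 * W.b₄ * x + W.b₆ = (y - W.negY x y) ^ 2 := by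
      simp only [Affine.negY, WeierstrassCurve.b₂, WeierstrassCurve.b₄, WeierstrassCurve.b₆]
      linear_combination (-4) * hE
    refine ⟨x, y, h, rfl, ?_, W.addX x x (W.slope x x y y), W.addY x x y (W.slope x x y y),
      Affine.nonsingular_add h h (fun hxy => hy hxy.2), ?_, ?_⟩
    · simp only [eval_add, eval_mul, eval_C, eval_pow, eval_X]
      rw [hpsi]
      exact pow_ne_zero _ he
    · rw [two_smul]
      exact Affine.Point.add_self_of_Y_ne hy
    · simp only [eval_add, eval_mul, eval_C, eval_pow, eval_X, eval_sub]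
      rw [hpsi, Affine.slope_of_Y_ne rfl hy, Affine.addX]
      simp only [WeierstrassCurve.b₄, WeierstrassCurve.b₆,
        WeierstrassCurve.b₈]
      field_simp
      simp only [Affine.negY]
      linear_combination (-(8 * x + 4 * W.a₂ + W.a₁ ^ 2)) * hE

/-- the abscissae of `P + Q` and `P - Q` -/
lemma addX_add_addX {x₁ x₂ y₁ y₂ : M} (hx : x₁ ≠ x₂) (h₁ : W.Equation x₁ y₁)
    (h₂ : W.Equation x₂ y₂) :
    (W.addX x₁ x₂ (W.slope x₁ x₂ y₁ y₂) + W.addX x₁ x₂ (W.slope x₁ x₂ y₁ (W.negY x₂ y₂)))
      * (x₁ - x₂) ^ 2 = 2 * x₁ * x₂ * (x₁ + x₂) + W.b₂ * x₁ * x₂ + W.b₄ * (x₁ + x₂) + W.b₆ := by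
  rw [Affine.slope_of_X_ne hx, Affine.slope_of_X_ne hx]
  have h := sub_ne_zero.2 hx
  rw [Affine.equation_iff] at h₁ h₂
  simp only [Affine.addX, Affine.negY, WeierstrassCurve.b₂, WeierstrassCurve.b₄,
    WeierstrassCurve.b₆]
  field_simp
  linear_combination 2 * h₁ + 2 * h₂

lemma R_step {k : ℕ} {A B A' B' : M[X]} (hk : {P : W.Point | ¬ Good W (k + 1) A B P}.Finite)
    (hk' : {P : W.Point | ¬ Good W k A' B' P}.Finite) (hne : A - X * B ≠ 0) :
    R W (k + 2) := by
  refine ⟨(2 * A * X * (A + X * B) + C W.b₂ * A * X * B + C W.b₄ * (A + X * B) * B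
    + C W.b₆ * B ^ 2) * B' - A' * (A - X * B) ^ 2, (A - X * B) ^ 2 * B', ?_⟩
  apply Set.Finite.subset ((hk.union hk').union (finite_roots_points W _ hne))
  intro P hP
  by_contra hcon
  simp only [Set.mem_union, Set.mem_ofPred_eq, not_or, not_not] at hcon
  obtain ⟨⟨h1, h2⟩, h3⟩ := hcon
  apply hP
  obtain ⟨x, y, h, rfl, hB, x', y', h', hx', hxx'⟩ := h1
  obtain ⟨x0, y0, h0, hP0, hB', x'', y'', h'', hx'', hxx''⟩ := h2
  obtain ⟨rfl, rfl⟩ : x = x0 ∧ y = y0 := by
    simpa using hP0
  have hF : (A - X * B).eval x ≠ 0 := by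
    intro h4
    exact h3 ⟨x, y, h, rfl, h4⟩
  have hF' : A.eval x - x * B.eval x ≠ 0 := by simpa using hF
  have hne' : x' ≠ x := by
    rintro rfl
    apply hF'
    rw [← hxx']; ring
  have e1 : (k + 2) • Affine.Point.some x y h = .some x' y' h' + .some x y h := by
    rw [← hx', ← succ_nsmul]
  have e2 : k • Affine.Point.some x y h = .some x' y' h' + -.some x y h := by
    rw [← hx', succ_nsmul]
    abel
  rw [Affine.Point.neg_some, Affine.Point.add_of_X_ne hne'] at e2
  rw [Affine.Point.add_of_X_ne hne'] at e1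
  rw [hx''] at e2
  have e3 : x'' = W.addX x' x (W.slope x' x y' (W.negY x y)) := by
    simp only [Affine.Point.some.injEq] at e2
    exact e2.1
  refine ⟨x, y, h, rfl, ?_, _, _, _, e1, ?_⟩
  · simp only [eval_mul, eval_pow]
    exact mul_ne_zero (pow_ne_zero _ hF) hB'
  · have key := addX_add_addX W hne' h'.1 h.1
    rw [← e3] at key
    simp only [eval_mul, eval_pow, eval_sub, eval_add, eval_X, eval_C, eval_ofNat]
    rw [← hxx', ← hxx'']
    linear_combination (B.eval x ^ 2 * B'.eval x) * key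

omit [DecidableEq M] in
lemma eq_or_of_same_x {x y x' y' : M} (h : W.Nonsingular x y) (h' : W.Nonsingular x' y')
    (hx : x' = x) : Affine.Point.some x' y' h' = .some x y h ∨
      Affine.Point.some x' y' h' = -.some x y h := by
  subst hx
  rcases Affine.Y_eq_of_X_eq h'.1 h.1 rfl with h1 | h1
  · left; subst h1; rfl
  · right; subst h1; rfl

lemma cofinite_of_eq {k : ℕ} {A B : M[X]} (hk : {P : W.Point | ¬ Good W (k + 1) A B P}.Finite)
    (hAB : A - X * B = 0) (hfin : {P : W.Point | k • P = 0}.Finite) :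
    {P : W.Point | ¬ (k + 2) • P = 0}.Finite := by
  apply Set.Finite.subset (hk.union hfin)
  intro P hP
  by_contra hcon
  simp only [Set.mem_union, Set.mem_ofPred_eq, not_or, not_not] at hcon
  obtain ⟨h1, h2⟩ := hcon
  obtain ⟨x, y, h, rfl, hB, x', y', h', hx', hxx'⟩ := h1
  have h3 : A.eval x - x * B.eval x = 0 := by
    have := congrArg (Polynomial.eval x) hAB
    simpa using this
  have h4 : x' = x := by
    have : (x' - x) * B.eval x = 0 := by linear_combination hxx' + h3
    rcases mul_eq_zero.1 this with h5 | h5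
    · exact sub_eq_zero.1 h5
    · exact absurd h5 hB
  apply hP
  rcases eq_or_of_same_x W h h' h4 with h5 | h5
  · exfalso
    apply h2
    rw [h5, succ_nsmul] at hx'
    simpa using hx'
  · show (k + 2) • Affine.Point.some x y h = 0
    rw [show k + 2 = (k + 1) + 1 from rfl, succ_nsmul, hx', h5]
    simp

lemma all_torsion_of_cofinite {G : Type*} [AddCommGroup G] (n : ℕ)
    (hinf : {P : G | n • P = 0}.Infinite) (hfin : {P : G | ¬ n • P = 0}.Finite) (Q : G) :
    n • Q = 0 := by
  by_contra hQ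
  apply hinf
  have : {P : G | n • P = 0} ⊆ (fun P => P + Q) ⁻¹' {P : G | ¬ n • P = 0} := by
    intro P hP
    simp only [Set.mem_preimage, Set.mem_ofPred_eq, smul_add] at hP ⊢
    rw [hP, zero_add]
    exact hQ
  exact (hfin.preimage (fun a _ b _ hab => add_right_cancel hab)).subset this

theorem torsion_finite (h2 : {P : W.Point | 2 • P = 0}.Finite) {T : W.Point} (hT : T ≠ 0)
    (hT2 : 2 • T = 0) {p : ℕ} (hp : p.Prime) (hp2 : p ≠ 2) :
    {P : W.Point | p • P = 0}.Finite := by
  classical
  by_contra hinf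
  have hex : ∃ n, 1 ≤ n ∧ {P : W.Point | n • P = 0}.Infinite := ⟨p, hp.one_le, hinf⟩
  obtain ⟨hn1, hninf⟩ := Nat.find_spec hex
  have hmin : ∀ m, 1 ≤ m → m < Nat.find hex → {P : W.Point | m • P = 0}.Finite := by
    intro m hm hm'
    have := Nat.find_min hex hm'
    simp only [hm, true_and, Set.not_infinite] at this
    exact this
  have hnp : Nat.find hex ≤ p := Nat.find_min' hex ⟨hp.one_le, hinf⟩
  set n := Nat.find hex with hn
  have hn3 : 3 ≤ n := by
    by_contra hlt
    have : n = 1 ∨ n = 2 := by omega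
    rcases this with h | h
    · rw [h] at hninf
      apply hninf
      simp
    · rw [h] at hninf
      exact hninf h2
  have huniv : (Set.univ : Set W.Point).Infinite := hninf.mono (Set.subset_univ _)
  have hR : ∀ k, k + 2 < n → R W (k + 1) ∧ R W (k + 2) := by
    intro k
    induction k with
    | zero => intro _; exact ⟨R_one W, R_two W h2⟩
    | succ k ih =>
      intro hk
      obtain ⟨⟨A', B', hAB'⟩, ⟨A, B, hAB⟩⟩ := ih (by omega)
      refine ⟨⟨A, B, hAB⟩, ?_⟩
      by_cases hne : A - X * B = 0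
      · exfalso
        have h5 := cofinite_of_eq W hAB hne (hmin (k + 1) (by omega) (by omega))
        apply huniv
        have : (Set.univ : Set W.Point) = {P | (k + 1 + 2) • P = 0} ∪ {P | ¬ (k + 1 + 2) • P = 0} := by
          ext P; simp [em]
        rw [this]
        exact (hmin (k + 1 + 2) (by omega) (by omega)).union h5
      · exact R_step W hAB hAB' hne
  obtain ⟨m, hm⟩ : ∃ m, n = m + 3 := ⟨n - 3, by omega⟩
  have hRn' : R W (m + 2) := by
    have := (hR m (by omega)).2
    exact this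
  obtain ⟨A, B, hAB⟩ := hRn'
  have hzero : A - X * B = 0 := by
    by_contra hne
    apply hninf
    apply Set.Finite.subset (hAB.union (finite_roots_points W _ hne))
    intro P hP
    by_contra hcon
    simp only [Set.mem_union, Set.mem_ofPred_eq, not_or, not_not] at hcon
    obtain ⟨h1, h3⟩ := hcon
    obtain ⟨x, y, h, rfl, hB, x', y', h', hx', hxx'⟩ := h1
    apply h3
    refine ⟨x, y, h, rfl, ?_⟩
    have h4 : n • Affine.Point.some x y h = 0 := hP
    rw [hm, show m + 3 = (m + 2) + 1 from rfl, succ_nsmul, hx'] at h4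
    have h5 := eq_neg_of_add_eq_zero_left h4
    rw [Affine.Point.neg_some] at h5
    have h6 : x' = x := by
      simp only [Affine.Point.some.injEq] at h5
      exact h5.1
    subst h6
    simp only [eval_sub, eval_mul, eval_X]
    rw [← hxx']; ring
  have hcof := cofinite_of_eq W (k := m + 1) hAB hzero (hmin (m + 1) (by omega) (by omega))
  have hall := all_torsion_of_cofinite n hninf (by rw [hm]; exact hcof)
  rcases hnp.lt_or_eq with hlt | heq
  · apply hinf
    have hcop : Nat.Coprime p n := by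
      rw [Nat.Prime.coprime_iff_not_dvd hp]
      intro hd
      exact absurd (Nat.le_of_dvd (by omega) hd) (by omega)
    apply Set.Finite.subset (Set.finite_singleton (0 : W.Point))
    intro P hP
    have h1 : addOrderOf P ∣ p := addOrderOf_dvd_iff_nsmul_eq_zero.2 hP
    have h3 : addOrderOf P ∣ n := addOrderOf_dvd_iff_nsmul_eq_zero.2 (hall P)
    have h4 : addOrderOf P = 1 := Nat.eq_one_of_dvd_coprimes hcop h1 h3
    exact AddMonoid.addOrderOf_eq_one_iff.1 h4
  · apply hT
    have h1 : addOrderOf T ∣ 2 := addOrderOf_dvd_iff_nsmul_eq_zero.2 hT2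
    have h3 : addOrderOf T ∣ p := by
      rw [← heq]
      exact addOrderOf_dvd_iff_nsmul_eq_zero.2 (hall T)
    have hcop : Nat.Coprime 2 p := (Nat.coprime_primes Nat.prime_two hp).2 (Ne.symm hp2)
    have h4 : addOrderOf T = 1 := Nat.eq_one_of_dvd_coprimes hcop h1 h3
    exact AddMonoid.addOrderOf_eq_one_iff.1 h4

lemma eq_negY_of_two_smul {x y : M} {h : W.Nonsingular x y}
    (h2 : 2 • Affine.Point.some x y h = 0) : y = W.negY x y := by
  by_contra hy
  rw [two_smul, Affine.Point.add_self_of_Y_ne hy] at h2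
  simp at h2

lemma two_torsion_finite (h2 : (2 : M) ≠ 0) : {P : W.Point | 2 • P = 0}.Finite := by
  have hne : (C 4 * X ^ 3 + C W.b₂ * X ^ 2 + C (2 * W.b₄) * X + C W.b₆ : M[X]) ≠ 0 := by
    intro h
    have := congrArg (fun q => Polynomial.coeff q 3) h
    simp [coeff_X, coeff_C] at this
    apply h2
    have h4 : (2 : M) * 2 = 0 := by rw [← this]; norm_num
    rcases mul_eq_zero.1 h4 with h5 | h5 <;> exact h5
  apply Set.Finite.subset ((finite_roots_points W _ hne).union (Set.finite_singleton 0))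
  rintro (_ | ⟨x, y, h⟩) hP
  · right; rfl
  · left
    refine ⟨x, y, h, rfl, ?_⟩
    have hy := eq_negY_of_two_smul W hP
    have hE := (Affine.equation_iff _ _).1 h.1
    rw [Affine.negY] at hy
    simp only [eval_add, eval_mul, eval_C, eval_pow, eval_X]
    simp only [WeierstrassCurve.b₂, WeierstrassCurve.b₄, WeierstrassCurve.b₆]
    linear_combination (-4) * hE + (2 * y + W.a₁ * x + W.a₃) * hy

lemma two_torsion_finite' (h2 : (2 : M) = 0) (hD : W.Δ ≠ 0) :
    {P : W.Point | 2 • P = 0}.Finite := by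
  have hne : (C W.a₁ * X + C W.a₃ : M[X]) ≠ 0 := by
    intro h
    have h1 := congrArg (fun q => Polynomial.coeff q 1) h
    have h0 := congrArg (fun q => Polynomial.coeff q 0) h
    simp [coeff_X, coeff_C] at h1 h0
    apply hD
    simp only [WeierstrassCurve.Δ, WeierstrassCurve.b₂, WeierstrassCurve.b₄,
      WeierstrassCurve.b₆, WeierstrassCurve.b₈, h1, h0]
    linear_combination (-8 * W.a₂ ^ 2 * (W.a₂ * W.a₆ * 4 - W.a₄ ^ 2)
      - 32 * W.a₄ ^ 3 - 27 * 8 * W.a₆ ^ 2 + 9 * 16 * W.a₂ * W.a₄ * W.a₆) * h2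
  apply Set.Finite.subset ((finite_roots_points W _ hne).union (Set.finite_singleton 0))
  rintro (_ | ⟨x, y, h⟩) hP
  · right; rfl
  · left
    refine ⟨x, y, h, rfl, ?_⟩
    have hy := eq_negY_of_two_smul W hP
    rw [Affine.negY] at hy
    simp only [eval_add, eval_mul, eval_C, eval_X]
    linear_combination hy - y * h2

end

end Pool.Agent.H54.Larsen
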