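import Pool.Agent.H54.Larsen.RankLemma
import Pool.Agent.H54.Larsen.Torsion
import Pool.Agent.H54.Larsen.Char2
import Mathlib.FieldTheory.IsSepClosed
import Mathlib.GroupTheory.Schreier

/-! Assembly, part one. -/

namespace Pool.Agent.H54.Larsen

open WeierstrassCurve

section rank
variable {K : Type*} [Field K] [DecidableEq K] (p : ℕ) [hp : Fact p.Prime] [CharP K p]

theorem rank_of_delta {W V : Affine K} (hV : W.map (frobenius K p) = V) (D : Derivation ℤ K K)
    (hinf : (Set.range (delta (constCoeff_frob p D hV))).Infinite)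
    (hfin : {a : V.Point | p • a = 0}.Finite) : Cardinal.aleph0 ≤ Module.rank ℤ W.Point :=
  rank_criterion p (mapHom (frobenius K p) hV) (fun a => exists_frob_of_smul p hV a)
    (delta (constCoeff_frob p D hV)) (fun v => by rw [nsmul_eq_mul, CharP.cast_eq_zero, zero_mul])
    hinf hfin

end rank

section pull
variable {K Ω : Type*} [Field K] [Field Ω]

lemma pull_derivation (ι : K →+* Ω) (D : Derivation ℤ Ω Ω) (h : ∀ z : K, D (ι z) ∈ ι.range) :
    ∃ D' : Derivation ℤ K K, ∀ z, ι (D' z) = D (ι z) := by
  choose f hf using h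
  have hi := ι.injective
  refine ⟨{ toFun := f
            map_add' := fun a b => hi (by simp [hf])
            map_smul' := fun a b => hi (by simp [hf])
            map_one_eq_zero' := hi (by
              show ι (f 1) = ι 0
              rw [hf]; simp)
            leibniz' := fun a b => hi (by
              show ι (f (a * b)) = ι (a • f b + b • f a)
              rw [hf]
              simp [hf]) }, hf⟩

lemma infinite_of_derivation (p : ℕ) [hp : Fact p.Prime] [CharP K p] (D : Derivation ℤ K K) {t : K}
    (ht : D t = 1) : Infinite K := by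
  by_contra hfin
  rw [not_infinite_iff_finite] at hfin
  have hsurj : Function.Surjective (frobenius K p) :=
    Finite.surjective_of_injective (frobenius K p).injective
  obtain ⟨s, hs⟩ := hsurj t
  classical
  rw [← hs, frobenius_def, D_pow_p p D s] at ht
  exact zero_ne_one ht

variable {G : Type*} [Group G] [MulSemiringAction G Ω]

lemma fixed_of_closure {S : Set G} (hS : Subgroup.closure S = ⊤) (z : Ω)
    (h : ∀ g ∈ S, g • z = z) (g : G) : g • z = z := by
  have h1 : Subgroup.closure S ≤ MulAction.stabilizer G z := by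
    rw [Subgroup.closure_le]
    exact h
  rw [hS] at h1
  exact h1 (Subgroup.mem_top g)

lemma finite_AS [CharP K 2] [CharP Ω 2] [IsSepClosed Ω] [hG : Group.FG G] (ι : K →+* Ω)
    (hι : ∀ z : Ω, (∀ g : G, g • z = z) → z ∈ ι.range) (hι' : ∀ (g : G) (z : K), g • ι z = ι z) :
    Finite (K ⧸ (wp K).range) := by
  obtain ⟨S, hS, hSfin⟩ := Group.fg_iff.1 hG
  have : Finite S := hSfin
  have hr : ∀ z : K, ∃ r : Ω, r ^ 2 + r = ι z := by
    intro z
    obtain ⟨x, hx⟩ := IsSepClosed.exists_root_C_mul_X_pow_add_C_mul_X_add_C' 2 2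
      (1 : Ω) 1 (ι z) dvd_rfl le_rfl one_ne_zero
    refine ⟨x, ?_⟩
    have := CharTwo.add_self_eq_zero (ι z)
    linear_combination hx - this
  choose r hr using hr
  have hg : ∀ (g : G) (z : K), g • r z = r z ∨ g • r z = r z + 1 := by
    intro g z
    have h1 : (g • r z) ^ 2 + g • r z = r z ^ 2 + r z := by
      rw [← smul_pow', ← smul_add, hr, hι']
    have h2 : (2 : Ω) = 0 := CharTwo.two_eq_zero
    have h3 : (g • r z - r z) * (g • r z - (r z + 1)) = 0 := by
      linear_combination h1 - (g • r z - r z + r z * (g • r z) - r z ^ 2) * h2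
    rcases mul_eq_zero.1 h3 with h4 | h4
    · left; exact sub_eq_zero.1 h4
    · right; exact sub_eq_zero.1 h4
  let col : K → (S → Prop) := fun z g => (g : G) • r z = r z
  have hcol : ∀ z z', col z = col z' → (QuotientAddGroup.mk z : K ⧸ (wp K).range) =
      QuotientAddGroup.mk z' := by
    intro z z' h
    have hfix : ∀ g : G, g • (r z - r z') = r z - r z' := by
      apply fixed_of_closure hS
      intro g hgS
      have h1 : (g • r z = r z) ↔ (g • r z' = r z') := iff_of_eq (congrFun h ⟨g, hgS⟩)
      rw [smul_sub]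
      rcases hg g z with h2 | h2 <;> rcases hg g z' with h3 | h3
      · rw [h2, h3]
      · rw [h2, h1.1 h2]
      · rw [h3, h1.2 h3]
      · rw [h2, h3]; ring
    obtain ⟨w, hw⟩ := hι _ hfix
    rw [QuotientAddGroup.eq]
    refine ⟨w, ι.injective ?_⟩
    show ι (w ^ 2 + w) = ι (-z + z')
    rw [map_add, map_pow, hw, map_add, map_neg, ← hr z, ← hr z']
    have h2 : (2 : Ω) = 0 := CharTwo.two_eq_zero
    linear_combination (r z ^ 2 + r z - r z * r z' - r z') * h2
  apply Finite.of_injective (fun q : K ⧸ (wp K).range => col (Quotient.out q))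
  intro a b hab
  have := hcol _ _ hab
  simpa using this

theorem rank_char_two [DecidableEq K] [CharP K 2] [CharP Ω 2] [IsSepClosed Ω] [Group.FG G]
    (ι : K →+* Ω) (hι : ∀ z : Ω, (∀ g : G, g • z = z) → z ∈ ι.range)
    (hι' : ∀ (g : G) (z : K), g • ι z = ι z) (D : Derivation ℤ Ω Ω)
    (hD : ∀ (g : G) (z : Ω), D (g • z) = g • D z) (t : K) (ht : D (ι t) = 1)
    (W : Affine K) [W.IsElliptic] : Cardinal.aleph0 ≤ Module.rank ℤ W.Point := by
  obtain ⟨D', hD'⟩ := pull_derivation ι D (fun z => hι _ (fun g => by rw [← hD, hι']))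
  have ht' : D' t = 1 := ι.injective (by rw [hD', ht, map_one])
  have : Infinite K := infinite_of_derivation 2 D' ht'
  have : Finite (K ⧸ (wp K).range) := finite_AS (G := G) ι hι hι'
  let V : Affine K := W.map (frobenius K 2)
  have hVell : V.IsElliptic := inferInstanceAs (W.map (frobenius K 2)).IsElliptic
  have hV : W.map (frobenius K 2) = V := rfl
  exact rank_of_delta 2 hV D' (char_two_infinite hV D' ht')
    (two_torsion_finite' V CharTwo.two_eq_zero
      ((WeierstrassCurve.isElliptic_iff V).1 inferInstance).ne_zero)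

end pull

end Pool.Agent.H54.Larsen
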