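import Mathlib.Algebra.MvPolynomial.Polynomial
import Mathlib.Algebra.Polynomial.Roots
import Mathlib.Tactic.FieldSimp
import Mathlib.Tactic.LinearCombination
import Mathlib.Algebra.Module.LinearMap.Polynomial

/-! Elimination of square roots and a uniform bound. -/

namespace Pool.Agent.H54.Larsen

open MvPolynomial

section elim
variable {τ R : Type*} [DecidableEq τ] [CommRing R]

lemma even_odd (i : τ) (G : MvPolynomial τ R) : ∃ E O : MvPolynomial τ R, ∀ y : τ → R,
    eval y G = eval (Function.update y i (y i ^ 2)) E +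
      y i * eval (Function.update y i (y i ^ 2)) O := by
  induction G using MvPolynomial.induction_on with
  | C a => exact ⟨C a, 0, fun y => by simp⟩
  | add p q hp hq =>
    obtain ⟨E, O, h⟩ := hp
    obtain ⟨E', O', h'⟩ := hq
    refine ⟨E + E', O + O', fun y => ?_⟩
    simp only [map_add, h y, h' y]
    ring
  | mul_X p j hp =>
    obtain ⟨E, O, h⟩ := hp
    by_cases hj : j = i
    · subst hj
      refine ⟨X j * O, E, fun y => ?_⟩
      simp only [map_mul, h y, eval_X, Function.update_self]
      ring
    · refine ⟨E * X j, O * X j, fun y => ?_⟩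
      simp only [map_mul, h y, eval_X, Function.update_of_ne hj]
      ring

theorem elim_exists [IsDomain R] (T : Finset τ) (Q : MvPolynomial τ R) :
    ∃ Ψ : MvPolynomial τ R, (∀ y : τ → R, eval y Q = 0 →
      eval (fun i => if i ∈ T then y i ^ 2 else y i) Ψ = 0) ∧
      ∀ y : τ → R, (∀ ε : τ → R, (∀ i, ε i = 1 ∨ ε i = -1) → (∀ i, i ∉ T → ε i = 1) →
        eval (fun i => ε i * y i) Q ≠ 0) →
        eval (fun i => if i ∈ T then y i ^ 2 else y i) Ψ ≠ 0 := by
  induction T using Finset.induction_on with
  | empty =>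
    refine ⟨Q, fun y hy => by simpa using hy, fun y hy => ?_⟩
    have := hy (fun _ => 1) (fun _ => Or.inl rfl) (fun _ _ => rfl)
    simpa using this
  | insert i T hi ih =>
    obtain ⟨G, hG1, hG2⟩ := ih
    obtain ⟨E, O, hEO⟩ := even_odd i G
    have key : ∀ y : τ → R, eval (fun j => if j ∈ insert i T then y j ^ 2 else y j)
        (E ^ 2 - X i * O ^ 2) = eval (fun j => if j ∈ T then y j ^ 2 else y j) G *
          eval (fun j => if j ∈ T then (Function.update y i (- y i)) j ^ 2 else
            (Function.update y i (- y i)) j) G := by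
      intro y
      have e1 : Function.update (fun j => if j ∈ T then y j ^ 2 else y j) i
          ((fun j => if j ∈ T then y j ^ 2 else y j) i ^ 2) =
          (fun j => if j ∈ insert i T then y j ^ 2 else y j) := by
        funext j
        by_cases hj : j = i
        · subst hj; simp [hi]
        · simp [Function.update_of_ne hj, Finset.mem_insert, hj]
      have e2 : Function.update (fun j => if j ∈ T then (Function.update y i (- y i)) j ^ 2 else
            (Function.update y i (- y i)) j) i
          ((fun j => if j ∈ T then (Function.update y i (- y i)) j ^ 2 else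
            (Function.update y i (- y i)) j) i ^ 2) =
          (fun j => if j ∈ insert i T then y j ^ 2 else y j) := by
        funext j
        by_cases hj : j = i
        · subst hj; simp [hi]
        · simp [Function.update_of_ne hj, Finset.mem_insert, hj]
      rw [hEO (fun j => if j ∈ T then y j ^ 2 else y j),
        hEO (fun j => if j ∈ T then (Function.update y i (- y i)) j ^ 2 else
            (Function.update y i (- y i)) j), e1, e2]
      simp only [map_sub, map_mul, map_pow, eval_X, hi, if_false, Function.update_self,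
        Finset.mem_insert_self, if_true]
      ring
    refine ⟨E ^ 2 - X i * O ^ 2, ?_, ?_⟩
    · intro y hy
      rw [key, hG1 y hy, zero_mul]
    · intro y hy
      rw [key]
      apply mul_ne_zero
      · apply hG2
        intro ε hε hε'
        exact hy ε hε (fun j hj => hε' j (fun h => hj (Finset.mem_insert_of_mem h)))
      · apply hG2
        intro ε hε hε'
        have := hy (Function.update ε i (- ε i)) (by
          intro j
          by_cases hj : j = i
          · subst hj
            rw [Function.update_self]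
            rcases hε j with h | h <;> rw [h] <;> simp
          · rw [Function.update_of_ne hj]; exact hε j) (by
          intro j hj
          rw [Finset.mem_insert, not_or] at hj
          rw [Function.update_of_ne hj.1]; exact hε' j hj.2)
        convert this using 3
        funext j
        by_cases hj : j = i
        · subst hj; simp
        · simp [Function.update_of_ne hj]

end elim

/-- uniform bound -/
theorem root_bound (ι L : Type*) [Fintype ι] [DecidableEq ι] [Field L] (hL : ∀ z : L, IsSquare z) :
    ∃ N : ℕ, ∀ (w : ι → L) (φ : L) (f : ι → Polynomial L) (i₀ : ι) (x : L),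
      (∀ i, (f i).natDegree ≤ 3) → w i₀ ≠ 0 → (f i₀).eval x = 0 →
      (∀ i, i ≠ i₀ → (f i).eval x ≠ 0) →
      ∀ S : Finset L, (∀ s ∈ S, ∃ y : ι → L, (∀ i, y i ^ 2 = (f i).eval s) ∧ (∀ i, y i ≠ 0) ∧
        ∑ i, w i / y i = φ) → S.card ≤ N := by
  classical
  let Q : MvPolynomial ((ι ⊕ ι) ⊕ Unit) L := X (.inr ()) * ∏ i : ι, X (.inl (.inl i)) -
    ∑ i : ι, X (.inl (.inr i)) * ∏ j ∈ Finset.univ.erase i, X (.inl (.inl j))
  have hQ : ∀ v : (ι ⊕ ι) ⊕ Unit → L, eval v Q = v (.inr ()) * ∏ i : ι, v (.inl (.inl i)) -
    ∑ i : ι, v (.inl (.inr i)) * ∏ j ∈ Finset.univ.erase i, v (.inl (.inl j)) := by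
    intro v
    simp only [Q, map_sub, map_mul, map_prod, map_sum, eval_X]
  let T : Finset ((ι ⊕ ι) ⊕ Unit) := Finset.univ.image (fun i : ι => Sum.inl (Sum.inl i))
  have hT1 : ∀ i : ι, (Sum.inl (Sum.inl i) : (ι ⊕ ι) ⊕ Unit) ∈ T := by simp [T]
  have hT2 : ∀ i : ι, (Sum.inl (Sum.inr i) : (ι ⊕ ι) ⊕ Unit) ∉ T := by simp [T]
  have hT3 : (Sum.inr () : (ι ⊕ ι) ⊕ Unit) ∉ T := by simp [T]
  obtain ⟨Ψ, hΨ1, hΨ2⟩ := elim_exists T Q
  refine ⟨Ψ.totalDegree * 3, ?_⟩
  intro w φ f i₀ x hf hw h0 hne S hS
  let g : (ι ⊕ ι) ⊕ Unit → Polynomial L := Sum.elim (Sum.elim f (fun i => Polynomial.C (w i)))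
    (fun _ => Polynomial.C φ)
  let F : Polynomial L := aeval g Ψ
  have hFeval : ∀ s, F.eval s = eval (fun j => (g j).eval s) Ψ := by
    intro s
    show Polynomial.eval s (aeval g Ψ) = _
    rw [← Polynomial.coe_aeval_eq_eval, MvPolynomial.comp_aeval_apply]
    simp [MvPolynomial.coe_aeval_eq_eval]
  have hvec : ∀ (s : L) (y : ι → L), (∀ i, y i ^ 2 = (f i).eval s) →
      (fun j => (g j).eval s) = (fun j => if j ∈ T then
        (Sum.elim (Sum.elim y w) (fun _ => φ) : (ι ⊕ ι) ⊕ Unit → L) j ^ 2 else
        (Sum.elim (Sum.elim y w) (fun _ => φ) : (ι ⊕ ι) ⊕ Unit → L) j) := by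
    intro s y hy
    funext j
    rcases j with (i | i) | u
    · simp [hT1, g, hy]
    · simp [hT2, g]
    · simp [hT3, g]
  have hFx : F.eval x ≠ 0 := by
    have hy : ∀ i, ∃ y : L, y ^ 2 = (f i).eval x := by
      intro i
      obtain ⟨r, hr⟩ := hL ((f i).eval x)
      exact ⟨r, by rw [hr]; ring⟩
    choose y hy using hy
    rw [hFeval, hvec x y hy]
    apply hΨ2
    intro ε hε hε'
    rw [hQ]
    have hy0 : y i₀ = 0 := by
      have := hy i₀
      rw [h0] at this
      exact pow_eq_zero_iff (two_ne_zero) |>.1 this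
    have hyne : ∀ i, i ≠ i₀ → y i ≠ 0 := by
      intro i hi h
      apply hne i hi
      rw [← hy i, h]; simp
    have hεne : ∀ j, ε j ≠ 0 := by
      intro j
      rcases hε j with h | h <;> rw [h] <;> simp
    simp only [Sum.elim_inl, Sum.elim_inr]
    rw [Finset.prod_eq_zero (Finset.mem_univ i₀) (by rw [hy0, mul_zero]), mul_zero, zero_sub,
      neg_ne_zero, Finset.sum_eq_single i₀]
    · apply mul_ne_zero (mul_ne_zero (hεne _) hw)
      rw [Finset.prod_ne_zero_iff]
      intro j hj
      exact mul_ne_zero (hεne _) (hyne j (Finset.ne_of_mem_erase hj))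
    · intro j _ hj
      rw [Finset.prod_eq_zero (Finset.mem_erase.2 ⟨Ne.symm hj, Finset.mem_univ i₀⟩)
        (by rw [hy0, mul_zero]), mul_zero]
    · intro h; exact absurd (Finset.mem_univ _) h
  have hFne : F ≠ 0 := by
    intro h
    rw [h] at hFx
    exact hFx (by simp)
  have hdeg : F.natDegree ≤ Ψ.totalDegree * 3 := by
    apply MvPolynomial.aeval_natDegree_le Ψ le_rfl
    intro j
    rcases j with (i | i) | u
    · exact hf i
    · simp [g]
    · simp [g]
  have hsub : S ⊆ F.roots.toFinset := by
    intro s hs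
    rw [Multiset.mem_toFinset, Polynomial.mem_roots hFne, Polynomial.IsRoot]
    obtain ⟨y, hy, hy0, hsum⟩ := hS s hs
    rw [hFeval, hvec s y hy]
    apply hΨ1
    rw [hQ]
    simp only [Sum.elim_inl, Sum.elim_inr]
    rw [← hsum, Finset.sum_mul, sub_eq_zero]
    apply Finset.sum_congr rfl
    intro i _
    rw [← Finset.mul_prod_erase Finset.univ y (Finset.mem_univ i)]
    have := hy0 i
    field_simp
  calc S.card ≤ F.roots.toFinset.card := Finset.card_le_card hsub
    _ ≤ Multiset.card F.roots := Multiset.toFinset_card_le _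
    _ ≤ F.natDegree := F.card_roots'
    _ ≤ _ := hdeg

end Pool.Agent.H54.Larsen
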