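import Pool.Agent.H54.Larsen.HJ
import Pool.Agent.H54.Larsen.Elim
import Pool.Agent.H54.Larsen.Frob
import Mathlib.Combinatorics.Pigeonhole
import Mathlib.Algebra.Module.Submodule.Union
import Mathlib.FieldTheory.IsAlgClosed.AlgebraicClosure
import Mathlib.FieldTheory.Fixed

/-! Odd characteristic: the image of the logarithmic derivative on invariant points. -/

namespace Pool.Agent.H54.Larsen

open WeierstrassCurve

section
variable {L : Type*} [Field L] {Q : Type*} [Group Q] [MulSemiringAction Q L]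

/-- invariant constants -/
def invConst (Q : Type*) [Group Q] [MulSemiringAction Q L] (D : Derivation ℤ L L) : Subfield L where
  carrier := {z | D z = 0 ∧ ∀ q : Q, q • z = z}
  zero_mem' := ⟨map_zero _, fun q => smul_zero q⟩
  one_mem' := ⟨D.map_one_eq_zero, fun q => smul_one q⟩
  add_mem' := by
    rintro a b ⟨ha, ha'⟩ ⟨hb, hb'⟩
    exact ⟨by rw [map_add, ha, hb, add_zero], fun q => by rw [smul_add, ha', hb']⟩
  mul_mem' := by
    rintro a b ⟨ha, ha'⟩ ⟨hb, hb'⟩
    exact ⟨by rw [Derivation.leibniz, ha, hb]; simp, fun q => by rw [smul_mul', ha', hb']⟩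
  neg_mem' := by
    rintro a ⟨ha, ha'⟩
    exact ⟨by rw [map_neg, ha, neg_zero], fun q => by rw [smul_neg, ha']⟩
  inv_mem' := by
    rintro a ⟨ha, ha'⟩
    exact ⟨by rw [Derivation.leibniz_inv, ha, smul_zero], fun q => by rw [smul_inv'', ha']⟩

lemma exists_lambda [Finite Q] (hfaith : ∀ q : Q, q ≠ 1 → ∃ z : L, q • z ≠ z)
    {D : Derivation ℤ L L} {t : L} (ht : D t = 1)
    (hK0 : {z : L | D z = 0 ∧ ∀ q : Q, q • z = z}.Infinite) :
    ∃ l : L, D l ≠ 0 ∧ ∀ q : Q, q ≠ 1 → q • l ≠ l := by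
  have hinf : Infinite (invConst Q D) := Set.infinite_coe_iff.2 hK0
  let P : Q → Submodule (invConst Q D) L := fun q =>
    { carrier := {z | (q = 1 → D z = 0) ∧ (q ≠ 1 → q • z = z)}
      zero_mem' := ⟨fun _ => map_zero _, fun _ => smul_zero q⟩
      add_mem' := by
        rintro a b ⟨ha, ha'⟩ ⟨hb, hb'⟩
        exact ⟨fun h => by rw [map_add, ha h, hb h, add_zero],
          fun h => by rw [smul_add, ha' h, hb' h]⟩
      smul_mem' := by
        rintro ⟨c, hc⟩ a ⟨ha, ha'⟩
        refine ⟨fun h => ?_, fun h => ?_⟩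
        · show D (c * a) = 0
          rw [Derivation.leibniz, ha h, hc.1]; simp
        · show q • (c * a) = c * a
          rw [smul_mul', ha' h, hc.2] }
  obtain ⟨l, hl⟩ := Submodule.exists_forall_notMem_of_forall_ne_top P (by
    intro q hq
    by_cases h1 : q = 1
    · have : t ∈ P q := by rw [hq]; trivial
      have h2 := this.1 h1
      rw [ht] at h2
      exact one_ne_zero h2
    · obtain ⟨z, hz⟩ := hfaith q h1
      have : z ∈ P q := by rw [hq]; trivial
      exact hz (this.2 h1))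
  refine ⟨l, ?_, ?_⟩
  · intro h
    exact hl 1 ⟨fun _ => h, fun h' => absurd rfl h'⟩
  · intro q hq h
    exact hl q ⟨fun h' => absurd h' hq, fun _ => h⟩

variable [DecidableEq L] {V : Affine L} {D : Derivation ℤ L L}

/-- the action on points -/
noncomputable def act (hVQ : ∀ q : Q, V.map (MulSemiringAction.toRingHom Q L q) = V) (q : Q) :
    V.Point →+ V.Point := mapHom (MulSemiringAction.toRingHom Q L q) (hVQ q)

lemma act_mul (hVQ : ∀ q : Q, V.map (MulSemiringAction.toRingHom Q L q) = V) (q q' : Q)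
    (P : V.Point) : act hVQ q (act hVQ q' P) = act hVQ (q * q') P := by
  rcases P with _ | ⟨x, y, h⟩
  · rfl
  · unfold act
    simp only [mapHom_some, MulSemiringAction.toRingHom_apply, mul_smul]

lemma delta_act (hVc : ConstCoeff D V)
    (hVQ : ∀ q : Q, V.map (MulSemiringAction.toRingHom Q L q) = V)
    (hDQ : ∀ (q : Q) (z : L), D (q • z) = q • D z) (q : Q) (P : V.Point) :
    delta hVc (act hVQ q P) = q • delta hVc P := by
  rcases P with _ | ⟨x, y, h⟩
  · show (0 : L) = q • (0 : L)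
    rw [smul_zero]
  · have ha1 : q • V.a₁ = V.a₁ := congrArg WeierstrassCurve.a₁ (hVQ q)
    have ha2 : q • V.a₂ = V.a₂ := congrArg WeierstrassCurve.a₂ (hVQ q)
    have ha3 : q • V.a₃ = V.a₃ := congrArg WeierstrassCurve.a₃ (hVQ q)
    have ha4 : q • V.a₄ = V.a₄ := congrArg WeierstrassCurve.a₄ (hVQ q)
    have hs := dl_spec hVc h
    have h' : V.Nonsingular (q • x) (q • y) := by
      have := (V.map_nonsingular (MulSemiringAction.toRingHom Q L q).injective x y).mpr h
      rw [hVQ q] at this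
      exact this
    have e : act hVQ q (.some x y h) = .some (q • x) (q • y) h' := rfl
    rw [e, delta_some, delta_some]
    have h2 : q • (2 : L) = 2 := map_ofNat (MulSemiringAction.toRingHom Q L q) 2
    have h3 : q • (3 : L) = 3 := map_ofNat (MulSemiringAction.toRingHom Q L q) 3
    apply dl_unique hVc h'
    · rw [hDQ, hs.1, smul_mul']
      congr 1
      unfold eta
      simp only [smul_add, smul_mul', ha1, ha3, h2]
    · rw [hDQ, hs.2, smul_mul']
      congr 1
      unfold mu
      simp only [smul_add, smul_sub, smul_mul', smul_pow', ha1, ha2, ha4, h2, h3]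

lemma exists_good_c [Fintype Q] {x₀ l : L} (hl : D l ≠ 0) (hl' : ∀ q : Q, q ≠ 1 → q • l ≠ l)
    (e : Fin 3 → L) (C₀ : Finset L) (hC : 3 * Fintype.card Q + 1 < C₀.card)
    (hCc : ∀ c ∈ C₀, D c = 0 ∧ ∀ q : Q, q • c = c) :
    ∃ c ∈ C₀, D (x₀ + c * l) ≠ 0 ∧ ∀ q : Q, q ≠ 1 → ∀ j,
      q • (x₀ + c * l) + (e 0 - (x₀ + c * l)) - e j ≠ 0 := by
  classical
  let bad : Option (Q × Fin 3) → L
    | none => -(D x₀) / D l
    | some (q, j) => -(q • x₀ - x₀ + e 0 - e j) / (q • l - l)
  obtain ⟨c, hc, hcb⟩ := Finset.exists_mem_notMem_of_card_lt_card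
    (s := Finset.univ.image bad) (t := C₀) (by
      refine lt_of_le_of_lt Finset.card_image_le ?_
      rw [Finset.card_univ, Fintype.card_option, Fintype.card_prod, Fintype.card_fin]
      omega)
  refine ⟨c, hc, ?_, ?_⟩
  · intro h
    apply hcb
    rw [Finset.mem_image]
    refine ⟨none, Finset.mem_univ _, ?_⟩
    rw [map_add, Derivation.leibniz, (hCc c hc).1] at h
    simp only [smul_eq_mul, mul_zero, add_zero] at h
    show -(D x₀) / D l = c
    rw [div_eq_iff hl]
    linear_combination -h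
  · intro q hq j h
    apply hcb
    rw [Finset.mem_image]
    refine ⟨some (q, j), Finset.mem_univ _, ?_⟩
    rw [smul_add, smul_mul', (hCc c hc).2 q] at h
    show -(q • x₀ - x₀ + e 0 - e j) / (q • l - l) = c
    rw [div_eq_iff (sub_ne_zero.2 (hl' q hq))]
    linear_combination -h

lemma exists_point (h2 : (2 : L) ≠ 0) [V.IsElliptic] {x r : L}
    (hx : 4 * x ^ 3 + V.b₂ * x ^ 2 + 2 * V.b₄ * x + V.b₆ = r ^ 2) :
    ∃ (y : L) (_ : V.Nonsingular x y), eta V x y = r := by
  refine ⟨(r - V.a₁ * x - V.a₃) / 2, ?_, ?_⟩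
  · rw [← Affine.equation_iff_nonsingular, Affine.equation_iff]
    simp only [WeierstrassCurve.b₂, WeierstrassCurve.b₄, WeierstrassCurve.b₆] at hx
    field_simp
    linear_combination -hx
  · unfold eta
    field_simp
    ring

theorem odd_infinite [Fintype Q] [DecidableEq Q]
    (hfaith : ∀ q : Q, q ≠ 1 → ∃ z : L, q • z ≠ z) (h2 : (2 : L) ≠ 0)
    (hVc : ConstCoeff D V)
    (hVQ : ∀ q : Q, V.map (MulSemiringAction.toRingHom Q L q) = V)
    (hDQ : ∀ (q : Q) (z : L), D (q • z) = q • D z) {t : L} (ht : D t = 1)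
    (hK0 : {z : L | D z = 0 ∧ ∀ q : Q, q • z = z}.Infinite)
    {κ : Type*} [Finite κ] (col : L → κ)
    (hcol : ∀ z z', z ≠ 0 → z' ≠ 0 → col z = col z' → IsSquare (z * z'))
    (e : Fin 3 → L) (hpsi : ∀ x : L, 4 * x ^ 3 + V.b₂ * x ^ 2 + 2 * V.b₄ * x + V.b₆ =
      4 * ∏ i, (x - e i)) [V.IsElliptic] :
    (delta hVc '' {P : V.Point | ∀ q : Q, act hVQ q P = P}).Infinite := by
  classical
  intro hfin
  have hLinf : Infinite L := Set.infinite_univ_iff.1 (hK0.mono (Set.subset_univ _))
  obtain ⟨l, hl, hl'⟩ := exists_lambda hfaith ht hK0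
  obtain ⟨N, hN⟩ := root_bound Q (AlgebraicClosure L) (fun z => by
    obtain ⟨w, hw⟩ := IsAlgClosed.exists_pow_nat_eq z (n := 2) (by norm_num)
    exact ⟨w, by rw [← hw, pow_two]⟩)
  set g := hfin.toFinset.card with hg
  obtain ⟨S₁, hS₁, hS₁c⟩ := hK0.exists_subset_card_eq (g * N + 1)
  obtain ⟨C₀, hC₀, hC₀c⟩ := hK0.exists_subset_card_eq (3 * Fintype.card Q + 2)
  obtain ⟨x₀, hx₀⟩ := exists_translate_squares col hcol
    (((C₀ ×ˢ S₁) ×ˢ (Finset.univ : Finset (Fin 3))).image
      (fun a => a.1.1 * l + a.1.2 - e a.2))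
  obtain ⟨c, hc, hcD, hcr⟩ := exists_good_c (x₀ := x₀) hl hl' e C₀ (by omega)
    (fun c hc => hC₀ hc)
  set u := x₀ + c * l with hu
  have h4 : (4 : L) ≠ 0 := by
    have : (4 : L) = 2 * 2 := by norm_num
    rw [this]; exact mul_ne_zero h2 h2
  -- square roots
  have hr : ∀ s ∈ S₁, ∃ r : L, r ≠ 0 ∧ 4 * ∏ i, (u + s - e i) = r ^ 2 := by
    intro s hs
    have h5 : ∀ i, ∃ ρ : L, ρ ≠ 0 ∧ u + s - e i = ρ ^ 2 := by
      intro i
      obtain ⟨h6, ρ, h7⟩ := hx₀ (c * l + s - e i) (by
        rw [Finset.mem_image]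
        exact ⟨((c, s), i), by simp [hc, hs], rfl⟩)
      have h8 : u + s - e i = ρ ^ 2 := by rw [hu, pow_two, ← h7]; ring
      refine ⟨ρ, ?_, h8⟩
      rintro rfl
      apply h6
      rw [h7]; ring
    choose ρ hρ0 hρ using h5
    refine ⟨2 * ∏ i, ρ i, mul_ne_zero h2 (Finset.prod_ne_zero_iff.2 (fun i _ => hρ0 i)), ?_⟩
    rw [mul_pow, ← Finset.prod_pow]
    congr 1
    · norm_num
    · exact Finset.prod_congr rfl (fun i _ => hρ i)
  -- the points
  have hP : ∀ s ∈ S₁, ∃ (r : L) (P : V.Point), r ≠ 0 ∧ 4 * ∏ i, (u + s - e i) = r ^ 2 ∧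
      (∀ q : Q, act hVQ q P = P) ∧ delta hVc P = ∑ q : Q, (q • D u) / (q • r) := by
    intro s hs
    obtain ⟨r, hr0, hr1⟩ := hr s hs
    obtain ⟨y, hns, heta⟩ := exists_point (V := V) h2 (x := u + s) (by rw [hpsi, hr1])
    refine ⟨r, ∑ q : Q, act hVQ q (.some _ _ hns), hr0, hr1, ?_, ?_⟩
    · intro q'
      rw [map_sum]
      simp_rw [act_mul]
      exact Fintype.sum_equiv (Equiv.mulLeft q') _ _ (fun q => rfl)
    · rw [map_sum]
      apply Finset.sum_congr rfl
      intro q _
      rw [delta_act hVc hVQ hDQ, delta_some]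
      have h5 := (dl_spec hVc hns).1
      rw [heta, map_add, (hS₁ hs).1, add_zero] at h5
      rw [h5, smul_mul', mul_div_cancel_right₀]
      exact (smul_ne_zero_iff_ne q).2 hr0
  choose! r P hr0 hr1 hPinv hPd using hP
  have hmaps : ∀ s ∈ S₁, delta hVc (P s) ∈ hfin.toFinset := by
    intro s hs
    rw [Set.Finite.mem_toFinset]
    exact ⟨P s, hPinv s hs, rfl⟩
  obtain ⟨φ, hφ, hlt⟩ := Finset.exists_lt_card_fiber_of_mul_lt_card_of_maps_to (n := N) hmaps
    (by rw [← hg]; omega)
  -- contradiction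
  let j := algebraMap L (AlgebraicClosure L)
  have hj : Function.Injective j := j.injective
  have hpsiQ : ∀ (q : Q) (s : L), (∀ q : Q, q • s = s) → (4 * ∏ i, (q • u + s - e i)) =
      q • (4 * ∏ i, (u + s - e i)) := by
    intro q s hs
    rw [← hpsi, ← hpsi]
    have ha1 : q • V.a₁ = V.a₁ := congrArg WeierstrassCurve.a₁ (hVQ q)
    have ha2 : q • V.a₂ = V.a₂ := congrArg WeierstrassCurve.a₂ (hVQ q)
    have ha3 : q • V.a₃ = V.a₃ := congrArg WeierstrassCurve.a₃ (hVQ q)
    have ha4 : q • V.a₄ = V.a₄ := congrArg WeierstrassCurve.a₄ (hVQ q)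
    have ha6 : q • V.a₆ = V.a₆ := congrArg WeierstrassCurve.a₆ (hVQ q)
    have h2' : q • (2 : L) = 2 := map_ofNat (MulSemiringAction.toRingHom Q L q) 2
    have h4' : q • (4 : L) = 4 := map_ofNat (MulSemiringAction.toRingHom Q L q) 4
    simp only [WeierstrassCurve.b₂, WeierstrassCurve.b₄, WeierstrassCurve.b₆, smul_add,
      smul_mul', smul_pow', ha1, ha2, ha3, ha4, ha6, h2', h4', hs q]
  have hcard := hN (fun q => j (q • D u)) (j φ)
    (fun q => (Polynomial.C 4 * ∏ i, (Polynomial.C (q • u - e i) + Polynomial.X)).map j) 1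
    (j (e 0 - u)) (by
      intro q
      refine Polynomial.natDegree_map_le.trans ?_
      refine (Polynomial.natDegree_C_mul_le _ _).trans ?_
      refine (Polynomial.natDegree_prod_le _ _).trans ?_
      refine (Finset.sum_le_card_nsmul _ _ 1 (fun i _ => ?_)).trans (by simp)
      compute_degree) (by
      intro h
      apply hcD
      rw [one_smul] at h
      exact (map_eq_zero_iff j hj).1 h) (by
      show Polynomial.eval _ (Polynomial.map _ _) = 0
      rw [Polynomial.eval_map, Polynomial.eval₂_hom, Polynomial.eval_mul, Polynomial.eval_prod,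
        Finset.prod_eq_zero (Finset.mem_univ (0 : Fin 3)), mul_zero, map_zero]
      simp) (by
      intro q hq
      show Polynomial.eval _ (Polynomial.map _ _) ≠ 0
      rw [Polynomial.eval_map, Polynomial.eval₂_hom, Polynomial.eval_mul, Polynomial.eval_prod]
      intro h
      have h6 := (map_eq_zero_iff j hj).1 h
      rcases mul_eq_zero.1 h6 with h7 | h7
      · simp at h7; exact h4 h7
      · rw [Finset.prod_eq_zero_iff] at h7
        obtain ⟨i, _, h8⟩ := h7
        apply hcr q hq i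
        simp only [Polynomial.eval_add, Polynomial.eval_C, Polynomial.eval_X] at h8
        linear_combination h8)
    ((S₁.filter (fun s => delta hVc (P s) = φ)).image j) (by
      intro s' hs'
      rw [Finset.mem_image] at hs'
      obtain ⟨s, hs, rfl⟩ := hs'
      rw [Finset.mem_filter] at hs
      refine ⟨fun q => j (q • r s), ?_, ?_, ?_⟩
      · intro q
        show j _ ^ 2 = Polynomial.eval _ (Polynomial.map _ _)
        rw [Polynomial.eval_map, Polynomial.eval₂_hom, ← map_pow]
        congr 1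
        rw [← smul_pow', ← hr1 s hs.1, ← hpsiQ q s (hS₁ hs.1).2]
        simp only [Polynomial.eval_mul, Polynomial.eval_prod, Polynomial.eval_add,
          Polynomial.eval_C, Polynomial.eval_X]
        congr 1
        apply Finset.prod_congr rfl
        intro i _
        ring
      · intro q h
        exact ((smul_ne_zero_iff_ne q).2 (hr0 s hs.1)) ((map_eq_zero_iff j hj).1 h)
      · rw [← hs.2, hPd s hs.1, map_sum]
        apply Finset.sum_congr rfl
        intro q _
        rw [map_div₀])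
  rw [Finset.card_image_of_injective _ hj] at hcard
  omega

end

end Pool.Agent.H54.Larsen
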