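import Pool.Agent.H54.Larsen.Assembly
import Pool.Agent.H54.Larsen.Odd
import Mathlib.Algebra.CubicDiscriminant

/-! Assembly, part two: odd characteristic. -/

namespace Pool.Agent.H54.Larsen

open WeierstrassCurve

section roots
variable {Ω : Type*} [Field Ω]

lemma cubic_separable (P : Cubic Ω) (hd : P.discr ≠ 0) : P.toPoly.Separable := by
  rw [Polynomial.separable_def']
  set a := P.a
  set b := P.b
  set c := P.c
  set d := P.d
  refine ⟨Polynomial.C (P.discr)⁻¹ * (Polynomial.C (3 * a * (6 * a * c - 2 * b ^ 2)) * Polynomial.X +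
    Polynomial.C (2 * b * (6 * a * c - 2 * b ^ 2) - 3 * a * (9 * a * d - b * c))),
    - (Polynomial.C (P.discr)⁻¹ * (Polynomial.C (a * (6 * a * c - 2 * b ^ 2)) * Polynomial.X ^ 2 +
      Polynomial.C (b * (6 * a * c - 2 * b ^ 2) - a * (9 * a * d - b * c)) * Polynomial.X +
      Polynomial.C (4 * a * c ^ 2 - b ^ 2 * c - 3 * a * b * d))), ?_⟩
  have h1 : Polynomial.C (P.discr)⁻¹ * Polynomial.C P.discr = 1 := by
    rw [← Polynomial.C_mul, inv_mul_cancel₀ hd, Polynomial.C_1]
  have h2 : Polynomial.C P.discr = Polynomial.C b ^ 2 * Polynomial.C c ^ 2 - 4 * Polynomial.C a *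
      Polynomial.C c ^ 3 - 4 * Polynomial.C b ^ 3 * Polynomial.C d - 27 * Polynomial.C a ^ 2 *
      Polynomial.C d ^ 2 + 18 * Polynomial.C a * Polynomial.C b * Polynomial.C c *
      Polynomial.C d := by
    simp only [Cubic.discr, Polynomial.C_add, Polynomial.C_sub, Polynomial.C_mul,
      Polynomial.C_pow, Polynomial.C_ofNat]
    rfl
  have h3 : P.toPoly = Polynomial.C a * Polynomial.X ^ 3 + Polynomial.C b * Polynomial.X ^ 2 +
    Polynomial.C c * Polynomial.X + Polynomial.C d := rfl
  rw [h3]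
  simp only [Polynomial.derivative_add, Polynomial.derivative_C_mul, Polynomial.derivative_X_pow,
    Polynomial.derivative_X, Polynomial.derivative_C, Polynomial.C_sub,
    Polynomial.C_mul, Polynomial.C_pow, map_ofNat, Nat.cast_ofNat]
  rw [h2] at h1
  linear_combination h1

lemma two_torsion_roots [IsSepClosed Ω] (h2 : (2 : Ω) ≠ 0) (W : WeierstrassCurve Ω)
    [W.IsElliptic] : ∃ x y z : Ω, W.b₂ = 4 * -(x + y + z) ∧ 2 * W.b₄ = 4 * (x * y + x * z + y * z) ∧
      W.b₆ = 4 * -(x * y * z) := by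
  have h4 : (4 : Ω) ≠ 0 := by
    have : (4 : Ω) = 2 * 2 := by norm_num
    rw [this]; exact mul_ne_zero h2 h2
  have hd : W.twoTorsionPolynomial.discr ≠ 0 := by
    rw [twoTorsionPolynomial_discr]
    have h16 : (16 : Ω) ≠ 0 := by
      have : (16 : Ω) = 4 * 4 := by norm_num
      rw [this]; exact mul_ne_zero h4 h4
    exact mul_ne_zero h16 ((WeierstrassCurve.isElliptic_iff W).1 inferInstance).ne_zero
  have hs := IsSepClosed.splits_of_separable _ (cubic_separable _ hd)
  have ha : W.twoTorsionPolynomial.a ≠ 0 := h4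
  have hs' : (W.twoTorsionPolynomial.toPoly.map (RingHom.id Ω)).Splits := by
    rwa [Polynomial.map_id]
  obtain ⟨x, y, z, h3⟩ := (Cubic.splits_iff_roots_eq_three ha).1 hs'
  exact ⟨x, y, z, Cubic.b_eq_three_roots ha h3, Cubic.c_eq_three_roots ha h3,
    Cubic.d_eq_three_roots ha h3⟩

lemma frob_roots (p : ℕ) [hp : Fact p.Prime] [CharP Ω p] {W V : WeierstrassCurve Ω}
    (hV : W.map (frobenius Ω p) = V) {x y z : Ω} (h1 : W.b₂ = 4 * -(x + y + z))
    (h2 : 2 * W.b₄ = 4 * (x * y + x * z + y * z)) (h3 : W.b₆ = 4 * -(x * y * z)) (X : Ω) :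
    4 * X ^ 3 + V.b₂ * X ^ 2 + 2 * V.b₄ * X + V.b₆ =
      4 * ((X - x ^ p) * (X - y ^ p) * (X - z ^ p)) := by
  subst hV
  have e1 := congrArg (frobenius Ω p) h1
  have e2 := congrArg (frobenius Ω p) h2
  have e3 := congrArg (frobenius Ω p) h3
  simp only [map_mul, map_neg, map_add, map_ofNat] at e1 e2 e3
  rw [map_b₂, map_b₄, map_b₆]
  simp only [← frobenius_def]
  linear_combination X ^ 2 * e1 + X * e2 + e3

end roots

lemma map_map' {A B C : Type*} [Field A] [Field B] [Field C] (W : WeierstrassCurve A)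
    (f : A →+* B) (g : B →+* C) (h : A →+* C) (hgf : ∀ x, g (f x) = h x) :
    (W.map f).map g = W.map h := by
  rw [WeierstrassCurve.map_map]
  congr 1
  ext x
  exact hgf x

section nat
variable {K L : Type*} [Field K] [Field L] [DecidableEq K] [DecidableEq L]

lemma delta_map {V : Affine K} {V' : Affine L} {D : Derivation ℤ K K} {D' : Derivation ℤ L L}
    (f : K →+* L) (hV : V.map f = V') (hc : ConstCoeff D V) (hc' : ConstCoeff D' V')
    (hD : ∀ z, D' (f z) = f (D z)) (P : V.Point) :
    delta hc' (mapHom f hV P) = f (delta hc P) := by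
  subst hV
  rcases P with _ | ⟨x, y, h⟩
  · show (0 : L) = f 0
    rw [map_zero]
  · have hs := dl_spec hc h
    rw [mapHom_some, delta_some, delta_some]
    apply dl_unique hc'
    · exact (V.map_nonsingular f.injective x y).mpr h
    · rw [hD, hs.1, map_mul]
      congr 1
      simp only [eta, map_add, map_mul, map_ofNat, WeierstrassCurve.map]
    · rw [hD, hs.2, map_mul]
      congr 1
      simp only [mu, map_add, map_sub, map_mul, map_pow, map_ofNat, WeierstrassCurve.map]

lemma torsion_finite_pull {V : Affine K} {V' : Affine L} (f : K →+* L) (hV : V.map f = V') (n : ℕ)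
    (hfin : {P : V'.Point | n • P = 0}.Finite) : {P : V.Point | n • P = 0}.Finite := by
  have h1 := hfin.preimage ((mapHom_injective f hV).injOn (s := mapHom f hV ⁻¹' {P | n • P = 0}))
  refine h1.subset ?_
  intro P hP
  show n • mapHom f hV P = 0
  rw [← map_nsmul, show n • P = 0 from hP, map_zero]

end nat

section odd
variable {K Ω : Type*} [Field K] [Field Ω] {G : Type*} [Group G] [MulSemiringAction G Ω]

/-- fixed points of a normal subgroup are stable -/
lemma invariant_fixed (N : Subgroup G) [hN : N.Normal] :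
    IsInvariantSubfield G (FixedPoints.subfield N Ω) where
  smul_mem := by
    intro g x hx n
    have h1 : (g⁻¹ * (n : G) * g) ∈ N := by
      have := hN.conj_mem n.1 n.2 g⁻¹
      simpa using this
    have h2 : (g⁻¹ * (n : G) * g) • x = x := hx ⟨_, h1⟩
    show (n : G) • g • x = g • x
    rw [← mul_smul]
    have h3 : (n : G) * g = g * (g⁻¹ * (n : G) * g) := by group
    rw [h3, mul_smul, h2]

lemma square_classes [IsSepClosed Ω] (h2 : (2 : Ω) ≠ 0) (N : Subgroup G) [hG : Group.FG N] :
    ∃ (S : Set N) (_ : S.Finite) (col : FixedPoints.subfield N Ω → (S → Prop)),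
      ∀ z z', z ≠ 0 → z' ≠ 0 → col z = col z' → IsSquare (z * z') := by
  obtain ⟨S, hS, hSfin⟩ := Group.fg_iff.1 hG
  have : NeZero (2 : Ω) := ⟨h2⟩
  have hr : ∀ z : FixedPoints.subfield N Ω, ∃ r : Ω, (z : Ω) = r * r := fun z =>
    IsSepClosed.exists_eq_mul_self (z : Ω)
  choose r hr using hr
  have hg : ∀ (n : N) (z : FixedPoints.subfield N Ω), n • r z = r z ∨ n • r z = - r z := by
    intro n z
    have h1 : (n • r z) * (n • r z) = r z * r z := by
      rw [← smul_mul', ← hr]
      exact z.2 n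
    exact mul_self_eq_mul_self_iff.1 h1
  refine ⟨S, hSfin, fun z n => (n : N) • r z = r z, ?_⟩
  intro z z' _ _ h
  have hfix : ∀ n : N, n • (r z * r z') = r z * r z' := by
    apply fixed_of_closure hS
    intro n hn
    have h1 : (n • r z = r z) ↔ (n • r z' = r z') := iff_of_eq (congrFun h ⟨n, hn⟩)
    rw [smul_mul']
    rcases hg n z with h2 | h2 <;> rcases hg n z' with h3 | h3
    · rw [h2, h3]
    · rw [h2, h1.1 h2]
    · rw [h3, h1.2 h3]
    · rw [h2, h3]; ring
  refine ⟨⟨r z * r z', hfix⟩, ?_⟩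
  apply Subtype.ext
  show (z : Ω) * (z' : Ω) = (r z * r z') * (r z * r z')
  rw [hr z, hr z']
  ring

theorem rank_odd [DecidableEq K] (p : ℕ) [hp : Fact p.Prime] [CharP K p] [CharP Ω p] (hp2 : p ≠ 2)
    [IsSepClosed Ω] [Group.FG G]
    (ι : K →+* Ω) (hι : ∀ z : Ω, (∀ g : G, g • z = z) → z ∈ ι.range)
    (hι' : ∀ (g : G) (z : K), g • ι z = ι z) (D : Derivation ℤ Ω Ω)
    (hD : ∀ (g : G) (z : Ω), D (g • z) = g • D z) (t : K) (ht : D (ι t) = 1)
    (W : Affine K) [W.IsElliptic] : Cardinal.aleph0 ≤ Module.rank ℤ W.Point := by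
  classical
  have h2 : (2 : Ω) ≠ 0 := by
    intro h
    have h3 : ((2 : ℕ) : Ω) = 0 := by exact_mod_cast h
    rw [CharP.cast_eq_zero_iff Ω p] at h3
    exact hp2 ((Nat.prime_dvd_prime_iff_eq hp.out Nat.prime_two).1 h3)
  obtain ⟨D', hD'⟩ := pull_derivation ι D (fun z => hι _ (fun g => by rw [← hD, hι']))
  have ht' : D' t = 1 := ι.injective (by rw [hD', ht, map_one])
  have hKinf : Infinite K := infinite_of_derivation p D' ht'
  -- the roots
  let WΩ : WeierstrassCurve Ω := W.map ι
  have hWΩ : WΩ.IsElliptic := inferInstanceAs (W.map ι).IsElliptic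
  obtain ⟨x₀, y₀, z₀, hb2, hb4, hb6⟩ := two_torsion_roots h2 WΩ
  let ε : Fin 3 → Ω := ![x₀, y₀, z₀]
  have hperm : ∀ g : G, ∃ τ : Fin 3 → Fin 3, g • ε = ε ∘ τ := by
    intro g
    have h4 : (4 : Ω) ≠ 0 := by
      have : (4 : Ω) = 2 * 2 := by norm_num
      rw [this]; exact mul_ne_zero h2 h2
    have hroot : ∀ i, ∃ j, g • ε i = ε j := by
      intro i
      have e0 : 4 * (ε i) ^ 3 + WΩ.b₂ * (ε i) ^ 2 + 2 * WΩ.b₄ * (ε i) + WΩ.b₆ = 0 := by
        rw [hb2, hb4, hb6]
        fin_cases i <;> simp [ε] <;> ring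
      have e1 : 4 * (g • ε i) ^ 3 + WΩ.b₂ * (g • ε i) ^ 2 + 2 * WΩ.b₄ * (g • ε i) + WΩ.b₆ = 0 := by
        have h5 := congrArg (fun v => g • v) e0
        have ga : ∀ a : K, g • ι a = ι a := hι' g
        have g4 : g • (4 : Ω) = 4 := map_ofNat (MulSemiringAction.toRingHom G Ω g) 4
        have g2 : g • (2 : Ω) = 2 := map_ofNat (MulSemiringAction.toRingHom G Ω g) 2
        have gb2 : g • WΩ.b₂ = WΩ.b₂ := by
          show g • (W.map ι).b₂ = (W.map ι).b₂
          rw [map_b₂, ga]
        have gb4 : g • WΩ.b₄ = WΩ.b₄ := by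
          show g • (W.map ι).b₄ = (W.map ι).b₄
          rw [map_b₄, ga]
        have gb6 : g • WΩ.b₆ = WΩ.b₆ := by
          show g • (W.map ι).b₆ = (W.map ι).b₆
          rw [map_b₆, ga]
        simp only [smul_add, smul_mul', smul_pow', smul_zero, g4, g2, gb2, gb4, gb6] at h5
        exact h5
      have e2 : 4 * ((g • ε i - x₀) * ((g • ε i - y₀) * (g • ε i - z₀))) = 0 := by
        rw [hb2, hb4, hb6] at e1
        linear_combination e1
      rcases mul_eq_zero.1 e2 with h5 | h5
      · exact absurd h5 h4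
      · rcases mul_eq_zero.1 h5 with h6 | h6
        · exact ⟨0, sub_eq_zero.1 h6⟩
        · rcases mul_eq_zero.1 h6 with h7 | h7
          · exact ⟨1, sub_eq_zero.1 h7⟩
          · exact ⟨2, sub_eq_zero.1 h7⟩
    choose τ hτ using hroot
    exact ⟨τ, funext hτ⟩
  -- the subgroup
  let N₀ : Subgroup G := MulAction.stabilizer G ε
  have hN₀ : N₀.FiniteIndex := by
    have h1 : (MulAction.orbit G ε).Finite := by
      apply Set.Finite.subset (Set.finite_range (fun τ : Fin 3 → Fin 3 => ε ∘ τ))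
      rintro _ ⟨g, rfl⟩
      obtain ⟨τ, hτ⟩ := hperm g
      exact ⟨τ, hτ.symm⟩
    have : Finite (MulAction.orbit G ε) := h1
    have : Finite (G ⧸ N₀) := Finite.of_equiv _ (MulAction.orbitEquivQuotientStabilizer G ε)
    exact Subgroup.finiteIndex_of_finite_quotient
  let N : Subgroup G := N₀.normalCore
  have hNn : N.Normal := N₀.normalCore_normal
  have hNf : N.FiniteIndex := inferInstanceAs N₀.normalCore.FiniteIndex
  have hNε : ∀ (n : N) (i : Fin 3), n • ε i = ε i := by
    intro n i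
    have h1 : (n : G) ∈ N₀ := N₀.normalCore_le n.2
    exact congrFun h1 i
  have hNFG : Group.FG N := inferInstance
  let L : Subfield Ω := FixedPoints.subfield N Ω
  have hLinv : IsInvariantSubfield G L := invariant_fixed N
  let _ : MulSemiringAction G L := IsInvariantSubfield.toMulSemiringAction G L
  let ρ : G →* RingAut L := MulSemiringAction.toRingAut G L
  have hker : N ≤ ρ.ker := by
    intro n hn
    rw [MonoidHom.mem_ker]
    ext z
    exact z.2 ⟨n, hn⟩
  have : ρ.ker.FiniteIndex := Subgroup.finiteIndex_of_le hker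
  have hQfin : Finite ρ.range := Finite.of_equiv _ (QuotientGroup.quotientKerEquivRange ρ).toEquiv
  have : Fintype ρ.range := Fintype.ofFinite _
  -- restriction to L
  have hιL : ∀ z : K, ι z ∈ L := fun z n => hι' (n : G) z
  let ιL : K →+* L := ι.codRestrict L hιL
  obtain ⟨DL, hDL⟩ := pull_derivation L.subtype D (by
    intro z
    refine ⟨⟨D z, ?_⟩, rfl⟩
    intro n
    show (n : G) • D (z : Ω) = D (z : Ω)
    rw [← hD]
    congr 1
    exact z.2 n)
  have hDLι : ∀ z, DL (ιL z) = ιL (D' z) := by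
    intro z
    apply Subtype.ext
    exact (hDL (ιL z)).trans (hD' z).symm
  have htL : DL (ιL t) = 1 := by rw [hDLι, ht', map_one]
  have hCL : CharP L p := charP_of_injective_ringHom ιL.injective p
  have h2L : (2 : L) ≠ 0 := by
    intro h
    apply h2
    have h5 : L.subtype 2 = L.subtype 0 := congrArg L.subtype h
    rw [map_ofNat, map_zero] at h5
    exact h5
  let WL : WeierstrassCurve L := W.map ιL
  let VK : Affine K := W.map (frobenius K p)
  let VL : Affine L := VK.map ιL
  have hVKe : VK.IsElliptic := inferInstanceAs (W.map (frobenius K p)).IsElliptic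
  have hVLe : VL.IsElliptic := inferInstanceAs (VK.map ιL).IsElliptic
  have hVLfrob : WL.map (frobenius L p) = VL := by
    exact (map_map' W ιL (frobenius L p) ((frobenius L p).comp ιL) (fun _ => rfl)).trans
      (map_map' W (frobenius K p) ιL ((frobenius L p).comp ιL) (fun x => by
        rw [RingHom.comp_apply, frobenius_def, frobenius_def, map_pow])).symm
  have hVc : ConstCoeff DL VL := constCoeff_frob p DL hVLfrob
  have hVKc : ConstCoeff D' VK := constCoeff_frob p D' rfl
  have hVQ : ∀ q : ρ.range, VL.map (MulSemiringAction.toRingHom ρ.range L q) = VL := by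
    rintro ⟨_, g, rfl⟩
    exact map_map' VK ιL _ ιL (fun a => Subtype.ext (hι' g a))
  have hfaith : ∀ q : ρ.range, q ≠ 1 → ∃ z : L, q • z ≠ z := by
    intro q hq
    by_contra hcon
    push Not at hcon
    apply hq
    apply Subtype.ext
    ext z
    exact congrArg Subtype.val (hcon z)
  have hDQ : ∀ (q : ρ.range) (z : L), DL (q • z) = q • DL z := by
    rintro ⟨_, g, rfl⟩ z
    apply Subtype.ext
    show L.subtype (DL _) = g • L.subtype (DL z)
    rw [hDL, hDL, ← hD]
    rfl
  have hK0 : {z : L | DL z = 0 ∧ ∀ q : ρ.range, q • z = z}.Infinite := by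
    have h1 : (Set.range (fun a : K => ιL (frobenius K p a))).Infinite :=
      Set.infinite_range_of_injective (ιL.injective.comp (frobenius K p).injective)
    refine h1.mono ?_
    rintro _ ⟨a, rfl⟩
    refine ⟨?_, ?_⟩
    · show DL (ιL _) = 0
      rw [hDLι, frobenius_def, D_pow_p p D', map_zero]
    · rintro ⟨_, g, rfl⟩
      apply Subtype.ext
      exact hι' g _
  obtain ⟨S, hSfin, col, hcol⟩ := square_classes h2 N
  have : Finite S := hSfin
  have hWLΩ : WL.map L.subtype = WΩ := by
    exact map_map' W ιL L.subtype ι (fun _ => rfl)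
  let xL : L := ⟨x₀, fun n => hNε n 0⟩
  let yL : L := ⟨y₀, fun n => hNε n 1⟩
  let zL : L := ⟨z₀, fun n => hNε n 2⟩
  have hb2L : WL.b₂ = 4 * -(xL + yL + zL) := by
    apply L.subtype.injective
    rw [← map_b₂, hWLΩ, hb2]
    rfl
  have hb4L : 2 * WL.b₄ = 4 * (xL * yL + xL * zL + yL * zL) := by
    apply L.subtype.injective
    rw [map_mul, ← map_b₄, hWLΩ, map_ofNat, hb4]
    rfl
  have hb6L : WL.b₆ = 4 * -(xL * yL * zL) := by
    apply L.subtype.injective
    rw [← map_b₆, hWLΩ, hb6]
    rfl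
  have hpsi : ∀ x : L, 4 * x ^ 3 + VL.b₂ * x ^ 2 + 2 * VL.b₄ * x + VL.b₆ =
      4 * ∏ i, (x - (![xL ^ p, yL ^ p, zL ^ p] : Fin 3 → L) i) := by
    intro x
    rw [frob_roots p hVLfrob hb2L hb4L hb6L, Fin.prod_univ_three]
    rfl
  have hinf := odd_infinite hfaith h2L hVc hVQ hDQ htL hK0 col hcol
    (![xL ^ p, yL ^ p, zL ^ p] : Fin 3 → L) hpsi
  have hsub : (delta hVc '' {P : VL.Point | ∀ q : ρ.range, act hVQ q P = P}) ⊆
      ιL '' (Set.range (delta hVKc)) := by
    rintro _ ⟨P, hP, rfl⟩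
    rcases P with _ | ⟨x, y, h⟩
    · exact ⟨0, ⟨0, rfl⟩, map_zero _⟩
    · have hxy : ∀ g : G, g • (x : Ω) = x ∧ g • (y : Ω) = y := by
        intro g
        have h1 := hP ⟨ρ g, g, rfl⟩
        unfold act at h1
        rw [mapHom_some] at h1
        simp only [Affine.Point.some.injEq] at h1
        exact ⟨congrArg Subtype.val h1.1, congrArg Subtype.val h1.2⟩
      obtain ⟨xK, hxK⟩ := hι x (fun g => (hxy g).1)
      obtain ⟨yK, hyK⟩ := hι y (fun g => (hxy g).2)
      obtain rfl : ιL xK = x := Subtype.ext hxK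
      obtain rfl : ιL yK = y := Subtype.ext hyK
      have hns : VK.Nonsingular xK yK := (VK.map_nonsingular ιL.injective xK yK).1 h
      refine ⟨delta hVKc (.some xK yK hns), ⟨_, rfl⟩, ?_⟩
      rw [← delta_map ιL rfl hVKc hVc hDLι, mapHom_some]
  have hKδ : (Set.range (delta hVKc)).Infinite := by
    intro hfin
    exact hinf ((hfin.image ιL).subset hsub)
  have hfinL : {P : VL.Point | p • P = 0}.Finite := by
    obtain ⟨y, h, heta⟩ := exists_point (V := VL) h2L (x := xL ^ p) (r := 0) (by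
      rw [hpsi, Fin.prod_univ_three]
      simp)
    have hT2 : 2 • Affine.Point.some (xL ^ p) y h = 0 := by
      rw [two_smul]
      apply Affine.Point.add_of_Y_eq rfl
      rw [Affine.negY]
      unfold eta at heta
      linear_combination heta
    exact torsion_finite VL (two_torsion_finite VL h2L) (Affine.Point.some_ne_zero h) hT2 hp.out hp2
  exact rank_of_delta p (V := VK) rfl D' hKδ (torsion_finite_pull ιL rfl p hfinL)

end odd

end Pool.Agent.H54.Larsen
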