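import Pool.Agent.H54.Larsen.Places3

/-! The choice of a parity-adapted element from a good place. -/

namespace Pool.Agent.H54.Larsen

open WithZero

lemma exists_pow_gt {a : ℤᵐ⁰} (ha : 1 < a) (B : ℤᵐ⁰) : ∃ N₀ : ℕ, ∀ N ≥ N₀, B < a ^ N := by
  obtain ⟨n, hn⟩ := MulArchimedean.arch B ha
  exact ⟨n + 1, fun N hN => lt_of_le_of_lt hn (pow_lt_pow_right₀ ha (by omega))⟩

section
variable {M : Type*} [Field M] {Q : Type*} [Group Q] [Fintype Q] [MulSemiringAction Q M]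

lemma smul_prod_orbit (z : M) (q : Q) : q • ∏ q' : Q, q' • z = ∏ q' : Q, q' • z := by
  rw [Finset.smul_prod']
  simp_rw [← mul_smul]
  exact Fintype.prod_equiv (Equiv.mulLeft q) _ _ (fun q' => rfl)

lemma w_prod_orbit (w : Valuation M ℤᵐ⁰) (z : M) (h : ∀ q : Q, q ≠ 1 → w (q • z) = 1) :
    w (∏ q' : Q, q' • z) = w z := by
  rw [map_prod, Finset.prod_eq_single (1 : Q) (fun q _ hq => h q hq) (by simp), one_smul]

theorem exists_c0 {R : Set M} {w v : Valuation M ℤᵐ⁰} {z ϖ : M} (h : GoodPlace Q R w z ϖ)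
    (h2 : (2 : M) ∈ R) (h20 : (2 : M) ≠ 0) (hv : v = w ∨ v 2 < 1) (B : ℤᵐ⁰) :
    ∃ c : M, (∃ k : ℤ, w c = exp (2 * k + 1)) ∧
      (∀ q : Q, q ≠ 1 → ∃ k : ℤ, w (q • c) = exp (2 * k)) ∧
      (∀ q : Q, B < w (q • c)) ∧ B < v c := by
  classical
  -- first step
  have hwz0 : w z ≠ 0 := (Valuation.ne_zero_iff _).2 h.ne_zero
  set π₀ : M := ∏ q' : Q, q' • z with hπ₀
  have hπ₀w : w π₀ = w z := w_prod_orbit w z h.conj
  have hπ₀0 : π₀ ≠ 0 := (Valuation.ne_zero_iff w).1 (by rw [hπ₀w]; exact hwz0)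
  set z₂ : M := z ^ 2 / π₀ with hz₂
  have hz₂w : w z₂ = w z := by
    rw [hz₂, map_div₀, map_pow, hπ₀w, pow_two, mul_div_assoc, div_self hwz0, mul_one]
  have hz₂q : ∀ q : Q, q ≠ 1 → 1 < w (q • z₂) := by
    intro q hq
    have e1 : q • z₂ = (q • z) ^ 2 / π₀ := by
      rw [hz₂, div_eq_mul_inv, smul_mul', smul_pow', smul_inv'', hπ₀, smul_prod_orbit,
        ← div_eq_mul_inv]
    rw [e1, map_div₀, map_pow, hπ₀w, h.conj q hq, one_pow, one_div]
    exact (one_lt_inv₀ (zero_lt_iff.2 hwz0)).2 h.lt_one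
  -- second step
  have hN : ∃ N₀ : ℕ, ∀ N ≥ N₀, ∀ q : Q, q ≠ 1 → max 1 (w (q • ϖ)) < w (q • z₂) ^ N := by
    have h1 : ∀ q : Q, ∃ N₀ : ℕ, ∀ N ≥ N₀, q ≠ 1 → max 1 (w (q • ϖ)) < w (q • z₂) ^ N := by
      intro q
      by_cases hq : q = 1
      · exact ⟨0, fun N _ h' => absurd hq h'⟩
      · obtain ⟨N₀, hN₀⟩ := exists_pow_gt (hz₂q q hq) (max 1 (w (q • ϖ)))
        exact ⟨N₀, fun N hN _ => hN₀ N hN⟩
    choose N₀ hN₀ using h1
    refine ⟨∑ q, N₀ q, fun N hN q hq => hN₀ q N ?_ hq⟩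
    exact (Finset.single_le_sum (fun _ _ => Nat.zero_le _) (Finset.mem_univ q)).trans hN
  obtain ⟨N₀, hN₀⟩ := hN
  have hwz1 : w z ≤ exp (-1) := by
    have h1 : w z < exp 0 := by rw [exp_zero]; exact h.lt_one
    have h3 : w z = exp (log (w z)) := (exp_log hwz0).symm
    rw [h3, exp_lt_exp] at h1
    rw [h3, exp_le_exp]
    omega
  have hz₂N : w z₂ ^ (N₀ + 2) < exp (-1) := by
    rw [hz₂w]
    have h1 : w z ^ (N₀ + 2) ≤ w z ^ 2 := pow_le_pow_right_of_le_one' h.lt_one.le (by omega)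
    have h3 : w z ^ 2 ≤ exp (-1) ^ 2 := pow_le_pow_left₀ zero_le hwz1 2
    refine lt_of_le_of_lt (h1.trans h3) ?_
    rw [← exp_nsmul, exp_lt_exp]
    norm_num
  set N := N₀ + 2 with hNdef
  set z' : M := (ϖ + z₂ ^ N) / (1 + z₂ ^ N) with hz'
  have hz'w : w z' = exp (-1) := by
    have e1 : w (ϖ + z₂ ^ N) = exp (-1) := by
      rw [Valuation.map_add_eq_of_lt_left _ (by rw [map_pow, h.unif]; exact hz₂N), h.unif]
    have e2 : w (1 + z₂ ^ N) = 1 := by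
      rw [Valuation.map_add_eq_of_lt_left _ (by
        rw [map_pow, map_one]
        refine hz₂N.trans ?_
        rw [← exp_zero, exp_lt_exp]; norm_num), map_one]
    rw [hz', map_div₀, e1, e2, div_one]
  have hz'q : ∀ q : Q, q ≠ 1 → w (q • z') = 1 := by
    intro q hq
    have h1 := hN₀ N (by omega) q hq
    rw [max_lt_iff] at h1
    have e0 : q • z' = (q • ϖ + (q • z₂) ^ N) / (1 + (q • z₂) ^ N) := by
      rw [hz', div_eq_mul_inv, smul_mul', smul_inv'', smul_add, smul_add, smul_pow', smul_one,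
        ← div_eq_mul_inv]
    have e1 : w (q • ϖ + (q • z₂) ^ N) = w (q • z₂) ^ N := by
      rw [Valuation.map_add_eq_of_lt_right _ (by rw [map_pow]; exact h1.2), map_pow]
    have e2 : w (1 + (q • z₂) ^ N) = w (q • z₂) ^ N := by
      rw [Valuation.map_add_eq_of_lt_right _ (by rw [map_pow, map_one]; exact h1.1), map_pow]
    rw [e0, map_div₀, e1, e2, div_self]
    exact (zero_lt_one.trans h1.1).ne'
  -- third step
  set π : M := ∏ q' : Q, q' • z' with hπ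
  have hπw : w π = exp (-1) := by rw [hπ, w_prod_orbit w z' hz'q, hz'w]
  have hπ0 : π ≠ 0 := (Valuation.ne_zero_iff w).1 (by rw [hπw]; exact exp_ne_zero)
  have hz'0 : z' ≠ 0 := (Valuation.ne_zero_iff w).1 (by rw [hz'w]; exact exp_ne_zero)
  have hw2 : w (2 : M) = 1 := h.unit 2 h2
  have key : ∀ (n m : ℕ), w (z' * (π⁻¹) ^ (2 * n) * (2⁻¹) ^ m) = exp (2 * ((n : ℤ) - 1) + 1) ∧
      ∀ q : Q, q ≠ 1 → w (q • (z' * (π⁻¹) ^ (2 * n) * (2⁻¹) ^ m)) = exp (2 * (n : ℤ)) := by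
    intro n m
    have e1 : w (π⁻¹) ^ (2 * n) = exp (2 * (n : ℤ)) := by
      rw [map_inv₀, hπw, ← exp_neg, ← exp_nsmul]
      congr 1
      simp
    have e2 : w ((2 : M)⁻¹) ^ m = 1 := by rw [map_inv₀, hw2, inv_one, one_pow]
    constructor
    · rw [map_mul, map_mul, map_pow, map_pow, e1, e2, mul_one, hz'w, ← exp_add]
      congr 1
      ring
    · intro q hq
      have e3 : q • (z' * (π⁻¹) ^ (2 * n) * (2⁻¹) ^ m) =
          (q • z') * (π⁻¹) ^ (2 * n) * (2⁻¹) ^ m := by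
        rw [smul_mul', smul_mul', smul_pow', smul_pow', smul_inv'', smul_inv'',
          hπ, smul_prod_orbit, show q • (2 : M) = 2 from
            map_ofNat (MulSemiringAction.toRingHom Q M q) 2]
      rw [e3, map_mul, map_mul, map_pow, map_pow, e1, e2, mul_one, hz'q q hq, one_mul]
  obtain ⟨n₀, hn₀⟩ := exists_pow_gt (a := exp 1) (by rw [← exp_zero, exp_lt_exp]; norm_num) B
  have hBn : ∀ k : ℤ, (n₀ : ℤ) ≤ k → B < exp k := by
    intro k hk
    have h1 := hn₀ k.toNat (by omega)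
    rw [← exp_nsmul] at h1
    have : k.toNat • (1 : ℤ) = k := by simp; omega
    rwa [this] at h1
  have hall : ∀ m : ℕ, ∀ q : Q, B < w (q • (z' * (π⁻¹) ^ (2 * (n₀ + 1)) * (2⁻¹) ^ m)) := by
    intro m q
    by_cases hq : q = 1
    · rw [hq, one_smul, (key (n₀ + 1) m).1]
      apply hBn
      push_cast
      omega
    · rw [(key (n₀ + 1) m).2 q hq]
      apply hBn
      push_cast
      omega
  rcases hv with hv | hv
  · refine ⟨z' * (π⁻¹) ^ (2 * (n₀ + 1)) * (2⁻¹) ^ 0, ⟨_, (key (n₀ + 1) 0).1⟩,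
      fun q hq => ⟨_, (key (n₀ + 1) 0).2 q hq⟩, hall 0, ?_⟩
    rw [hv]
    have := hall 0 1
    rwa [one_smul] at this
  · set d : ℤᵐ⁰ := v (z' * (π⁻¹) ^ (2 * (n₀ + 1))) with hd
    have hd0 : d ≠ 0 := (Valuation.ne_zero_iff v).2
      (mul_ne_zero hz'0 (pow_ne_zero _ (inv_ne_zero hπ0)))
    have hv20 : v (2 : M) ≠ 0 := (Valuation.ne_zero_iff v).2 h20
    obtain ⟨m, hm⟩ := exists_pow_gt (a := (v 2)⁻¹) ((one_lt_inv₀ (zero_lt_iff.2 hv20)).2 hv)
      (B / d)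
    refine ⟨z' * (π⁻¹) ^ (2 * (n₀ + 1)) * (2⁻¹) ^ m, ⟨_, (key (n₀ + 1) m).1⟩,
      fun q hq => ⟨_, (key (n₀ + 1) m).2 q hq⟩, hall m, ?_⟩
    rw [map_mul, ← hd, map_pow, map_inv₀]
    have h1 := hm m le_rfl
    rw [div_lt_iff₀ (zero_lt_iff.2 hd0)] at h1
    rwa [mul_comm]

end

end Pool.Agent.H54.Larsen
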