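import Mathlib.AlgebraicGeometry.EllipticCurve.Affine.Point
import Mathlib.RingTheory.Derivation.Basic

/-! Logarithmic derivative on a Weierstrass curve with constant coefficients. -/

namespace Pool.Agent.H54.Larsen

open WeierstrassCurve Polynomial

variable {M : Type*} [Field M]

/-- the tangent numbers -/
def eta (W : Affine M) (x y : M) : M := 2 * y + W.a₁ * x + W.a₃
/-- the tangent numbers -/
def mu (W : Affine M) (x y : M) : M := 3 * x ^ 2 + 2 * W.a₂ * x + W.a₄ - W.a₁ * y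

/-- coefficients are constants of the derivation -/
structure ConstCoeff (D : Derivation ℤ M M) (W : Affine M) : Prop where
  d1 : D W.a₁ = 0
  d2 : D W.a₂ = 0
  d3 : D W.a₃ = 0
  d4 : D W.a₄ = 0
  d6 : D W.a₆ = 0

/-- logarithmic derivative of an affine point -/
noncomputable def dl (D : Derivation ℤ M M) (W : Affine M) (x y : M) : M :=
  by classical exact if eta W x y = 0 then D y / mu W x y else D x / eta W x y

lemma eta_or_mu {W : Affine M} {x y : M} (h : W.Nonsingular x y) :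
    eta W x y ≠ 0 ∨ mu W x y ≠ 0 := by
  rw [Affine.nonsingular_iff] at h
  rcases h.2 with h2 | h2
  · right
    unfold mu
    intro h3
    apply h2
    linear_combination -h3
  · left
    unfold eta
    intro h3
    apply h2
    linear_combination h3

lemma eta_mul {D : Derivation ℤ M M} {W : Affine M} (hW : ConstCoeff D W) {x y : M}
    (h : W.Equation x y) : eta W x y * D y = mu W x y * D x := by
  rw [Affine.equation_iff] at h
  have h2 := congrArg D h
  simp only [map_add, Derivation.leibniz, Derivation.leibniz_pow, hW.d1, hW.d2, hW.d3, hW.d4,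
    hW.d6, smul_eq_mul, nsmul_eq_mul, mul_zero, add_zero] at h2
  unfold eta mu
  push_cast at h2
  linear_combination h2

lemma dl_spec {D : Derivation ℤ M M} {W : Affine M} (hW : ConstCoeff D W) {x y : M}
    (h : W.Nonsingular x y) :
    D x = dl D W x y * eta W x y ∧ D y = dl D W x y * mu W x y := by
  have h1 := eta_mul hW h.1
  unfold dl
  split_ifs with he
  · have hm : mu W x y ≠ 0 := (eta_or_mu h).resolve_left (by simpa using he)
    rw [he, zero_mul] at h1
    have : D x = 0 := by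
      rcases mul_eq_zero.1 h1.symm with h | h
      · exact absurd h hm
      · exact h
    constructor
    · rw [this, he, mul_zero]
    · field_simp
  · constructor
    · field_simp
    · field_simp
      linear_combination h1

lemma dl_unique {D : Derivation ℤ M M} {W : Affine M} (hW : ConstCoeff D W) {x y w : M}
    (h : W.Nonsingular x y) (h1 : D x = w * eta W x y) (h2 : D y = w * mu W x y) :
    dl D W x y = w := by
  obtain ⟨h3, h4⟩ := dl_spec hW h
  rcases eta_or_mu h with h5 | h5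
  · exact mul_right_cancel₀ h5 (h3.symm.trans h1)
  · exact mul_right_cancel₀ h5 (h4.symm.trans h2)

section add
variable [DecidableEq M] {W : Affine M} {x₁ x₂ y₁ y₂ : M}

lemma key1 (h₁ : W.Equation x₁ y₁) (h₂ : W.Equation x₂ y₂)
    (hxy : ¬(x₁ = x₂ ∧ y₁ = W.negY x₂ y₂)) (z : M) :
    mu W z (W.slope x₁ x₂ y₁ y₂ * (z - x₁) + y₁) -
      W.slope x₁ x₂ y₁ y₂ * eta W z (W.slope x₁ x₂ y₁ y₂ * (z - x₁) + y₁) =
      (z - x₁) * (z - x₂) + (z - x₁) * (z - W.addX x₁ x₂ (W.slope x₁ x₂ y₁ y₂)) +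
        (z - x₂) * (z - W.addX x₁ x₂ (W.slope x₁ x₂ y₁ y₂)) := by
  have h := congrArg (eval z) (Affine.derivative_addPolynomial_slope h₁ h₂ hxy)
  rw [Affine.addPolynomial_eq] at h
  simp only [Cubic.toPoly, derivative_neg, derivative_add, derivative_mul, derivative_C,
    derivative_X_pow, derivative_X, eval_neg, eval_add, eval_mul, eval_C, eval_X, eval_pow,
    eval_sub, eval_natCast, zero_mul, zero_add, add_zero, mul_one, one_mul,
    map_natCast, map_one] at h
  simp only [mu, eta]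
  norm_num at h
  simp only [Affine.addX]
  linear_combination -h

/-- the line through the two points -/
lemma line2 (h₁ : W.Equation x₁ y₁) (h₂ : W.Equation x₂ y₂)
    (hxy : ¬(x₁ = x₂ ∧ y₁ = W.negY x₂ y₂)) :
    W.slope x₁ x₂ y₁ y₂ * (x₂ - x₁) + y₁ = y₂ := by
  by_cases hx : x₁ = x₂
  · have hy : y₁ ≠ W.negY x₂ y₂ := fun h => hxy ⟨hx, h⟩
    rw [Affine.Y_eq_of_Y_ne h₁ h₂ hx hy, hx]
    ring
  · rw [Affine.slope_of_X_ne hx]
    have : x₁ - x₂ ≠ 0 := sub_ne_zero.2 hx
    field_simp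
    ring

variable {D : Derivation ℤ M M}

lemma D_slope (hW : ConstCoeff D W) (h₁ : W.Nonsingular x₁ y₁) (h₂ : W.Nonsingular x₂ y₂)
    (hxy : ¬(x₁ = x₂ ∧ y₁ = W.negY x₂ y₂)) :
    D (W.slope x₁ x₂ y₁ y₂) =
      dl D W x₁ y₁ * (x₁ - W.addX x₁ x₂ (W.slope x₁ x₂ y₁ y₂)) +
      dl D W x₂ y₂ * (x₂ - W.addX x₁ x₂ (W.slope x₁ x₂ y₁ y₂)) := by
  obtain ⟨a1, b1⟩ := dl_spec hW h₁
  obtain ⟨a2, b2⟩ := dl_spec hW h₂
  by_cases hx : x₁ = x₂
  · have hy : y₁ ≠ W.negY x₂ y₂ := fun h => hxy ⟨hx, h⟩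
    have hy2 := Affine.Y_eq_of_Y_ne h₁.1 h₂.1 hx hy
    subst hx
    subst hy2
    have he : eta W x₁ y₁ ≠ 0 := by
      intro h
      apply hy
      simp only [Affine.negY]
      unfold eta at h
      linear_combination h
    have hs : W.slope x₁ x₁ y₁ y₁ = mu W x₁ y₁ / eta W x₁ y₁ := by
      rw [Affine.slope_of_Y_ne rfl hy]
      unfold mu eta
      congr 1
      simp only [Affine.negY]
      ring
    have hs2 : W.slope x₁ x₁ y₁ y₁ * eta W x₁ y₁ = mu W x₁ y₁ := by
      rw [hs]; field_simp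
    have hd := congrArg D hs2
    set w := dl D W x₁ y₁
    set ℓ := W.slope x₁ x₁ y₁ y₁
    have e1 : D (eta W x₁ y₁) = w * (2 * mu W x₁ y₁ + W.a₁ * eta W x₁ y₁) := by
      conv_lhs => unfold eta
      simp only [map_add, Derivation.leibniz, hW.d1, hW.d3, smul_eq_mul, mul_zero, add_zero, a1, b1]
      have : D (2 : M) = 0 := by
        have := D.map_natCast 2
        simpa using this
      rw [this]
      ring
    have e2 : D (mu W x₁ y₁) =
        w * ((6 * x₁ + 2 * W.a₂) * eta W x₁ y₁ - W.a₁ * mu W x₁ y₁) := by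
      conv_lhs => unfold mu
      have t2 : D (2 : M) = 0 := by
        have := D.map_natCast 2
        simpa using this
      have t3 : D (3 : M) = 0 := by
        have := D.map_natCast 3
        simpa using this
      simp only [map_add, map_sub, Derivation.leibniz, Derivation.leibniz_pow, hW.d1, hW.d2, hW.d4,
        smul_eq_mul, nsmul_eq_mul, mul_zero, add_zero, a1, b1, t2, t3]
      push_cast
      ring
    rw [Derivation.leibniz, e1, e2, smul_eq_mul, smul_eq_mul] at hd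
    apply mul_left_cancel₀ he
    simp only [Affine.addX]
    rw [← hs2] at hd
    linear_combination hd
  · have hx' : x₁ - x₂ ≠ 0 := sub_ne_zero.2 hx
    have hs := Affine.slope_of_X_ne (W := W) (y₁ := y₁) (y₂ := y₂) hx
    have hs2 : W.slope x₁ x₂ y₁ y₂ * (x₁ - x₂) = y₁ - y₂ := by
      rw [hs]; field_simp
    have hd := congrArg D hs2
    have k1 := key1 h₁.1 h₂.1 hxy x₁
    have k2 := key1 h₁.1 h₂.1 hxy x₂
    rw [line2 h₁.1 h₂.1 hxy] at k2
    rw [sub_self, mul_zero, zero_add] at k1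
    simp only [Derivation.leibniz, map_sub, smul_eq_mul, a1, a2, b1, b2] at hd
    apply mul_left_cancel₀ hx'
    linear_combination hd + dl D W x₁ y₁ * k1 - dl D W x₂ y₂ * k2

lemma dl_add (hW : ConstCoeff D W) (h₁ : W.Nonsingular x₁ y₁) (h₂ : W.Nonsingular x₂ y₂)
    (hxy : ¬(x₁ = x₂ ∧ y₁ = W.negY x₂ y₂)) :
    dl D W (W.addX x₁ x₂ (W.slope x₁ x₂ y₁ y₂)) (W.addY x₁ x₂ y₁ (W.slope x₁ x₂ y₁ y₂)) =
      dl D W x₁ y₁ + dl D W x₂ y₂ := by
  obtain ⟨a1, b1⟩ := dl_spec hW h₁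
  obtain ⟨a2, b2⟩ := dl_spec hW h₂
  have hl := D_slope hW h₁ h₂ hxy
  have hli := line2 h₁.1 h₂.1 hxy
  have k3 := key1 h₁.1 h₂.1 hxy (W.addX x₁ x₂ (W.slope x₁ x₂ y₁ y₂))
  set w1 := dl D W x₁ y₁
  set w2 := dl D W x₂ y₂
  set ℓ := W.slope x₁ x₂ y₁ y₂
  have hx3 : D (W.addX x₁ x₂ ℓ) = (w1 + w2) * eta W (W.addX x₁ x₂ ℓ) (W.addY x₁ x₂ y₁ ℓ) := by
    have e : D (W.addX x₁ x₂ ℓ) = (2 * ℓ + W.a₁) * D ℓ - D x₁ - D x₂ := by
      simp only [Affine.addX, map_add, map_sub, Derivation.leibniz, Derivation.leibniz_pow,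
        hW.d1, hW.d2, smul_eq_mul, nsmul_eq_mul]
      push_cast
      ring
    rw [e, hl, a1, a2]
    unfold eta Affine.addY
    simp only [Affine.negY, Affine.negAddY]
    linear_combination (2 * w2) * hli
  apply dl_unique hW (Affine.nonsingular_add h₁ h₂ hxy) hx3
  have e : D (W.addY x₁ x₂ y₁ ℓ) = -(D ℓ * (W.addX x₁ x₂ ℓ - x₁) +
      ℓ * (D (W.addX x₁ x₂ ℓ) - D x₁) + D y₁) - W.a₁ * D (W.addX x₁ x₂ ℓ) := by
    have : W.addY x₁ x₂ y₁ ℓ = -(ℓ * (W.addX x₁ x₂ ℓ - x₁) + y₁) - W.a₁ * W.addX x₁ x₂ ℓ - W.a₃ := rfl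
    rw [this]
    simp only [map_add, map_sub, map_neg, Derivation.leibniz,
        hW.d1, hW.d3, smul_eq_mul]
    ring
  rw [e, hx3, hl, a1, b1]
  have k1 := key1 h₁.1 h₂.1 hxy x₁
  have k2 := key1 h₁.1 h₂.1 hxy x₂
  rw [line2 h₁.1 h₂.1 hxy] at k2
  rw [sub_self, mul_zero, zero_add] at k1
  have hy3 : W.addY x₁ x₂ y₁ ℓ = -(ℓ * (W.addX x₁ x₂ ℓ - x₁) + y₁) - W.a₁ * W.addX x₁ x₂ ℓ - W.a₃ := rfl
  rw [hy3]
  unfold eta mu at *
  set X3 := W.addX x₁ x₂ ℓ
  linear_combination (-w1) * k1 - (w1 + w2) * k3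

lemma dl_neg (hW : ConstCoeff D W) (h₁ : W.Nonsingular x₁ y₁) :
    dl D W x₁ (W.negY x₁ y₁) = - dl D W x₁ y₁ := by
  obtain ⟨a1, b1⟩ := dl_spec hW h₁
  apply dl_unique hW ((Affine.nonsingular_neg ..).mpr h₁)
  · rw [a1]
    unfold eta
    simp only [Affine.negY]
    unfold eta at *
    ring
  · have : D (W.negY x₁ y₁) = - D y₁ - W.a₁ * D x₁ := by
      simp only [Affine.negY, map_sub, map_neg, Derivation.leibniz, hW.d1, hW.d3, smul_eq_mul]
      ring
    rw [this, a1, b1]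
    unfold eta mu
    simp only [Affine.negY]
    ring

/-- The logarithmic derivative homomorphism. -/
noncomputable def delta (hW : ConstCoeff D W) : W.Point →+ M where
  toFun P := match P with
    | .zero => 0
    | .some x y _ => dl D W x y
  map_zero' := rfl
  map_add' := by
    rintro (_ | ⟨x₁, y₁, h₁⟩) (_ | ⟨x₂, y₂, h₂⟩)
    · show (0 : M) = 0 + 0
      simp
    · show dl D W x₂ y₂ = 0 + dl D W x₂ y₂
      simp
    · show dl D W x₁ y₁ = dl D W x₁ y₁ + 0
      simp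
    · by_cases hxy : x₁ = x₂ ∧ y₁ = W.negY x₂ y₂
      · rw [Affine.Point.add_of_Y_eq hxy.1 hxy.2]
        show (0 : M) = dl D W x₁ y₁ + dl D W x₂ y₂
        obtain ⟨rfl, rfl⟩ := hxy
        rw [dl_neg hW h₂]
        ring
      · rw [Affine.Point.add_some hxy]
        exact dl_add hW h₁ h₂ hxy

@[simp] lemma delta_zero (hW : ConstCoeff D W) : delta hW (0 : W.Point) = 0 := rfl

@[simp] lemma delta_some (hW : ConstCoeff D W) {x y : M} (h : W.Nonsingular x y) :
    delta hW (.some x y h) = dl D W x y := rfl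

end add

end Pool.Agent.H54.Larsen
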