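import Mathlib.RingTheory.Etale.Kaehler
import Mathlib.RingTheory.Etale.Field
import Mathlib.RingTheory.Unramified.Finite
import Mathlib.FieldTheory.IntermediateField.Adjoin.Algebra
import Mathlib.FieldTheory.Finite.Basic

/-! A derivation of the separable closure commuting with the Galois group. -/

namespace Pool.Agent.H54.Larsen

open TensorProduct

variable {F : Type*} [Field F]

lemma exists_base_derivation (p : ℕ) [hp : Fact p.Prime] [CharP F p] [Infinite F] [Field.FG F] :
    ∃ D : Derivation ℤ F F, ∃ t : F, D t = 1 := by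
  have h1 : Algebra.EssFiniteType (⊥ : Subfield F) F := Field.fg_iff_essFiniteType.1 inferInstance
  have h2 : ¬ Algebra.FormallyUnramified (⊥ : Subfield F) F := by
    intro h
    have h3 : Module.Finite (⊥ : Subfield F) F := Algebra.FormallyUnramified.finite_of_free _ _
    have h4 : Finite (⊥ : Subfield F) := by
      apply Nat.finite_of_card_ne_zero
      rw [Subfield.card_bot F p]
      exact hp.out.ne_zero
    have h5 : Finite F := Module.finite_of_finite (⊥ : Subfield F)
    exact not_finite F
  have h3 : ¬ Subsingleton (Ω[F⁄(⊥ : Subfield F)]) := fun h => h2 ⟨h⟩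
  rw [not_subsingleton_iff_nontrivial] at h3
  obtain ⟨v, hv⟩ := exists_ne (0 : Ω[F⁄(⊥ : Subfield F)])
  obtain ⟨f, hf⟩ : ∃ f : Module.Dual F (Ω[F⁄(⊥ : Subfield F)]), f v ≠ 0 := by
    by_contra hcon
    push Not at hcon
    exact hv ((Module.forall_dual_apply_eq_zero_iff F v).1 hcon)
  obtain ⟨t, ht⟩ : ∃ t : F, f (KaehlerDifferential.D (⊥ : Subfield F) F t) ≠ 0 := by
    by_contra hcon
    push Not at hcon
    apply hf
    have : f = 0 := by
      apply Derivation.liftKaehlerDifferential_unique
      ext t
      exact hcon t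
    rw [this]; rfl
  refine ⟨((f (KaehlerDifferential.D (⊥ : Subfield F) F t))⁻¹ •
    (f.compDer (KaehlerDifferential.D (⊥ : Subfield F) F))).restrictScalars ℤ, t, ?_⟩
  show (f (KaehlerDifferential.D (⊥ : Subfield F) F t))⁻¹ •
    f (KaehlerDifferential.D (⊥ : Subfield F) F t) = 1
  rw [smul_eq_mul, inv_mul_cancel₀ ht]

/-- extension of a derivation to a separable algebraic extension -/
lemma exists_extend_derivation {L : Type*} [Field L] [Algebra F L] [Algebra.IsSeparable F L]
    (D : Derivation ℤ F F) :
    ∃ D' : Derivation ℤ L L, ∀ t : F, D' (algebraMap F L t) = algebraMap F L (D t) := by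
  have : Algebra.FormallyEtale F L := Algebra.FormallyEtale.of_isSeparable F L
  let e := KaehlerDifferential.tensorKaehlerEquivOfFormallyEtale ℤ F L
  let g : Ω[F⁄ℤ] →ₗ[F] L := (Algebra.linearMap F L).comp D.liftKaehlerDifferential
  let G : L ⊗[F] Ω[F⁄ℤ] →ₗ[L] L := TensorProduct.AlgebraTensorModule.lift
    ((LinearMap.lsmul L (Ω[F⁄ℤ] →ₗ[F] L)).flip g)
  refine ⟨(G.comp e.symm.toLinearMap).compDer (KaehlerDifferential.D ℤ L), ?_⟩
  intro t
  show G (e.symm (KaehlerDifferential.D ℤ L (algebraMap F L t))) = _
  rw [KaehlerDifferential.tensorKaehlerEquivOfFormallyEtale_symm_D_algebraMap]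
  show (1 : L) • g (KaehlerDifferential.D ℤ F t) = _
  rw [one_smul]
  show algebraMap F L (D.liftKaehlerDifferential (KaehlerDifferential.D ℤ F t)) = _
  rw [Derivation.liftKaehlerDifferential_comp_D]

lemma derivation_unique {L : Type*} [Field L] [Algebra F L] [Algebra.IsSeparable F L]
    (D₁ D₂ : Derivation ℤ L L) (h : ∀ t : F, D₁ (algebraMap F L t) = D₂ (algebraMap F L t)) :
    D₁ = D₂ := by
  have : Algebra.FormallyUnramified F L := Algebra.FormallyUnramified.of_isSeparable F L
  let E : Derivation F L L :=
    { toFun := fun z => D₁ z - D₂ z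
      map_add' := by intro a b; simp; ring
      map_smul' := by
        intro a b
        simp only [Algebra.smul_def, Derivation.leibniz, h a, RingHom.id_apply,
          Algebra.algebraMap_self]
        ring
      map_one_eq_zero' := by simp
      leibniz' := by
        intro a b
        show D₁ (a * b) - D₂ (a * b) = _
        simp only [Derivation.leibniz, smul_eq_mul]
        show _ = a * (D₁ b - D₂ b) + b * (D₁ a - D₂ a)
        ring }
  have hE : E = 0 := by
    ext z
    rw [← Derivation.liftKaehlerDifferential_comp_D E, 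
      Subsingleton.elim (KaehlerDifferential.D F L z) 0, map_zero]
    rfl
  ext z
  have h1 : E z = 0 := by rw [hE]; rfl
  exact sub_eq_zero.1 h1

theorem derivation_comm {L : Type*} [Field L] [Algebra F L] [Algebra.IsSeparable F L]
    (D₀ : Derivation ℤ F F) (D : Derivation ℤ L L)
    (hD : ∀ t : F, D (algebraMap F L t) = algebraMap F L (D₀ t)) (g : L ≃ₐ[F] L) (z : L) :
    D (g z) = g (D z) := by
  let D' : Derivation ℤ L L :=
    { toFun := fun z => g.symm (D (g z))
      map_add' := by intro a b; simp
      map_smul' := by intro a b; simp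
      map_one_eq_zero' := by simp
      leibniz' := by
        intro a b
        simp [Derivation.leibniz] }
  have h1 : D' = D := by
    apply derivation_unique (F := F)
    intro s
    show g.symm (D (g (algebraMap F L s))) = _
    rw [AlgEquiv.commutes, hD, AlgEquiv.commutes]
  have h2 : g.symm (D (g z)) = D z := congrArg (fun d => d z) h1
  rw [← h2]
  simp

end Pool.Agent.H54.Larsen
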