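import Mathlib.AlgebraicGeometry.EllipticCurve.Affine.Point
import Mathlib.RingTheory.Valuation.Basic
import Pool.Agent.H54.Larsen.Torsion

/-! Repeated doubling near the origin: points with a large abscissa have infinite order. -/

namespace Pool.Agent.H54.Larsen

open WeierstrassCurve

section
variable {L M Γ : Type*} [Field L] [DecidableEq L] [Field M] [LinearOrderedCommGroupWithZero Γ]

/-- abscissa of the double -/
lemma double_x (V : Affine L) {x y : L} {h : V.Nonsingular x y}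
    (h0 : 4 * x ^ 3 + V.b₂ * x ^ 2 + 2 * V.b₄ * x + V.b₆ ≠ 0) :
    ∃ y' h', 2 • Affine.Point.some x y h =
      .some ((x ^ 4 - V.b₄ * x ^ 2 - 2 * V.b₆ * x - V.b₈) /
        (4 * x ^ 3 + V.b₂ * x ^ 2 + 2 * V.b₄ * x + V.b₆)) y' h' := by
  have hE := (Affine.equation_iff _ _).1 h.1
  have hpsi : 4 * x ^ 3 + V.b₂ * x ^ 2 + 2 * V.b₄ * x + V.b₆ = (y - V.negY x y) ^ 2 := by
    simp only [Affine.negY, WeierstrassCurve.b₂, WeierstrassCurve.b₄, WeierstrassCurve.b₆]
    linear_combination (-4) * hE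
  have hy : y ≠ V.negY x y := by
    intro hy
    apply h0
    rw [hpsi, sub_eq_zero.2 hy]; ring
  have he : y - V.negY x y ≠ 0 := sub_ne_zero.2 hy
  have hx : (x ^ 4 - V.b₄ * x ^ 2 - 2 * V.b₆ * x - V.b₈) /
        (4 * x ^ 3 + V.b₂ * x ^ 2 + 2 * V.b₄ * x + V.b₆) = V.addX x x (V.slope x x y y) := by
    rw [hpsi, Affine.slope_of_Y_ne rfl hy, Affine.addX]
    simp only [WeierstrassCurve.b₄, WeierstrassCurve.b₆, WeierstrassCurve.b₈]
    field_simp
    simp only [Affine.negY]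
    linear_combination (8 * x + 4 * V.a₂ + V.a₁ ^ 2) * hE
  have hns := Affine.nonsingular_add h h (fun hxy => hy hxy.2)
  have h2 : 2 • Affine.Point.some x y h = .some (V.addX x x (V.slope x x y y))
      (V.addY x x y (V.slope x x y y)) hns := by
    rw [two_smul]
    exact Affine.Point.add_self_of_Y_ne hy
  rw [← hx] at hns
  refine ⟨_, hns, ?_⟩
  rw [h2]
  simp only [Affine.Point.some.injEq]
  exact ⟨hx.symm, trivial⟩

/-- largeness of an abscissa -/
structure Large (v : Valuation M Γ) (b2 b4 b6 b8 x : M) : Prop where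
  h2 : v b2 < v 4 * v x
  h4 : v b4 < v 4 * v x ^ 2
  h6 : v b6 < v 4 * v x ^ 3
  h8 : v b8 < v 4 * v x ^ 4
  h1 : 1 ≤ v x

lemma v_nat_le_one (v : Valuation M Γ) (n : ℕ) : v (n : M) ≤ 1 := by
  induction n with
  | zero => simp
  | succ n ih =>
    push_cast
    exact (v.map_add _ _).trans (max_le ih (by simp))

lemma large_double {v : Valuation M Γ} (h4 : (4 : M) ≠ 0) {b2 b4 b6 b8 x : M}
    (hL : Large v b2 b4 b6 b8 x) :
    4 * x ^ 3 + b2 * x ^ 2 + 2 * b4 * x + b6 ≠ 0 ∧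
    v (4 * ((x ^ 4 - b4 * x ^ 2 - 2 * b6 * x - b8) /
      (4 * x ^ 3 + b2 * x ^ 2 + 2 * b4 * x + b6)) - x) < v x ∧
    Large v b2 b4 b6 b8 ((x ^ 4 - b4 * x ^ 2 - 2 * b6 * x - b8) /
      (4 * x ^ 3 + b2 * x ^ 2 + 2 * b4 * x + b6)) := by
  have hx1 := hL.h1
  have hxpos : 0 < v x := lt_of_lt_of_le zero_lt_one hx1
  have hv4 : 0 < v 4 := zero_lt_iff.2 ((Valuation.ne_zero_iff _).2 h4)
  have v2 : v (2 : M) ≤ 1 := by exact_mod_cast v_nat_le_one v 2
  have v4 : v (4 : M) ≤ 1 := by exact_mod_cast v_nat_le_one v 4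
  have v6 : v (6 : M) ≤ 1 := by exact_mod_cast v_nat_le_one v 6
  have v9 : v (9 : M) ≤ 1 := by exact_mod_cast v_nat_le_one v 9
  have hpow : ∀ n : ℕ, 0 < v x ^ n := fun n => pow_pos hxpos n
  have t1 : v (b2 * x ^ 2) < v 4 * v x ^ 3 := by
    rw [map_mul, map_pow]
    calc v b2 * v x ^ 2 < (v 4 * v x) * v x ^ 2 := mul_lt_mul_of_pos_right hL.h2 (hpow 2)
      _ = v 4 * v x ^ 3 := by rw [mul_assoc, ← pow_succ']
  have t2 : v (2 * b4 * x) < v 4 * v x ^ 3 := by
    rw [map_mul, map_mul]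
    calc v 2 * v b4 * v x ≤ 1 * v b4 * v x := by gcongr
      _ < (v 4 * v x ^ 2) * v x := by
        rw [one_mul]; exact mul_lt_mul_of_pos_right hL.h4 hxpos
      _ = v 4 * v x ^ 3 := by rw [mul_assoc, ← pow_succ]
  have hB : v (4 * x ^ 3 + b2 * x ^ 2 + 2 * b4 * x + b6) = v 4 * v x ^ 3 := by
    have e1 : v (4 * x ^ 3) = v 4 * v x ^ 3 := by rw [map_mul, map_pow]
    have e2 : v (4 * x ^ 3 + b2 * x ^ 2) = v 4 * v x ^ 3 := by
      rw [Valuation.map_add_eq_of_lt_left _ (by rw [e1]; exact t1), e1]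
    have e3 : v (4 * x ^ 3 + b2 * x ^ 2 + 2 * b4 * x) = v 4 * v x ^ 3 := by
      rw [Valuation.map_add_eq_of_lt_left _ (by rw [e2]; exact t2), e2]
    rw [Valuation.map_add_eq_of_lt_left _ (by rw [e3]; exact hL.h6), e3]
  have hBne : 4 * x ^ 3 + b2 * x ^ 2 + 2 * b4 * x + b6 ≠ 0 := by
    intro h
    rw [h, map_zero] at hB
    exact (mul_pos hv4 (hpow 3)).ne hB
  set B := 4 * x ^ 3 + b2 * x ^ 2 + 2 * b4 * x + b6 with hBdef
  set A := x ^ 4 - b4 * x ^ 2 - 2 * b6 * x - b8 with hAdef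
  have hnum : v (4 * A - x * B) < v 4 * v x ^ 4 := by
    have e0 : 4 * A - x * B = -(b2 * x ^ 3 + 6 * b4 * x ^ 2 + 9 * b6 * x + 4 * b8) := by
      rw [hAdef, hBdef]; ring
    rw [e0, Valuation.map_neg]
    have s1 : v (b2 * x ^ 3) < v 4 * v x ^ 4 := by
      rw [map_mul, map_pow]
      calc v b2 * v x ^ 3 < (v 4 * v x) * v x ^ 3 := mul_lt_mul_of_pos_right hL.h2 (hpow 3)
        _ = v 4 * v x ^ 4 := by rw [mul_assoc, ← pow_succ']
    have s2 : v (6 * b4 * x ^ 2) < v 4 * v x ^ 4 := by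
      rw [map_mul, map_mul, map_pow]
      calc v 6 * v b4 * v x ^ 2 ≤ 1 * v b4 * v x ^ 2 := by gcongr
        _ < (v 4 * v x ^ 2) * v x ^ 2 := by
          rw [one_mul]; exact mul_lt_mul_of_pos_right hL.h4 (hpow 2)
        _ = v 4 * v x ^ 4 := by rw [mul_assoc, ← pow_add]
    have s3 : v (9 * b6 * x) < v 4 * v x ^ 4 := by
      rw [map_mul, map_mul]
      calc v 9 * v b6 * v x ≤ 1 * v b6 * v x := by gcongr
        _ < (v 4 * v x ^ 3) * v x := by
          rw [one_mul]; exact mul_lt_mul_of_pos_right hL.h6 hxpos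
        _ = v 4 * v x ^ 4 := by rw [mul_assoc, ← pow_succ]
    have s4 : v (4 * b8) < v 4 * v x ^ 4 := by
      rw [map_mul]
      calc v 4 * v b8 ≤ 1 * v b8 := by gcongr
        _ < v 4 * v x ^ 4 := by rw [one_mul]; exact hL.h8
    exact v.map_add_lt (v.map_add_lt (v.map_add_lt s1 s2) s3) s4
  have hdiff : v (4 * (A / B) - x) < v x := by
    have e1 : 4 * (A / B) - x = (4 * A - x * B) / B := by
      field_simp
    rw [e1, map_div₀, hB, div_lt_iff₀ (mul_pos hv4 (hpow 3))]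
    calc v (4 * A - x * B) < v 4 * v x ^ 4 := hnum
      _ = v x * (v 4 * v x ^ 3) := by rw [mul_left_comm, ← pow_succ']
  have hx' : v 4 * v (A / B) = v x := by
    rw [← map_mul]
    have e1 : 4 * (A / B) = x + (4 * (A / B) - x) := by ring
    rw [e1, Valuation.map_add_eq_of_lt_left _ hdiff]
  have hle : v x ≤ v (A / B) := by
    rw [← hx']
    calc v 4 * v (A / B) ≤ 1 * v (A / B) := by gcongr
      _ = v (A / B) := one_mul _
  refine ⟨hBne, hdiff, ⟨?_, ?_, ?_, ?_, hx1.trans hle⟩⟩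
  · exact hL.h2.trans_le (by gcongr)
  · exact hL.h4.trans_le (by gcongr)
  · exact hL.h6.trans_le (by gcongr)
  · exact hL.h8.trans_le (by gcongr)

theorem infinite_order {v : Valuation M Γ} (h4 : (4 : M) ≠ 0) (hv : ∀ n : ℕ, 0 < n → 1 ≤ v (4 ^ n - 1))
    (j : M →+* L) (V : Affine L) {b2 b4 b6 b8 x : M} (e2 : V.b₂ = j b2) (e4 : V.b₄ = j b4)
    (e6 : V.b₆ = j b6) (e8 : V.b₈ = j b8) (hL : Large v b2 b4 b6 b8 x) {y : L}
    (h : V.Nonsingular (j x) y) (N : ℕ) (hN : 0 < N) : N • Affine.Point.some (j x) y h ≠ 0 := by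
  intro hNP
  have key : ∀ k : ℕ, ∃ (xk : M) (yk : L) (hk : V.Nonsingular (j xk) yk),
      2 ^ k • Affine.Point.some (j x) y h = .some (j xk) yk hk ∧ Large v b2 b4 b6 b8 xk ∧
      v (4 ^ k * xk - x) < v x := by
    intro k
    induction k with
    | zero =>
      refine ⟨x, y, h, by simp, hL, ?_⟩
      simp only [pow_zero, one_mul, sub_self, map_zero]
      exact lt_of_lt_of_le zero_lt_one hL.h1
    | succ k ih =>
      obtain ⟨xk, yk, hk, h1, h2, h3⟩ := ih
      obtain ⟨g1, g2, g3⟩ := large_double h4 h2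
      have hne : 4 * (j xk) ^ 3 + V.b₂ * (j xk) ^ 2 + 2 * V.b₄ * (j xk) + V.b₆ ≠ 0 := by
        rw [e2, e4, e6]
        intro h5
        apply g1
        apply j.injective
        simp only [map_add, map_mul, map_pow, map_ofNat, map_zero]
        exact h5
      obtain ⟨y', h', hd⟩ := double_x V (h := hk) hne
      have hjx : ((j xk) ^ 4 - V.b₄ * (j xk) ^ 2 - 2 * V.b₆ * (j xk) - V.b₈) /
          (4 * (j xk) ^ 3 + V.b₂ * (j xk) ^ 2 + 2 * V.b₄ * (j xk) + V.b₆) =
          j ((xk ^ 4 - b4 * xk ^ 2 - 2 * b6 * xk - b8) /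
            (4 * xk ^ 3 + b2 * xk ^ 2 + 2 * b4 * xk + b6)) := by
        rw [e2, e4, e6, e8]
        simp only [map_div₀, map_sub, map_add, map_mul, map_pow, map_ofNat]
      have h'' := h'
      rw [hjx] at h''
      refine ⟨_, y', h'', ?_, g3, ?_⟩
      · rw [pow_succ', mul_smul, h1, hd]
        simp only [Affine.Point.some.injEq]
        exact ⟨hjx, trivial⟩
      · have e5 : 4 ^ (k + 1) * ((xk ^ 4 - b4 * xk ^ 2 - 2 * b6 * xk - b8) /
            (4 * xk ^ 3 + b2 * xk ^ 2 + 2 * b4 * xk + b6)) - x =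
            4 ^ k * (4 * ((xk ^ 4 - b4 * xk ^ 2 - 2 * b6 * xk - b8) /
            (4 * xk ^ 3 + b2 * xk ^ 2 + 2 * b4 * xk + b6)) - xk) + (4 ^ k * xk - x) := by ring
        rw [e5]
        apply v.map_add_lt _ h3
        have e6 : v (4 ^ k * xk) = v x := by
          have : (4 : M) ^ k * xk = x + (4 ^ k * xk - x) := by ring
          rw [this, Valuation.map_add_eq_of_lt_left _ h3]
        rw [map_mul, ← e6, map_mul]
        exact mul_lt_mul_of_pos_left g2 (zero_lt_iff.2 ((Valuation.ne_zero_iff _).2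
          (pow_ne_zero k h4)))
  -- pigeonhole
  obtain ⟨a, b, hab, heq⟩ : ∃ a b : ℕ, a < b ∧ 2 ^ a • Affine.Point.some (j x) y h =
      2 ^ b • Affine.Point.some (j x) y h := by
    have hfin : (Set.range (fun k : ℕ => k • Affine.Point.some (j x) y h)).Finite := by
      apply Set.Finite.subset ((Finset.range N).image
        (fun k : ℕ => k • Affine.Point.some (j x) y h)).finite_toSet
      rintro _ ⟨k, rfl⟩
      rw [Finset.coe_image]
      refine ⟨k % N, by simpa using Nat.mod_lt k hN, ?_⟩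
      simp only
      conv_rhs => rw [← Nat.mod_add_div k N]
      rw [add_smul, mul_comm, mul_smul, hNP, smul_zero, add_zero]
    have hninj : ¬ Function.Injective (fun k : ℕ => 2 ^ k • Affine.Point.some (j x) y h) := by
      intro hinj
      have := Set.infinite_range_of_injective hinj
      apply this
      apply hfin.subset
      rintro _ ⟨k, rfl⟩
      exact ⟨2 ^ k, rfl⟩
    rw [Function.Injective] at hninj
    push Not at hninj
    obtain ⟨a, b, h1, h2⟩ := hninj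
    rcases lt_or_gt_of_ne h2 with h3 | h3
    · exact ⟨a, b, h3, h1⟩
    · exact ⟨b, a, h3, h1.symm⟩
  obtain ⟨xa, ya, ha, h1, h2, h3⟩ := key a
  obtain ⟨xb, yb, hb, h1', h2', h3'⟩ := key b
  rw [h1, h1'] at heq
  simp only [Affine.Point.some.injEq] at heq
  have hx : xa = xb := j.injective heq.1
  subst hx
  have e1 : (4 ^ (b - a) - 1) * (4 ^ a * xa) = (4 ^ b * xa - x) - (4 ^ a * xa - x) := by
    have : (4 : M) ^ b = 4 ^ (b - a) * 4 ^ a := by rw [← pow_add, Nat.sub_add_cancel hab.le]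
    rw [this]; ring
  have e2' : v ((4 ^ (b - a) - 1) * (4 ^ a * xa)) < v x := by
    rw [e1]
    exact v.map_sub_lt h3' h3
  have e3 : v (4 ^ a * xa) = v x := by
    have : (4 : M) ^ a * xa = x + (4 ^ a * xa - x) := by ring
    rw [this, Valuation.map_add_eq_of_lt_left _ h3]
  rw [map_mul, e3] at e2'
  have e4' := hv (b - a) (by omega)
  have : v x ≤ v (4 ^ (b - a) - 1) * v x := by
    calc v x = 1 * v x := (one_mul _).symm
      _ ≤ _ := by gcongr
  exact absurd e2' (not_lt.2 this)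

end

end Pool.Agent.H54.Larsen
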