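import Mathlib.LinearAlgebra.Dimension.Localization
import Mathlib.LinearAlgebra.Dimension.Finite
import Mathlib.FieldTheory.Fixed
import Mathlib.Algebra.Field.Subfield.Basic
import Mathlib.Algebra.Module.Submodule.Union
import Mathlib.Algebra.CharZero.Infinite
import Mathlib.Algebra.CharZero.Defs

/-! Finiteness lemmas used in the assembly. -/

namespace Pool.Agent.H54.Larsen

lemma exists_finite_of_rank_lt {A : Type*} [AddCommGroup A]
    (h : Module.rank ℤ A < Cardinal.aleph0) : ∃ s : Set A, s.Finite ∧
      ∀ T : A, ∃ n : ℕ, 0 < n ∧ n • T ∈ AddSubgroup.closure s := by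
  obtain ⟨s, hs, hli⟩ := exists_set_linearIndependent_of_isDomain ℤ A
  have hfin : s.Finite := by
    rw [← Set.finite_coe_iff, ← Cardinal.lt_aleph0_iff_finite, hs]
    exact h
  refine ⟨s, hfin, ?_⟩
  have h1 := rank_quotient_add_rank_le (R := ℤ) (Submodule.span ℤ s)
  rw [rank_span_set hli, hs] at h1
  have h2 : Module.rank ℤ (A ⧸ Submodule.span ℤ s) = 0 := by
    by_contra h3
    have h4 : 1 ≤ Module.rank ℤ (A ⧸ Submodule.span ℤ s) := Cardinal.one_le_iff_ne_zero.2 h3
    have h5 : 1 + Module.rank ℤ A ≤ Module.rank ℤ A := (add_le_add_left h4 _).trans h1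
    obtain ⟨n, hn⟩ := Cardinal.lt_aleph0.1 h
    rw [hn] at h5
    have h6 : 1 + n ≤ n := by exact_mod_cast h5
    omega
  rw [rank_eq_zero_iff] at h2
  intro T
  obtain ⟨c, hc, hcT⟩ := h2 (Submodule.Quotient.mk T)
  rw [← Submodule.Quotient.mk_smul, Submodule.Quotient.mk_eq_zero] at hcT
  refine ⟨c.natAbs, Int.natAbs_pos.2 hc, ?_⟩
  have h3 : c • T ∈ AddSubgroup.closure s := by
    rw [← Submodule.span_int_eq_addSubgroupClosure]
    exact hcT
  rcases Int.natAbs_eq c with h4 | h4
  · rw [← natCast_zsmul, ← h4]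
    exact h3
  · have : c.natAbs • T = -(c • T) := by
      rw [← natCast_zsmul, ← neg_smul]
      congr 1
      omega
    rw [this]
    exact AddSubgroup.neg_mem _ h3

section
variable {L : Type*} [Field L]

lemma fg_closure (A : Set L) (hA : A.Finite) : Field.FG (Subfield.closure A) := by
  classical
  have hfin : ((↑) ⁻¹' A : Set (Subfield.closure A)).Finite :=
    hA.preimage Subtype.val_injective.injOn
  refine ⟨⟨hfin.toFinset, ?_⟩⟩
  rw [Set.Finite.coe_toFinset, eq_top_iff]
  rintro ⟨x, hx⟩ _
  have h1 : Subfield.closure A ≤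
      (Subfield.closure ((↑) ⁻¹' A : Set (Subfield.closure A))).map (Subfield.closure A).subtype := by
    rw [Subfield.closure_le]
    intro a ha
    exact ⟨⟨a, Subfield.subset_closure ha⟩, Subfield.subset_closure ha, rfl⟩
  obtain ⟨y, hy, hyx⟩ := h1 hx
  have : y = ⟨x, hx⟩ := Subtype.ext hyx
  rw [← this]
  exact hy

variable {Q : Type*} [Group Q] [MulSemiringAction Q L]

lemma invariant_closure (A : Set L) (hA : ∀ (q : Q), ∀ a ∈ A, q • a ∈ A) :
    IsInvariantSubfield Q (Subfield.closure A) where
  smul_mem := by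
    intro q x hx
    have h1 : Subfield.closure A ≤
        (Subfield.closure A).comap (MulSemiringAction.toRingHom Q L q) := by
      rw [Subfield.closure_le]
      intro a ha
      exact Subfield.subset_closure (hA q a ha)
    exact h1 hx

lemma exists_theta [CharZero L] [Finite Q] (hfaith : ∀ q : Q, q ≠ 1 → ∃ z : L, q • z ≠ z) :
    ∃ l : L, ∀ q : Q, q ≠ 1 → q • l ≠ l := by
  have hcz : CharZero (FixedPoints.subfield Q L) :=
    ⟨fun a b h => Nat.cast_injective (R := L) (by exact_mod_cast congrArg Subtype.val h)⟩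
  have hinf : Infinite (FixedPoints.subfield Q L) := inferInstance
  let P : {q : Q // q ≠ 1} → Submodule (FixedPoints.subfield Q L) L := fun q =>
    { carrier := {z | (q : Q) • z = z}
      zero_mem' := smul_zero _
      add_mem' := by
        intro a b ha hb
        show (q : Q) • (a + b) = a + b
        rw [smul_add, show (q : Q) • a = a from ha, show (q : Q) • b = b from hb]
      smul_mem' := by
        rintro ⟨c, hc⟩ a ha
        show (q : Q) • (c * a) = c * a
        rw [smul_mul', show (q : Q) • a = a from ha, hc q] }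
  obtain ⟨l, hl⟩ := Submodule.exists_forall_notMem_of_forall_ne_top P (by
    intro q hq
    obtain ⟨z, hz⟩ := hfaith q q.2
    have : z ∈ P q := by rw [hq]; trivial
    exact hz this)
  exact ⟨l, fun q hq h => hl ⟨q, hq⟩ h⟩

end

end Pool.Agent.H54.Larsen
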