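import Mathlib.Combinatorics.HalesJewett
import Mathlib.Algebra.Field.Basic
import Mathlib.Algebra.Group.Even
import Mathlib.Tactic.FieldSimp
import Mathlib.Tactic.LinearCombination
import Mathlib.Data.Finset.Powerset
import Mathlib.Algebra.BigOperators.Ring.Finset

/-! Translates consisting of squares, from the Hales-Jewett theorem. -/

namespace Pool.Agent.H54.Larsen

variable {L : Type*} [Field L]

lemma exists_nonzero_sums [Infinite L] {ι : Type*} [DecidableEq ι] (s : Finset ι) :
    ∃ a : ι → L, ∀ T ⊆ s, T.Nonempty → ∑ i ∈ T, a i ≠ 0 := by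
  classical
  induction s using Finset.induction_on with
  | empty =>
    refine ⟨fun _ => 0, ?_⟩
    intro T hT hne
    rw [Finset.subset_empty] at hT
    subst hT
    exact absurd hne (by simp)
  | insert i s hi ih =>
    obtain ⟨a, ha⟩ := ih
    obtain ⟨v, hv⟩ := Infinite.exists_notMem_finset ((s.powerset).image (fun T => -∑ j ∈ T, a j))
    refine ⟨Function.update a i v, ?_⟩
    intro T hT hne
    by_cases hiT : i ∈ T
    · rw [← Finset.add_sum_erase T _ hiT]
      have h1 : ∑ j ∈ T.erase i, Function.update a i v j = ∑ j ∈ T.erase i, a j := by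
        apply Finset.sum_congr rfl
        intro j hj
        rw [Function.update_of_ne (Finset.ne_of_mem_erase hj)]
      rw [h1, Function.update_self]
      intro h0
      apply hv
      rw [Finset.mem_image]
      refine ⟨T.erase i, ?_, ?_⟩
      · rw [Finset.mem_powerset]
        intro j hj
        have := hT (Finset.mem_of_mem_erase hj)
        rw [Finset.mem_insert] at this
        exact this.resolve_left (Finset.ne_of_mem_erase hj)
      · linear_combination -h0
    · have h1 : ∑ j ∈ T, Function.update a i v j = ∑ j ∈ T, a j := by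
        apply Finset.sum_congr rfl
        intro j hj
        rw [Function.update_of_ne]
        rintro rfl
        exact hiT hj
      rw [h1]
      apply ha T _ hne
      intro j hj
      have := hT hj
      rw [Finset.mem_insert] at this
      refine this.resolve_left ?_
      rintro rfl
      exact hiT hj

theorem exists_translate_squares [Infinite L] {κ : Type*} [Finite κ] (col : L → κ)
    (hcol : ∀ z z', z ≠ 0 → z' ≠ 0 → col z = col z' → IsSquare (z * z')) (S : Finset L) :
    ∃ x : L, ∀ s ∈ S, x + s ≠ 0 ∧ IsSquare (x + s) := by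
  classical
  -- representatives
  have hrep : ∀ k : κ, ∃ r : L, r ≠ 0 ∧ ((∃ z, z ≠ 0 ∧ col z = k) → col r = k) := by
    intro k
    by_cases h : ∃ z, z ≠ 0 ∧ col z = k
    · obtain ⟨z, hz, hzk⟩ := h
      exact ⟨z, hz, fun _ => hzk⟩
    · exact ⟨1, one_ne_zero, fun h' => absurd h' h⟩
  choose rep hrep0 hrepc using hrep
  let S' : Finset L := insert 0 (insert 1 S)
  let α := κ × S'
  let val : α → L := fun x => rep x.1 * x.2
  obtain ⟨ι, hι, hHJ⟩ := Combinatorics.Line.exists_mono_in_high_dimension α (Option κ)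
  obtain ⟨a, ha⟩ := exists_nonzero_sums (L := L) (Finset.univ : Finset ι)
  obtain ⟨l, c, hl⟩ := hHJ (fun f => if ∑ i, val (f i) * a i = 0 then none
    else some (col (∑ i, val (f i) * a i)))
  set Cc := ∑ i ∈ Finset.univ.filter (fun i => l.idxFun i = none), a i with hCc
  have hCc0 : Cc ≠ 0 := by
    apply ha _ (Finset.subset_univ _)
    obtain ⟨i, hi⟩ := l.proper
    exact ⟨i, by simp [hi]⟩
  obtain ⟨X, hX⟩ : ∃ X : L, ∀ x : α, ∑ i, val (l x i) * a i = X + val x * Cc := by
    refine ⟨∑ i ∈ Finset.univ.filter (fun i => ¬ l.idxFun i = none),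
      (match l.idxFun i with | none => 0 | some b => val b) * a i, ?_⟩
    intro x
    rw [← Finset.sum_filter_add_sum_filter_not Finset.univ (fun i => l.idxFun i = none),
      add_comm, hCc, Finset.mul_sum]
    congr 1
    · apply Finset.sum_congr rfl
      intro i hi
      rw [Finset.mem_filter] at hi
      rcases hb : l.idxFun i with _ | b
      · exact absurd hb hi.2
      · rw [Combinatorics.Line.apply_some hb]
    · apply Finset.sum_congr rfl
      intro i hi
      rw [Finset.mem_filter] at hi
      rw [Combinatorics.Line.apply_none _ _ _ hi.2]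
  simp only [hX] at hl
  have h0S : (0 : L) ∈ S' := by simp [S']
  have h1S : (1 : L) ∈ S' := by simp [S']
  let k : κ := col 0
  have hXne : X ≠ 0 := by
    intro hX0
    have e0 := hl (k, ⟨0, h0S⟩)
    have e1 := hl (k, ⟨1, h1S⟩)
    simp only [val, hX0, mul_zero, zero_mul, add_zero, if_true, zero_add, mul_one] at e0 e1
    rw [if_neg (mul_ne_zero (hrep0 k) hCc0)] at e1
    rw [← e0] at e1
    exact absurd e1 (by simp)
  have hcX : c = some (col X) := by
    have e0 := hl (k, ⟨0, h0S⟩)
    simp only [val, mul_zero, zero_mul, add_zero, if_neg hXne] at e0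
    exact e0.symm
  have hz : ∀ x : α, X + val x * Cc ≠ 0 ∧ col (X + val x * Cc) = col X := by
    intro x
    have e0 := hl x
    rw [hcX] at e0
    by_cases h : X + val x * Cc = 0
    · rw [if_pos h] at e0
      exact absurd e0 (by simp)
    · rw [if_neg h] at e0
      exact ⟨h, Option.some.inj e0⟩
  set k₁ := col (X / Cc) with hk₁
  have hXC : X / Cc ≠ 0 := div_ne_zero hXne hCc0
  have hr0 := hrep0 k₁
  have hsq1 : IsSquare (rep k₁ * (X / Cc)) := by
    apply hcol _ _ hr0 hXC
    rw [hrepc k₁ ⟨X / Cc, hXC, rfl⟩]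
  refine ⟨X / (Cc * rep k₁), ?_⟩
  intro s hs
  have hsS : s ∈ S' := by simp [S', hs]
  obtain ⟨hne, hc⟩ := hz (k₁, ⟨s, hsS⟩)
  have hval : val (k₁, ⟨s, hsS⟩) = rep k₁ * s := rfl
  rw [hval] at hne hc
  have e1 : X / (Cc * rep k₁) + s = (X + rep k₁ * s * Cc) / (Cc * rep k₁) := by
    field_simp
  constructor
  · rw [e1]
    exact div_ne_zero hne (mul_ne_zero hCc0 hr0)
  · have hsq2 : IsSquare ((X + rep k₁ * s * Cc) * X) := hcol _ _ hne hXne hc
    have e2 : X / (Cc * rep k₁) + s =
        ((X + rep k₁ * s * Cc) * X) * (rep k₁ * (X / Cc)) * ((rep k₁ * X)⁻¹ * (rep k₁ * X)⁻¹) := by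
      field_simp
    rw [e2]
    exact (hsq2.mul hsq1).mul ⟨_, rfl⟩

end Pool.Agent.H54.Larsen
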