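import Pool.Agent.H54.Larsen.HJ
import Mathlib.Data.Set.Finite.Range

/-! A finite family of affine maps, one of which always produces squares. -/

namespace Pool.Agent.H54.Larsen

variable {L M : Type*} [Field L] [Field M]

theorem exists_family [Infinite M] (j : M →+* L) {κ : Type*} [Finite κ] (col : M → κ)
    (hcol : ∀ z z', z ≠ 0 → z' ≠ 0 → col z = col z' → IsSquare (j (z * z'))) (S : Finset M) :
    ∃ X : Set (M × M), X.Finite ∧ (∀ p ∈ X, p.2 ≠ 0) ∧
      ∀ c₀ : M, ∃ p ∈ X, ∀ s ∈ S, (c₀ + p.1) / p.2 + s ≠ 0 ∧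
        IsSquare (j ((c₀ + p.1) / p.2 + s)) := by
  classical
  -- representatives
  have hrep : ∀ k : κ, ∃ r : M, r ≠ 0 ∧ ((∃ z, z ≠ 0 ∧ col z = k) → col r = k) := by
    intro k
    by_cases h : ∃ z, z ≠ 0 ∧ col z = k
    · obtain ⟨z, hz, hzk⟩ := h
      exact ⟨z, hz, fun _ => hzk⟩
    · exact ⟨1, one_ne_zero, fun h' => absurd h' h⟩
  choose rep hrep0 hrepc using hrep
  let S' : Finset M := insert 0 (insert 1 S)
  let α := κ × S'
  let val : α → M := fun x => rep x.1 * x.2
  obtain ⟨ι, hι, hHJ⟩ := Combinatorics.Line.exists_mono_in_high_dimension α (Option κ)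
  obtain ⟨a, ha⟩ := exists_nonzero_sums (L := M) (Finset.univ : Finset ι)
  let F : (ι → Option α) × κ → M × M := fun p =>
    (∑ i ∈ Finset.univ.filter (fun i => ¬ p.1 i = none),
      (match p.1 i with | none => 0 | some b => val b) * a i,
      (∑ i ∈ Finset.univ.filter (fun i => p.1 i = none), a i) * rep p.2)
  refine ⟨{p | p ∈ Set.range F ∧ p.2 ≠ 0}, ?_, fun p hp => hp.2, ?_⟩
  · exact (Set.finite_range F).subset (fun p hp => hp.1)
  intro c₀
  obtain ⟨l, c, hl⟩ := hHJ (fun f => if c₀ + ∑ i, val (f i) * a i = 0 then none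
    else some (col (c₀ + ∑ i, val (f i) * a i)))
  set Cc := ∑ i ∈ Finset.univ.filter (fun i => l.idxFun i = none), a i with hCc
  have hCc0 : Cc ≠ 0 := by
    apply ha _ (Finset.subset_univ _)
    obtain ⟨i, hi⟩ := l.proper
    exact ⟨i, by simp [hi]⟩
  set X' := ∑ i ∈ Finset.univ.filter (fun i => ¬ l.idxFun i = none),
      (match l.idxFun i with | none => 0 | some b => val b) * a i with hX'
  set X := c₀ + X' with hXdef
  have hX : ∀ x : α, c₀ + ∑ i, val (l x i) * a i = X + val x * Cc := by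
    intro x
    rw [hXdef, add_assoc]
    congr 1
    rw [← Finset.sum_filter_add_sum_filter_not Finset.univ (fun i => l.idxFun i = none),
      add_comm, hCc, Finset.mul_sum]
    congr 1
    · apply Finset.sum_congr rfl
      intro i hi
      rw [Finset.mem_filter] at hi
      rcases hb : l.idxFun i with _ | b
      · exact absurd hb hi.2
      · rw [Combinatorics.Line.apply_some hb]
    · apply Finset.sum_congr rfl
      intro i hi
      rw [Finset.mem_filter] at hi
      rw [Combinatorics.Line.apply_none _ _ _ hi.2]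
  simp only [hX] at hl
  have h0S : (0 : M) ∈ S' := by simp [S']
  have h1S : (1 : M) ∈ S' := by simp [S']
  let k : κ := col 0
  have hXne : X ≠ 0 := by
    intro hX0
    have e0 := hl (k, ⟨0, h0S⟩)
    have e1 := hl (k, ⟨1, h1S⟩)
    simp only [val, hX0, mul_zero, zero_mul, add_zero, if_true, zero_add, mul_one] at e0 e1
    rw [if_neg (mul_ne_zero (hrep0 k) hCc0)] at e1
    rw [← e0] at e1
    exact absurd e1 (by simp)
  have hcX : c = some (col X) := by
    have e0 := hl (k, ⟨0, h0S⟩)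
    simp only [val, mul_zero, zero_mul, add_zero, if_neg hXne] at e0
    exact e0.symm
  have hz : ∀ x : α, X + val x * Cc ≠ 0 ∧ col (X + val x * Cc) = col X := by
    intro x
    have e0 := hl x
    rw [hcX] at e0
    by_cases h : X + val x * Cc = 0
    · rw [if_pos h] at e0
      exact absurd e0 (by simp)
    · rw [if_neg h] at e0
      exact ⟨h, Option.some.inj e0⟩
  set k₁ := col (X / Cc) with hk₁
  have hXC : X / Cc ≠ 0 := div_ne_zero hXne hCc0
  have hr0 := hrep0 k₁
  have hsq1 : IsSquare (j (rep k₁ * (X / Cc))) := by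
    apply hcol _ _ hr0 hXC
    rw [hrepc k₁ ⟨X / Cc, hXC, rfl⟩]
  refine ⟨(X', Cc * rep k₁), ⟨⟨(l.idxFun, k₁), rfl⟩, mul_ne_zero hCc0 hr0⟩, ?_⟩
  intro s hs
  show X / (Cc * rep k₁) + s ≠ 0 ∧ IsSquare (j (X / (Cc * rep k₁) + s))
  have hsS : s ∈ S' := by simp [S', hs]
  obtain ⟨hne, hc⟩ := hz (k₁, ⟨s, hsS⟩)
  have hval : val (k₁, ⟨s, hsS⟩) = rep k₁ * s := rfl
  rw [hval] at hne hc
  have e1 : X / (Cc * rep k₁) + s = (X + rep k₁ * s * Cc) / (Cc * rep k₁) := by
    field_simp
  constructor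
  · rw [e1]
    exact div_ne_zero hne (mul_ne_zero hCc0 hr0)
  · have hsq2 : IsSquare (j ((X + rep k₁ * s * Cc) * X)) := hcol _ _ hne hXne hc
    have e2 : X / (Cc * rep k₁) + s =
        ((X + rep k₁ * s * Cc) * X) * (rep k₁ * (X / Cc)) * ((rep k₁ * X)⁻¹ * (rep k₁ * X)⁻¹) := by
      field_simp
    rw [e2, map_mul, map_mul]
    exact (hsq2.mul hsq1).mul ⟨j (rep k₁ * X)⁻¹, map_mul _ _ _⟩

end Pool.Agent.H54.Larsen
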