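import Mathlib.LinearAlgebra.Lagrange
import Mathlib.RingTheory.Derivation.Basic
import Mathlib.GroupTheory.QuotientGroup.Basic
import Mathlib.Algebra.CharP.Two
import Mathlib.Tactic.LinearCombination

/-! Joint surjectivity of the maps `z ↦ χ (z / w)` for `w` in a large finite additive subgroup. -/

namespace Pool.Agent.H54.Larsen

open Polynomial

section
variable {K V : Type*} [Field K] [AddCommGroup V]

/-- the curve of denominators -/
def ww (t c : K) : K := c + c ^ 2 * t

lemma ww_add [CharP K 2] (t a b : K) : ww t (a + b) = ww t a + ww t b := by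
  unfold ww
  rw [CharTwo.add_sq]; ring

lemma ww_zero (t : K) : ww t 0 = 0 := by simp [ww]

lemma ww_ne_zero {D : Derivation ℤ K K} {t c : K} (ht : D t = 1) (hc : D c = 0) (h0 : c ≠ 0) :
    ww t c ≠ 0 := by
  unfold ww
  have : c + c ^ 2 * t = c * (1 + c * t) := by ring
  rw [this]
  apply mul_ne_zero h0
  intro h
  have h1 := congrArg D h
  rw [map_add, Derivation.leibniz, hc, ht] at h1
  simp at h1
  exact h0 h1

/-- joint surjectivity -/
def JS (χ : K →+ V) (t : K) (C₀ : Finset K) : Prop :=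
  ∀ A : K → V, ∃ z : K, ∀ c ∈ C₀, c ≠ 0 → χ (z * (ww t c)⁻¹) = A c

/-- the index type -/
abbrev JJ (C₀ : Finset K) := {c : C₀ // (c : K) ≠ 0} ⊕ C₀

/-- the family of multipliers -/
def yy (t : K) (C₀ : Finset K) (c' : K) : JJ C₀ → K
  | .inl c => (ww t c.1)⁻¹
  | .inr c => (ww t (c + c'))⁻¹

/-- the joint map -/
def theta (χ : K →+ V) (t : K) (C₀ : Finset K) (c' : K) : K →+ (JJ C₀ → V) where
  toFun z j := χ (z * yy t C₀ c' j)
  map_zero' := by ext j; simp
  map_add' a b := by ext j; simp [add_mul]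

/-- the linear factor -/
noncomputable def PP (t c : K) : K[X] := C (ww t c) + X + X ^ 2 * C t

lemma PP_eval [CharP K 2] (t c x : K) : (PP t c).eval x = ww t (c + x) := by
  rw [ww_add]
  simp [PP, ww, add_assoc]
  ring

lemma PP_natDegree (t c : K) : (PP t c).natDegree ≤ 2 := by
  unfold PP
  compute_degree

variable [DecidableEq K]

/-- the numerators -/
noncomputable def RR (t : K) (C₀ : Finset K) : JJ C₀ → K[X]
  | .inl c => C ((ww t c.1)⁻¹) * ∏ a ∈ C₀, PP t a
  | .inr c => ∏ a ∈ C₀.erase c, PP t a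

lemma RR_natDegree (t : K) (C₀ : Finset K) (j : JJ C₀) : (RR t C₀ j).natDegree ≤ C₀.card * 2 := by
  have h (s : Finset K) : (∏ a ∈ s, PP t a).natDegree ≤ s.card * 2 := by
    refine (natDegree_prod_le _ _).trans ?_
    refine (Finset.sum_le_card_nsmul _ _ 2 (fun a _ => PP_natDegree t a)).trans ?_
    simp
  rcases j with c | c
  · exact (natDegree_C_mul_le _ _).trans (h _)
  · refine (h _).trans ?_
    exact Nat.mul_le_mul_right _ (Finset.card_le_card (Finset.erase_subset _ _))

lemma RR_eval [CharP K 2] {t : K} {C₀ : Finset K} {c' : K}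
    (hne : ∀ c ∈ C₀, ww t (c + c') ≠ 0) (j : JJ C₀) :
    (RR t C₀ j).eval c' = (∏ a ∈ C₀, ww t (a + c')) * yy t C₀ c' j := by
  rcases j with c | c
  · simp only [RR, yy, eval_mul, eval_C, eval_prod, PP_eval]
    ring
  · simp only [RR, yy, eval_prod, PP_eval]
    rw [← Finset.mul_prod_erase C₀ _ c.2]
    field_simp [hne c c.2]

lemma key_relation [CharP K 2] {V' : Type*} [AddCommGroup V'] (χ : K →+ V) (t : K)
    (C₀ : Finset K) (s : Finset K)
    (hs : C₀.card * 2 < s.card) (hne : ∀ c' ∈ s, ∀ c ∈ C₀, ww t (c + c') ≠ 0)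
    (π : JJ C₀ → V →+ V') (hπ : ∀ c' ∈ s, ∀ z, ∑ j, π j (χ (z * yy t C₀ c' j)) = 0) (x z : K) :
    ∑ j, π j (χ (z * (RR t C₀ j).eval x)) = 0 := by
  have h1 : ∀ j, (RR t C₀ j).eval x = ∑ c' ∈ s, (RR t C₀ j).eval c' *
      (Lagrange.basis s id c').eval x := by
    intro j
    have hdeg : (RR t C₀ j).degree < s.card := by
      refine lt_of_le_of_lt degree_le_natDegree ?_
      exact_mod_cast lt_of_le_of_lt (RR_natDegree t C₀ j) hs
    have h2 := Lagrange.eq_interpolate (s := s) (v := id) (Set.injOn_id _) hdeg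
    conv_lhs => rw [h2, Lagrange.interpolate_apply]
    simp [eval_finsetSum]
  have h3 : ∀ j, π j (χ (z * (RR t C₀ j).eval x)) = ∑ c' ∈ s,
      π j (χ ((z * (Lagrange.basis s id c').eval x * ∏ a ∈ C₀, ww t (a + c')) *
        yy t C₀ c' j)) := by
    intro j
    rw [h1 j, Finset.mul_sum, map_sum, map_sum]
    apply Finset.sum_congr rfl
    intro c' hc'
    rw [RR_eval (hne c' hc')]
    congr 2
    ring
  simp_rw [h3]
  rw [Finset.sum_comm]
  apply Finset.sum_eq_zero
  intro c' hc'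
  exact hπ c' hc' _

theorem JS_step [CharP K 2] [Finite V] (χ : K →+ V) (hχ : Function.Surjective χ)
    {D : Derivation ℤ K K} {t : K} (ht : D t = 1) (hCinf : {c : K | D c = 0}.Infinite)
    (C₀ : Finset K) (h0 : 0 ∈ C₀) (hadd : ∀ a ∈ C₀, ∀ b ∈ C₀, a + b ∈ C₀)
    (hD : ∀ c ∈ C₀, D c = 0) (hJS : JS χ t C₀) :
    ∃ C₁ : Finset K, C₀.card < C₁.card ∧ 0 ∈ C₁ ∧ (∀ a ∈ C₁, ∀ b ∈ C₁, a + b ∈ C₁) ∧
      (∀ c ∈ C₁, D c = 0) ∧ JS χ t C₁ := by
  classical
  have hinf : ({c : K | D c = 0} \ C₀).Infinite := hCinf.sdiff C₀.finite_toSet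
  have hne : ∀ c' ∈ ({c : K | D c = 0} \ C₀ : Set K), ∀ c ∈ C₀, ww t (c + c') ≠ 0 := by
    rintro c' ⟨hc', hc''⟩ c hc
    apply ww_ne_zero ht
    · rw [map_add, hD c hc, hc', add_zero]
    · intro h
      apply hc''
      have : c' = c := by
        rw [← CharTwo.add_eq_zero, add_comm]; exact h
      rw [this]; exact hc
  -- some new element works
  obtain ⟨c', hc', hsurj⟩ : ∃ c' ∈ ({c : K | D c = 0} \ C₀ : Set K), (theta χ t C₀ c').range = ⊤ := by
    by_contra hcon
    push Not at hcon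
    have : Finite (AddSubgroup (JJ C₀ → V)) :=
      Finite.of_injective (fun S => (S : Set (JJ C₀ → V))) SetLike.coe_injective
    obtain ⟨S, hS⟩ : ∃ S : AddSubgroup (JJ C₀ → V),
        (({c : K | D c = 0} \ C₀) ∩ (fun c' => (theta χ t C₀ c').range) ⁻¹' {S}).Infinite := by
      by_contra hfin
      push Not at hfin
      apply hinf
      have : ({c : K | D c = 0} \ C₀ : Set K) = ⋃ S : AddSubgroup (JJ C₀ → V),
          (({c : K | D c = 0} \ C₀) ∩ (fun c' => (theta χ t C₀ c').range) ⁻¹' {S}) := by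
        ext x
        simp
      rw [this]
      exact Set.finite_iUnion hfin
    obtain ⟨s, hsub, hcard⟩ := hS.exists_subset_card_eq (C₀.card * 2 + 1)
    have hsub1 : ∀ c' ∈ s, c' ∈ ({c : K | D c = 0} \ C₀ : Set K) := fun c' h => (hsub h).1
    have hsub2 : ∀ c' ∈ s, (theta χ t C₀ c').range = S := fun c' h => (hsub h).2
    obtain ⟨c1, hc1⟩ : s.Nonempty := by
      rw [← Finset.card_pos, hcard]; omega
    have hStop : S ≠ ⊤ := by
      rw [← hsub2 c1 hc1]
      exact hcon c1 (hsub1 c1 hc1)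
    apply hStop
    let π : JJ C₀ → V →+ (JJ C₀ → V) ⧸ S := fun j =>
      (QuotientAddGroup.mk' S).comp (AddMonoidHom.single (fun _ => V) j)
    have hπsum : ∀ A : JJ C₀ → V, ∑ j, π j (A j) = QuotientAddGroup.mk' S A := by
      intro A
      show ∑ j, (QuotientAddGroup.mk' S) (Pi.single j (A j)) = _
      rw [← map_sum, Finset.univ_sum_single]
    have hπ : ∀ c' ∈ s, ∀ z, ∑ j, π j (χ (z * yy t C₀ c' j)) = 0 := by
      intro c' hc' z
      have h1 := hπsum (theta χ t C₀ c' z)
      refine Eq.trans h1 ?_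
      rw [QuotientAddGroup.mk'_apply, QuotientAddGroup.eq_zero_iff, ← hsub2 c' hc']
      exact ⟨z, rfl⟩
    have hkey := key_relation χ t C₀ s (by omega) (fun c' h => hne c' (hsub1 c' h)) π hπ
    have hzero : ∀ c0 : C₀, ∀ v : V, π (.inr c0) v = 0 := by
      intro c0 v
      have hu : (RR t C₀ (.inr c0)).eval (c0 : K) ≠ 0 := by
        simp only [RR, eval_prod, PP_eval]
        rw [Finset.prod_ne_zero_iff]
        intro a ha
        rw [Finset.mem_erase] at ha
        apply ww_ne_zero ht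
        · rw [map_add, hD _ ha.2, hD _ c0.2, add_zero]
        · intro h
          exact ha.1 (CharTwo.add_eq_zero.1 h)
      obtain ⟨z0, hz0⟩ := hχ v
      have h1 := hkey c0 (z0 * ((RR t C₀ (.inr c0)).eval (c0 : K))⁻¹)
      rw [Finset.sum_eq_single (Sum.inr c0)] at h1
      · rw [inv_mul_cancel_right₀ hu, hz0] at h1
        exact h1
      · intro j _ hj
        have : (RR t C₀ j).eval (c0 : K) = 0 := by
          rcases j with c | c
          · simp only [RR, eval_mul, eval_prod, PP_eval]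
            rw [Finset.prod_eq_zero c0.2, mul_zero]
            rw [CharTwo.add_self_eq_zero, ww_zero]
          · simp only [RR, eval_prod, PP_eval]
            have hcc : (c0 : K) ∈ C₀.erase c := by
              rw [Finset.mem_erase]
              refine ⟨fun h => hj ?_, c0.2⟩
              rw [Subtype.ext h]
            rw [Finset.prod_eq_zero hcc]
            rw [CharTwo.add_self_eq_zero, ww_zero]
        rw [this, mul_zero, map_zero, map_zero]
      · intro h; exact absurd (Finset.mem_univ _) h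
    rw [AddSubgroup.eq_top_iff']
    intro A
    obtain ⟨z, hz⟩ := hJS (fun c => if h : ∃ hc : c ∈ C₀, c ≠ 0 then A (.inl ⟨⟨c, h.1⟩, h.2⟩) else 0)
    have h2 : ∀ j, π j (A j) = π j (χ (z * yy t C₀ c1 j)) := by
      rintro (c | c)
      · congr 1
        have := hz c.1.1 c.1.2 c.2
        simp only [yy]
        rw [this, dif_pos ⟨c.1.2, c.2⟩]
      · rw [hzero, hzero]
    rw [← QuotientAddGroup.eq_zero_iff, ← QuotientAddGroup.mk'_apply, ← hπsum A,
      Finset.sum_congr rfl (fun j _ => h2 j)]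
    exact hπ c1 hc1 z
  -- the new group
  have hc'D : D c' = 0 := hc'.1
  have hc'n : c' ∉ C₀ := hc'.2
  refine ⟨C₀ ∪ C₀.image (fun c => c + c'), ?_, ?_, ?_, ?_, ?_⟩
  · apply Finset.card_lt_card
    rw [Finset.ssubset_iff]
    refine ⟨c', hc'n, ?_⟩
    rw [Finset.insert_subset_iff]
    refine ⟨?_, Finset.subset_union_left⟩
    rw [Finset.mem_union, Finset.mem_image]
    right
    exact ⟨0, h0, by simp⟩
  · exact Finset.mem_union_left _ h0
  · intro a ha b hb
    simp only [Finset.mem_union, Finset.mem_image] at ha hb ⊢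
    rcases ha with ha | ⟨a0, ha0, rfl⟩ <;> rcases hb with hb | ⟨b0, hb0, rfl⟩
    · left; exact hadd a ha b hb
    · right; exact ⟨a + b0, hadd a ha b0 hb0, by ring⟩
    · right; exact ⟨a0 + b, hadd a0 ha0 b hb, by ring⟩
    · left
      have : a0 + c' + (b0 + c') = a0 + b0 := by
        have := CharTwo.add_self_eq_zero c'
        linear_combination this
      rw [this]; exact hadd a0 ha0 b0 hb0
  · intro a ha
    simp only [Finset.mem_union, Finset.mem_image] at ha
    rcases ha with ha | ⟨a0, ha0, rfl⟩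
    · exact hD a ha
    · rw [map_add, hD a0 ha0, hc'D, add_zero]
  · intro A
    obtain ⟨z, hz⟩ : ∃ z, theta χ t C₀ c' z = fun j => match j with
        | .inl c => A c.1
        | .inr c => A (c + c') := by
      have : (fun j => match j with
        | .inl c => A c.1
        | .inr c => A (c + c') : JJ C₀ → V) ∈ (theta χ t C₀ c').range := by
        rw [hsurj]; trivial
      exact this
    refine ⟨z, ?_⟩
    intro a ha ha0
    simp only [Finset.mem_union, Finset.mem_image] at ha
    rcases ha with ha | ⟨a0, ha1, rfl⟩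
    · exact congrFun hz (.inl ⟨⟨a, ha⟩, ha0⟩)
    · exact congrFun hz (.inr ⟨a0, ha1⟩)

theorem exists_JS [CharP K 2] [Finite V] (χ : K →+ V) (hχ : Function.Surjective χ)
    {D : Derivation ℤ K K} {t : K} (ht : D t = 1) (hCinf : {c : K | D c = 0}.Infinite) (n : ℕ) :
    ∃ C₀ : Finset K, n ≤ C₀.card ∧ 0 ∈ C₀ ∧ (∀ a ∈ C₀, ∀ b ∈ C₀, a + b ∈ C₀) ∧
      (∀ c ∈ C₀, D c = 0) ∧ JS χ t C₀ := by
  induction n with
  | zero =>
    refine ⟨{0}, by simp, by simp, by simp, by simp, ?_⟩
    intro A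
    refine ⟨0, ?_⟩
    intro c hc hc0
    exact absurd (Finset.mem_singleton.1 hc) hc0
  | succ n ih =>
    obtain ⟨C₀, hn, h0, hadd, hD, hJS⟩ := ih
    obtain ⟨C₁, hlt, h1⟩ := JS_step χ hχ ht hCinf C₀ h0 hadd hD hJS
    exact ⟨C₁, by omega, h1⟩

end

end Pool.Agent.H54.Larsen
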