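import Pool.Agent.H54.Larsen.Assembly2
import Pool.Agent.H54.Larsen.Deriv

/-! The main theorem. -/

namespace Pool.Agent.H54.Larsen

open WeierstrassCurve

lemma exists_base_derivation' {F : Type*} [Field F] (p : ℕ) [hp : Fact p.Prime] [CharP F p]
    (hF : (Infinite F ∧ Field.FG F) ∨ ¬ PerfectField F) :
    ∃ D : Derivation ℤ F F, ∃ t : F, D t = 1 := by
  rcases hF with ⟨h1, h2⟩ | h
  · exact exists_base_derivation p
  · by_contra hcon
    apply h
    have hsurj : Function.Surjective (frobenius F p) := by
      intro z
      obtain ⟨y, hy⟩ := exists_pow_eq_of_derivation p z (by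
        intro D
        by_contra hD
        apply hcon
        refine ⟨(D z)⁻¹ • D, z, ?_⟩
        show (D z)⁻¹ • D z = 1
        rw [smul_eq_mul, inv_mul_cancel₀ hD])
      exact ⟨y, by rw [frobenius_def, hy]⟩
    have : PerfectRing F p := PerfectRing.ofSurjective F p hsurj
    exact PerfectRing.toPerfectField F p

theorem main {F : Type*} [Field F] (p : ℕ) [hp : Fact p.Prime] [CharP F p]
    (hF : (Infinite F ∧ Field.FG F) ∨ ¬ PerfectField F)
    (Γ : Subgroup (SeparableClosure F ≃ₐ[F] SeparableClosure F)) (hΓ : Γ.FG)
    [DecidableEq (IntermediateField.fixedField Γ)]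
    (W : WeierstrassCurve (IntermediateField.fixedField Γ))
    [W.IsElliptic] : Cardinal.aleph0 ≤ Module.rank ℤ W.toAffine.Point := by
  obtain ⟨D₀, t, ht⟩ := exists_base_derivation' p hF
  obtain ⟨D, hD⟩ := exists_extend_derivation (L := SeparableClosure F) D₀
  have hcomm := derivation_comm D₀ D hD
  have hFG : Group.FG Γ := (Group.fg_iff_subgroup_fg Γ).2 hΓ
  have hCΩ : CharP (SeparableClosure F) p :=
    charP_of_injective_ringHom (algebraMap F (SeparableClosure F)).injective p
  have hCK : CharP (IntermediateField.fixedField Γ) p :=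
    charP_of_injective_ringHom (algebraMap F (IntermediateField.fixedField Γ)).injective p
  let ι : IntermediateField.fixedField Γ →+* SeparableClosure F :=
    algebraMap (IntermediateField.fixedField Γ) (SeparableClosure F)
  have hι : ∀ z : SeparableClosure F, (∀ g : Γ, g • z = z) → z ∈ ι.range := by
    intro z hz
    exact ⟨⟨z, hz⟩, rfl⟩
  have hι' : ∀ (g : Γ) (z : IntermediateField.fixedField Γ), g • ι z = ι z := fun g z => z.2 g
  have hDg : ∀ (g : Γ) (z : SeparableClosure F), D (g • z) = g • D z := fun g z => hcomm g.1 z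
  have htK : D (ι (algebraMap F (IntermediateField.fixedField Γ) t)) = 1 := by
    have : ι (algebraMap F (IntermediateField.fixedField Γ) t) =
      algebraMap F (SeparableClosure F) t := rfl
    rw [this, hD, ht, map_one]
  by_cases hp2 : p = 2
  · subst hp2
    exact rank_char_two (G := Γ) ι hι hι' D hDg _ htK W
  · exact rank_odd (G := Γ) p hp2 ι hι hι' D hDg _ htK W

end Pool.Agent.H54.Larsen
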