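import Pool.Agent.H54.Larsen.PartTwo
import Pool.Agent.H54.Larsen.Finiteness

/-! Assembly in characteristic zero. -/

namespace Pool.Agent.H54.Larsen

open WeierstrassCurve

universe u

section
variable {K : Type*} {Ω : Type u} [Field K] [Field Ω] {G : Type*} [Group G]
  [MulSemiringAction G Ω]

theorem rank_char_zero [DecidableEq K] [CharZero K] [CharZero Ω] [IsSepClosed Ω] [Group.FG G]
    (ι : K →+* Ω) (hι : ∀ z : Ω, (∀ g : G, g • z = z) → z ∈ ι.range)
    (hι' : ∀ (g : G) (z : K), g • ι z = ι z)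
    (W : Affine K) [W.IsElliptic] : Cardinal.aleph0 ≤ Module.rank ℤ W.Point := by
  classical
  by_contra hrank
  rw [not_le] at hrank
  obtain ⟨sW, hsW, hsWT⟩ := exists_finite_of_rank_lt hrank
  have h2 : (2 : Ω) ≠ 0 := two_ne_zero
  -- the roots
  let WΩ : WeierstrassCurve Ω := W.map ι
  have hWΩ : WΩ.IsElliptic := inferInstanceAs (W.map ι).IsElliptic
  obtain ⟨x₀, y₀, z₀, hb2, hb4, hb6⟩ := two_torsion_roots h2 WΩ
  let ε : Fin 3 → Ω := ![x₀, y₀, z₀]
  have hperm : ∀ g : G, ∃ τ : Fin 3 → Fin 3, g • ε = ε ∘ τ := by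
    intro g
    have h4 : (4 : Ω) ≠ 0 := by
      have : (4 : Ω) = 2 * 2 := by norm_num
      rw [this]; exact mul_ne_zero h2 h2
    have hroot : ∀ i, ∃ j, g • ε i = ε j := by
      intro i
      have e0 : 4 * (ε i) ^ 3 + WΩ.b₂ * (ε i) ^ 2 + 2 * WΩ.b₄ * (ε i) + WΩ.b₆ = 0 := by
        rw [hb2, hb4, hb6]
        fin_cases i <;> simp [ε] <;> ring
      have e1 : 4 * (g • ε i) ^ 3 + WΩ.b₂ * (g • ε i) ^ 2 + 2 * WΩ.b₄ * (g • ε i) + WΩ.b₆ = 0 := by
        have h5 := congrArg (fun v => g • v) e0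
        have ga : ∀ a : K, g • ι a = ι a := hι' g
        have g4 : g • (4 : Ω) = 4 := map_ofNat (MulSemiringAction.toRingHom G Ω g) 4
        have g2 : g • (2 : Ω) = 2 := map_ofNat (MulSemiringAction.toRingHom G Ω g) 2
        have gb2 : g • WΩ.b₂ = WΩ.b₂ := by
          show g • (W.map ι).b₂ = (W.map ι).b₂
          rw [map_b₂, ga]
        have gb4 : g • WΩ.b₄ = WΩ.b₄ := by
          show g • (W.map ι).b₄ = (W.map ι).b₄
          rw [map_b₄, ga]
        have gb6 : g • WΩ.b₆ = WΩ.b₆ := by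
          show g • (W.map ι).b₆ = (W.map ι).b₆
          rw [map_b₆, ga]
        simp only [smul_add, smul_mul', smul_pow', smul_zero, g4, g2, gb2, gb4, gb6] at h5
        exact h5
      have e2 : 4 * ((g • ε i - x₀) * ((g • ε i - y₀) * (g • ε i - z₀))) = 0 := by
        rw [hb2, hb4, hb6] at e1
        linear_combination e1
      rcases mul_eq_zero.1 e2 with h5 | h5
      · exact absurd h5 h4
      · rcases mul_eq_zero.1 h5 with h6 | h6
        · exact ⟨0, sub_eq_zero.1 h6⟩
        · rcases mul_eq_zero.1 h6 with h7 | h7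
          · exact ⟨1, sub_eq_zero.1 h7⟩
          · exact ⟨2, sub_eq_zero.1 h7⟩
    choose τ hτ using hroot
    exact ⟨τ, funext hτ⟩
  -- the subgroup
  let N₀ : Subgroup G := MulAction.stabilizer G ε
  have hN₀ : N₀.FiniteIndex := by
    have h1 : (MulAction.orbit G ε).Finite := by
      apply Set.Finite.subset (Set.finite_range (fun τ : Fin 3 → Fin 3 => ε ∘ τ))
      rintro _ ⟨g, rfl⟩
      obtain ⟨τ, hτ⟩ := hperm g
      exact ⟨τ, hτ.symm⟩
    have : Finite (MulAction.orbit G ε) := h1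
    have : Finite (G ⧸ N₀) := Finite.of_equiv _ (MulAction.orbitEquivQuotientStabilizer G ε)
    exact Subgroup.finiteIndex_of_finite_quotient
  let N : Subgroup G := N₀.normalCore
  have hNn : N.Normal := N₀.normalCore_normal
  have hNf : N.FiniteIndex := inferInstanceAs N₀.normalCore.FiniteIndex
  have hNε : ∀ (n : N) (i : Fin 3), n • ε i = ε i := by
    intro n i
    have h1 : (n : G) ∈ N₀ := N₀.normalCore_le n.2
    exact congrFun h1 i
  have hNFG : Group.FG N := inferInstance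
  let L : Subfield Ω := FixedPoints.subfield N Ω
  have hLinv : IsInvariantSubfield G L := invariant_fixed N
  let _ : MulSemiringAction G L := IsInvariantSubfield.toMulSemiringAction G L
  let ρ : G →* RingAut L := MulSemiringAction.toRingAut G L
  have hker : N ≤ ρ.ker := by
    intro n hn
    rw [MonoidHom.mem_ker]
    ext z
    exact z.2 ⟨n, hn⟩
  have : ρ.ker.FiniteIndex := Subgroup.finiteIndex_of_le hker
  have hQfin : Finite ρ.range := Finite.of_equiv _ (QuotientGroup.quotientKerEquivRange ρ).toEquiv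
  have : Fintype ρ.range := Fintype.ofFinite _
  -- restriction to L
  have hιL : ∀ z : K, ι z ∈ L := fun z n => hι' (n : G) z
  let ιL : K →+* L := ι.codRestrict L hιL
  let VL : Affine L := W.map ιL
  have hVLe : VL.IsElliptic := inferInstanceAs (W.map ιL).IsElliptic
  have hqι : ∀ (q : ρ.range) (a : K), q • ιL a = ιL a := by
    rintro ⟨_, g, rfl⟩ a
    exact Subtype.ext (hι' g a)
  have hVQ : ∀ q : ρ.range, VL.map (MulSemiringAction.toRingHom ρ.range L q) = VL :=
    fun q => map_map' W ιL _ ιL (hqι q)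
  have hfaith : ∀ q : ρ.range, q ≠ 1 → ∃ z : L, q • z ≠ z := by
    intro q hq
    by_contra hcon
    push Not at hcon
    apply hq
    apply Subtype.ext
    ext z
    exact congrArg Subtype.val (hcon z)
  obtain ⟨S, hSfin, col, hcol⟩ := square_classes h2 N
  have : Finite S := hSfin
  have hWLΩ : WeierstrassCurve.map VL L.subtype = WΩ := map_map' W ιL L.subtype ι (fun _ => rfl)
  let eL : Fin 3 → L := fun i => ⟨ε i, fun n => hNε n i⟩
  have hb2L : VL.b₂ = 4 * -(eL 0 + eL 1 + eL 2) := by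
    apply L.subtype.injective
    rw [← map_b₂, hWLΩ, hb2]
    rfl
  have hb4L : 2 * VL.b₄ = 4 * (eL 0 * eL 1 + eL 0 * eL 2 + eL 1 * eL 2) := by
    apply L.subtype.injective
    rw [map_mul, ← map_b₄, hWLΩ, map_ofNat, hb4]
    rfl
  have hb6L : VL.b₆ = 4 * -(eL 0 * eL 1 * eL 2) := by
    apply L.subtype.injective
    rw [← map_b₆, hWLΩ, hb6]
    rfl
  -- the finitely generated field
  obtain ⟨θ, hθ⟩ := exists_theta hfaith
  let A₀ : Set L := {θ, ιL W.a₁, ιL W.a₂, ιL W.a₃, ιL W.a₄, ιL W.a₆, eL 0, eL 1, eL 2} ∪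
    ⋃ P ∈ sW, {a : L | ∃ x y h, P = Affine.Point.some x y h ∧ (a = ιL x ∨ a = ιL y)}
  have hA₀ : A₀.Finite := by
    refine Set.Finite.union (by simp) (hsW.biUnion ?_)
    intro P _
    rcases P with _ | ⟨x, y, h⟩
    · apply Set.Finite.subset Set.finite_empty
      rintro a ⟨x, y, h, h1, _⟩
      exact absurd h1.symm (Affine.Point.some_ne_zero _)
    · apply Set.Finite.subset ((Set.finite_singleton (ιL y)).insert (ιL x))
      rintro a ⟨x', y', h', h1, h3⟩
      simp only [Affine.Point.some.injEq] at h1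
      rw [h1.1, h1.2]
      simpa using h3
  let A : Set L := ⋃ q : ρ.range, (fun a => q • a) '' A₀
  have hAfin : A.Finite := Set.finite_iUnion (fun q => hA₀.image _)
  have hAQ : ∀ q : ρ.range, ∀ a ∈ A, q • a ∈ A := by
    intro q a ha
    obtain ⟨q', a', ha', rfl⟩ := Set.mem_iUnion.1 ha
    exact Set.mem_iUnion.2 ⟨q * q', a', ha', mul_smul q q' a'⟩
  let M : Subfield L := Subfield.closure A
  have hMFG : Field.FG M := fg_closure A hAfin
  have hMQ : IsInvariantSubfield ρ.range M := invariant_closure A hAQ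
  have hA₀M : ∀ a ∈ A₀, a ∈ M := by
    intro a ha
    apply Subfield.subset_closure
    exact Set.mem_iUnion.2 ⟨1, a, ha, one_smul _ a⟩
  let VM : Affine M :=
    { a₁ := ⟨ιL W.a₁, hA₀M _ (by simp [A₀])⟩
      a₂ := ⟨ιL W.a₂, hA₀M _ (by simp [A₀])⟩
      a₃ := ⟨ιL W.a₃, hA₀M _ (by simp [A₀])⟩
      a₄ := ⟨ιL W.a₄, hA₀M _ (by simp [A₀])⟩
      a₆ := ⟨ιL W.a₆, hA₀M _ (by simp [A₀])⟩ }
  have hVM : VM.map M.subtype = VL := rfl
  have heM : ∀ i, eL i ∈ M := by
    intro i
    apply hA₀M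
    fin_cases i <;> simp [A₀]
  have hsM : ∀ P ∈ AddSubgroup.closure sW, mapHom ιL rfl P ∈ (mapHom M.subtype hVM).range := by
    intro P hP
    have h1 : AddSubgroup.closure sW ≤ (mapHom M.subtype hVM).range.comap (mapHom ιL rfl) := by
      rw [AddSubgroup.closure_le]
      intro P hP
      show mapHom ιL rfl P ∈ (mapHom M.subtype hVM).range
      rcases P with _ | ⟨x, y, h⟩
      · exact ⟨0, rfl⟩
      · rw [mapHom_some]
        apply mem_range_mapHom
        · exact hA₀M _ (Or.inr (Set.mem_biUnion hP ⟨x, y, h, rfl, Or.inl rfl⟩))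
        · exact hA₀M _ (Or.inr (Set.mem_biUnion hP ⟨x, y, h, rfl, Or.inr rfl⟩))
    exact h1 hP
  refine part_one M ⟨θ, hA₀M _ (by simp [A₀])⟩
    (fun q hq h => hθ q hq (congrArg Subtype.val h)) VM VL hVM hVQ
    (fun i => ⟨eL i, heM i⟩) ?_ col hcol ?_
  · intro x
    rw [hb2L, hb4L, hb6L, Fin.prod_univ_three]
    ring
  · intro T hT
    obtain ⟨T', hT'⟩ : ∃ T' : W.Point, mapHom ιL rfl T' = T := by
      rcases T with _ | ⟨x, y, h⟩
      · exact ⟨0, rfl⟩
      · have hxy : ∀ g : G, g • (x : Ω) = x ∧ g • (y : Ω) = y := by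
          intro g
          have h1 := hT ⟨ρ g, g, rfl⟩
          unfold act at h1
          rw [mapHom_some] at h1
          simp only [Affine.Point.some.injEq] at h1
          exact ⟨congrArg Subtype.val h1.1, congrArg Subtype.val h1.2⟩
        obtain ⟨xK, hxK⟩ := hι x (fun g => (hxy g).1)
        obtain ⟨yK, hyK⟩ := hι y (fun g => (hxy g).2)
        obtain rfl : ιL xK = x := Subtype.ext hxK
        obtain rfl : ιL yK = y := Subtype.ext hyK
        have hns : W.Nonsingular xK yK := (W.map_nonsingular ιL.injective xK yK).1 h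
        exact ⟨.some xK yK hns, rfl⟩
    obtain ⟨n, hn, hnT⟩ := hsWT T'
    refine ⟨n, hn, ?_⟩
    rw [← hT', ← map_nsmul]
    exact hsM _ hnT

end

end Pool.Agent.H54.Larsen
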