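import Pool.Agent.H54.Larsen.Main
import Pool.Agent.H54.Larsen.RankZero

/-! The main theorem in all characteristics. -/

namespace Pool.Agent.H54.Larsen

open WeierstrassCurve

theorem main_all {F : Type*} [Field F]
    (hF : (Infinite F ∧ Field.FG F) ∨ CharZero F ∨ ¬ PerfectField F)
    (Γ : Subgroup (SeparableClosure F ≃ₐ[F] SeparableClosure F)) (hΓ : Γ.FG)
    [DecidableEq (IntermediateField.fixedField Γ)]
    (W : WeierstrassCurve (IntermediateField.fixedField Γ))
    [W.IsElliptic] : Cardinal.aleph0 ≤ Module.rank ℤ W.toAffine.Point := by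
  rcases CharP.exists' F with h0 | ⟨p, hp, hc⟩
  · have hFG : Group.FG Γ := (Group.fg_iff_subgroup_fg Γ).2 hΓ
    have hCΩ : CharZero (SeparableClosure F) :=
      charZero_of_injective_ringHom (algebraMap F (SeparableClosure F)).injective
    have hCK : CharZero (IntermediateField.fixedField Γ) :=
      charZero_of_injective_ringHom (algebraMap F (IntermediateField.fixedField Γ)).injective
    let ι : IntermediateField.fixedField Γ →+* SeparableClosure F :=
      algebraMap (IntermediateField.fixedField Γ) (SeparableClosure F)
    have hι : ∀ z : SeparableClosure F, (∀ g : Γ, g • z = z) → z ∈ ι.range := by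
      intro z hz
      exact ⟨⟨z, hz⟩, rfl⟩
    have hι' : ∀ (g : Γ) (z : IntermediateField.fixedField Γ), g • ι z = ι z :=
      fun g z => z.2 g
    exact rank_char_zero (G := Γ) ι hι hι' W
  · refine main p ?_ Γ hΓ W
    rcases hF with h | h | h
    · exact Or.inl h
    · exact absurd (CharP.cast_eq_zero F p) (by exact_mod_cast hp.out.ne_zero)
    · exact Or.inr h

end Pool.Agent.H54.Larsen
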