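import Mathlib.Algebra.Field.Subfield.Basic
import Mathlib.Tactic.FieldSimp
import Mathlib.Tactic.Ring
import Mathlib.Tactic.LinearCombination

/-! Adjoining square roots one at a time. -/

namespace Pool.Agent.H54.Larsen

variable {L : Type*} [Field L]

/-- adjoining one square root -/
def quadSub (S : Subfield L) (s : L) (hs : s * s ∈ S) : Subfield L where
  carrier := {z | ∃ a ∈ S, ∃ b ∈ S, z = a + b * s}
  zero_mem' := ⟨0, S.zero_mem, 0, S.zero_mem, by ring⟩
  one_mem' := ⟨1, S.one_mem, 0, S.zero_mem, by ring⟩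
  add_mem' := by
    rintro _ _ ⟨a, ha, b, hb, rfl⟩ ⟨c, hc, d, hd, rfl⟩
    exact ⟨a + c, S.add_mem ha hc, b + d, S.add_mem hb hd, by ring⟩
  mul_mem' := by
    rintro _ _ ⟨a, ha, b, hb, rfl⟩ ⟨c, hc, d, hd, rfl⟩
    exact ⟨a * c + b * d * (s * s), S.add_mem (S.mul_mem ha hc) (S.mul_mem (S.mul_mem hb hd) hs),
      a * d + b * c, S.add_mem (S.mul_mem ha hd) (S.mul_mem hb hc), by ring⟩
  neg_mem' := by
    rintro _ ⟨a, ha, b, hb, rfl⟩
    exact ⟨-a, S.neg_mem ha, -b, S.neg_mem hb, by ring⟩
  inv_mem' := by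
    rintro _ ⟨a, ha, b, hb, rfl⟩
    by_cases h0 : a + b * s = 0
    · rw [h0, inv_zero]
      exact ⟨0, S.zero_mem, 0, S.zero_mem, by ring⟩
    by_cases h1 : a * a - b * b * (s * s) = 0
    · have h2 : a - b * s = 0 := by
        have : (a + b * s) * (a - b * s) = 0 := by linear_combination h1
        rcases mul_eq_zero.1 this with h | h
        · exact absurd h h0
        · exact h
      refine ⟨(a + a)⁻¹, S.inv_mem (S.add_mem ha ha), 0, S.zero_mem, ?_⟩
      have : a + b * s = a + a := by linear_combination -h2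
      rw [this]; ring
    · refine ⟨a * (a * a - b * b * (s * s))⁻¹, S.mul_mem ha (S.inv_mem (S.sub_mem
        (S.mul_mem ha ha) (S.mul_mem (S.mul_mem hb hb) hs))),
        -b * (a * a - b * b * (s * s))⁻¹, S.mul_mem (S.neg_mem hb) (S.inv_mem (S.sub_mem
        (S.mul_mem ha ha) (S.mul_mem (S.mul_mem hb hb) hs))), ?_⟩
      apply inv_eq_of_mul_eq_one_right
      have h2 : (a + b * s) * (a * (a * a - b * b * (s * s))⁻¹
          + -b * (a * a - b * b * (s * s))⁻¹ * s)
          = (a * a - b * b * (s * s)) * (a * a - b * b * (s * s))⁻¹ := by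
        ring
      rw [h2, mul_inv_cancel₀ h1]

lemma le_quadSub (S : Subfield L) (s : L) (hs : s * s ∈ S) : S ≤ quadSub S s hs :=
  fun a ha => ⟨a, ha, 0, S.zero_mem, by ring⟩

lemma mem_quadSub (S : Subfield L) (s : L) (hs : s * s ∈ S) : s ∈ quadSub S s hs :=
  ⟨0, S.zero_mem, 1, S.one_mem, by ring⟩

lemma quad_unique {S : Subfield L} {s : L} (hsS : s ∉ S) {a b a' b' : L} (ha : a ∈ S) (hb : b ∈ S)
    (ha' : a' ∈ S) (hb' : b' ∈ S) (h : a + b * s = a' + b' * s) : a = a' ∧ b = b' := by
  have hbb : b = b' := by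
    by_contra hne
    apply hsS
    have h1 : b - b' ≠ 0 := sub_ne_zero.2 hne
    have h2 : s = (a' - a) * (b - b')⁻¹ := by
      field_simp
      linear_combination h
    rw [h2]
    exact S.mul_mem (S.sub_mem ha' ha) (S.inv_mem (S.sub_mem hb hb'))
  subst hbb
  exact ⟨add_right_cancel h, rfl⟩

/-- conjugation, as a function -/
noncomputable def conjFun (S : Subfield L) (s : L) (hs : s * s ∈ S)
    (z : quadSub S s hs) : L := z.2.choose - z.2.choose_spec.2.choose * s

lemma conjFun_eq {S : Subfield L} {s : L} (hs : s * s ∈ S) (hsS : s ∉ S)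
    (z : quadSub S s hs) {a b : L} (ha : a ∈ S) (hb : b ∈ S) (h : (z : L) = a + b * s) :
    conjFun S s hs z = a - b * s := by
  have h1 := z.2.choose_spec.1
  have h2 := z.2.choose_spec.2.choose_spec
  obtain ⟨e1, e2⟩ := quad_unique hsS h1 h2.1 ha hb (h2.2.symm.trans h)
  exact congrArg₂ (fun x y => x - y * s) e1 e2

/-- conjugation -/
noncomputable def conjHom (S : Subfield L) (s : L) (hs : s * s ∈ S) (hsS : s ∉ S) :
    quadSub S s hs →+* L where
  toFun := conjFun S s hs
  map_zero' := by
    rw [conjFun_eq hs hsS 0 S.zero_mem S.zero_mem (by simp)]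
    simp
  map_one' := by
    rw [conjFun_eq hs hsS 1 S.one_mem S.zero_mem (by simp)]
    simp
  map_add' := by
    intro x y
    obtain ⟨a, ha, b, hb, e⟩ := x.2
    obtain ⟨c, hc, d, hd, e'⟩ := y.2
    rw [conjFun_eq hs hsS x ha hb e, conjFun_eq hs hsS y hc hd e',
      conjFun_eq hs hsS (x + y) (S.add_mem ha hc) (S.add_mem hb hd) (by
        show (x : L) + y = _
        rw [e, e']; ring)]
    ring
  map_mul' := by
    intro x y
    obtain ⟨a, ha, b, hb, e⟩ := x.2
    obtain ⟨c, hc, d, hd, e'⟩ := y.2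
    rw [conjFun_eq hs hsS x ha hb e, conjFun_eq hs hsS y hc hd e',
      conjFun_eq hs hsS (x * y)
      (S.add_mem (S.mul_mem ha hc) (S.mul_mem (S.mul_mem hb hd) hs))
      (S.add_mem (S.mul_mem ha hd) (S.mul_mem hb hc)) (by
        show (x : L) * y = _
        rw [e, e']; ring)]
    ring

lemma conjHom_apply (S : Subfield L) (s : L) (hs : s * s ∈ S) (hsS : s ∉ S)
    (z : quadSub S s hs) {a b : L} (ha : a ∈ S) (hb : b ∈ S) (h : (z : L) = a + b * s) :
    conjHom S s hs hsS z = a - b * s := conjFun_eq hs hsS z ha hb h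

/-- Adjoining square roots of elements of a multiplicative set `E` does not create new square
roots of elements outside `E`. -/
theorem exists_multiquad (h2 : (2 : L) ≠ 0) (M : Subfield L) (E : Set L)
    (hE1 : ∀ a ∈ M, a ≠ 0 → a * a ∈ E) (hEM : ∀ a ∈ E, a ∈ M ∧ a ≠ 0)
    (hE2 : ∀ a ∈ E, ∀ b ∈ E, a * b ∈ E)
    (T : Finset L) (hT : ∀ s ∈ T, s * s ∈ E) :
    ∃ M' : Subfield L, M ≤ M' ∧ (∀ s ∈ T, s ∈ M') ∧
      ∀ z ∈ M', z ≠ 0 → z * z ∈ M → z * z ∈ E := by
  classical
  induction T using Finset.induction_on with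
  | empty => exact ⟨M, le_rfl, by simp, fun z hz h0 _ => hE1 z hz h0⟩
  | insert s T hs ih =>
    obtain ⟨M', hM, hTM, hz⟩ := ih (fun s hs => hT s (Finset.mem_insert_of_mem hs))
    have hsE := hT s (Finset.mem_insert_self _ _)
    have hsM : s * s ∈ M := (hEM _ hsE).1
    have hs0 : s ≠ 0 := by
      rintro rfl
      exact (hEM _ hsE).2 (by ring)
    by_cases hsM' : s ∈ M'
    · refine ⟨M', hM, ?_, hz⟩
      intro r hr
      rcases Finset.mem_insert.1 hr with rfl | h
      · exact hsM'
      · exact hTM r h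
    · refine ⟨quadSub M' s (hM hsM), hM.trans (le_quadSub _ _ _), ?_, ?_⟩
      · intro r hr
        rcases Finset.mem_insert.1 hr with rfl | h
        · exact mem_quadSub _ _ _
        · exact le_quadSub _ _ _ (hTM r h)
      · rintro _ ⟨a, ha, b, hb, rfl⟩ h0 hzz
        have h3 : a * b = 0 := by
          by_contra hne
          apply hsM'
          have h4 : s = ((a + b * s) * (a + b * s) - a * a - b * b * (s * s)) * (2 * (a * b))⁻¹ := by
            have ha0 : a ≠ 0 := left_ne_zero_of_mul hne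
            have hb0 : b ≠ 0 := right_ne_zero_of_mul hne
            field_simp
            ring
          rw [h4]
          apply M'.mul_mem
          · exact M'.sub_mem (M'.sub_mem (hM hzz) (M'.mul_mem ha ha))
              (M'.mul_mem (M'.mul_mem hb hb) (hM hsM))
          · apply M'.inv_mem
            apply M'.mul_mem _ (M'.mul_mem ha hb)
            exact ofNat_mem M' 2
        rcases mul_eq_zero.1 h3 with h4 | h4
        · subst h4
          rw [zero_add] at h0 hzz ⊢
          have hb0 : b ≠ 0 := left_ne_zero_of_mul h0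
          have hbb : b * b ∈ M := by
            have : b * b = (b * s) * (b * s) * (s * s)⁻¹ := by field_simp
            rw [this]
            exact M.mul_mem hzz (M.inv_mem hsM)
          have h5 := hz b hb hb0 hbb
          have h6 : (b * s) * (b * s) = (b * b) * (s * s) := by ring
          rw [h6]
          exact hE2 _ h5 _ hsE
        · subst h4
          rw [zero_mul, add_zero] at h0 hzz ⊢
          exact hz a ha h0 hzz

end Pool.Agent.H54.Larsen
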