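import Pool.Agent.H54.Larsen.Choice
import Pool.Agent.H54.Larsen.Quad
import Pool.Agent.H54.Larsen.HJ2
import Pool.Agent.H54.Larsen.Doubling
import Pool.Agent.H54.Larsen.Odd
import Pool.Agent.H54.Larsen.Assembly2

/-! The contradiction in characteristic zero. -/

namespace Pool.Agent.H54.Larsen

open WeierstrassCurve WithZero

universe u

lemma exists_pos_bound (s : Set ℤᵐ⁰) (hs : s.Finite) : ∃ B : ℤᵐ⁰, 1 ≤ B ∧ ∀ a ∈ s, a ≤ B := by
  obtain ⟨B, hB⟩ := (hs.insert 1).bddAbove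
  exact ⟨B, hB (Set.mem_insert _ _), fun a ha => hB (Set.mem_insert_of_mem _ ha)⟩

lemma w_cubic {M : Type*} [Field M] (w : Valuation M ℤᵐ⁰) (hw2 : w 2 = 1) {b2 b4 b6 y : M}
    (h1 : 1 < w y) (h2 : w b2 < w y) (h4 : w b4 < w y) (h6 : w b6 < w y) :
    w (4 * y ^ 3 + b2 * y ^ 2 + 2 * b4 * y + b6) = w y ^ 3 := by
  have hw4 : w 4 = 1 := by
    have : (4 : M) = 2 * 2 := by norm_num
    rw [this, map_mul, hw2, mul_one]
  have hy0 : 0 < w y := zero_lt_one.trans h1
  have e1 : w (4 * y ^ 3) = w y ^ 3 := by rw [map_mul, map_pow, hw4, one_mul]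
  have t2 : w (b2 * y ^ 2) < w y ^ 3 := by
    rw [map_mul, map_pow]
    calc w b2 * w y ^ 2 < w y * w y ^ 2 := mul_lt_mul_of_pos_right h2 (pow_pos hy0 2)
      _ = w y ^ 3 := (pow_succ' _ _).symm
  have t4 : w (2 * b4 * y) < w y ^ 3 := by
    rw [map_mul, map_mul, hw2, one_mul]
    calc w b4 * w y < w y * w y := mul_lt_mul_of_pos_right h4 hy0
      _ = w y ^ 2 := (pow_two _).symm
      _ ≤ w y ^ 3 := pow_le_pow_right₀ h1.le (by norm_num)
  have t6 : w b6 < w y ^ 3 := by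
    calc w b6 < w y := h6
      _ = w y ^ 1 := (pow_one _).symm
      _ ≤ w y ^ 3 := pow_le_pow_right₀ h1.le (by norm_num)
  have e2 : w (4 * y ^ 3 + b2 * y ^ 2) = w y ^ 3 := by
    rw [Valuation.map_add_eq_of_lt_left _ (by rw [e1]; exact t2), e1]
  have e3 : w (4 * y ^ 3 + b2 * y ^ 2 + 2 * b4 * y) = w y ^ 3 := by
    rw [Valuation.map_add_eq_of_lt_left _ (by rw [e2]; exact t4), e2]
  rw [Valuation.map_add_eq_of_lt_left _ (by rw [e3]; exact t6), e3]

lemma large_of_bound {M : Type*} [Field M] (v : Valuation M ℤᵐ⁰) (h4 : v 4 ≠ 0)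
    {b2 b4 b6 b8 x : M} {C : ℤᵐ⁰} (hC1 : 1 ≤ C) (hx : C < v x) (hC2 : v b2 / v 4 ≤ C)
    (hC4 : v b4 / v 4 ≤ C) (hC6 : v b6 / v 4 ≤ C) (hC8 : v b8 / v 4 ≤ C) :
    Large v b2 b4 b6 b8 x := by
  have h4' : 0 < v (4 : M) := zero_lt_iff.2 h4
  have h1 : 1 ≤ v x := hC1.trans hx.le
  have key : ∀ (b : M) (n : ℕ), 0 < n → v b / v 4 ≤ C → v b < v 4 * v x ^ n := by
    intro b n hn hb
    have h2 : v b / v 4 < v x ^ n := by
      refine (hb.trans_lt hx).trans_le ?_
      calc v x = v x ^ 1 := (pow_one _).symm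
        _ ≤ v x ^ n := pow_le_pow_right₀ h1 hn
    rwa [div_lt_iff₀ h4', mul_comm] at h2
  refine ⟨?_, key b4 2 (by norm_num) hC4, key b6 3 (by norm_num) hC6, key b8 4 (by norm_num) hC8,
    h1⟩
  have := key b2 1 (by norm_num) hC2
  rwa [pow_one] at this

section
variable {A B C : Type*} [Field A] [Field B] [Field C] [DecidableEq A] [DecidableEq B]
  [DecidableEq C]

lemma mapHom_comp {W : Affine A} {V : Affine B} {U : Affine C} (f : A →+* B) (g : B →+* C)
    (h : A →+* C) (hf : W.map f = V) (hg : V.map g = U) (hh : W.map h = U)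
    (hgf : ∀ x, g (f x) = h x) (P : W.Point) :
    mapHom g hg (mapHom f hf P) = mapHom h hh P := by
  rcases P with _ | ⟨x, y, hxy⟩
  · rfl
  · rw [mapHom_some, mapHom_some, mapHom_some]
    simp only [Affine.Point.some.injEq]
    exact ⟨hgf x, hgf y⟩

lemma mem_range_mapHom {L : Type*} [Field L] [DecidableEq L] {S : Subfield L} {VS : Affine S}
    {V : Affine L} (hV : VS.map S.subtype = V) {x y : L} (h : V.Nonsingular x y)
    (hx : x ∈ S) (hy : y ∈ S) : Affine.Point.some x y h ∈ (mapHom S.subtype hV).range := by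
  subst hV
  refine ⟨.some ⟨x, hx⟩ ⟨y, hy⟩ ?_, rfl⟩
  exact (VS.map_nonsingular S.subtype.injective ⟨x, hx⟩ ⟨y, hy⟩).1 h

end

section conj
variable {L : Type*} [Field L] [DecidableEq L]

/-- The conjugation step: a point whose ordinate generates a quadratic extension of a field, while
some positive multiple of it is defined over that field, is a torsion point. -/
theorem conj_step (h2 : (2 : L) ≠ 0) (M' : Subfield L) (VM : Affine M') (V : Affine L)
    (hV : VM.map M'.subtype = V) {x y r : L} (h : V.Nonsingular x y) (hx : x ∈ M')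
    (hη : eta V x y = r) (hr : r ∉ M') (hrr : r * r ∈ M') (n : ℕ)
    (hn : n • Affine.Point.some x y h ∈ (mapHom M'.subtype hV).range) :
    (2 * n) • Affine.Point.some x y h = 0 := by
  have a1 : V.a₁ ∈ M' := by subst hV; exact VM.a₁.2
  have a3 : V.a₃ ∈ M' := by subst hV; exact VM.a₃.2
  obtain ⟨P₀, hP₀⟩ := hn
  let M'' := quadSub M' r hrr
  let incl : M' →+* M'' := Subfield.inclusion (le_quadSub M' r hrr)
  let V'' : Affine M'' := VM.map incl
  have hV'' : V''.map M''.subtype = V := by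
    rw [← hV]
    exact map_map' VM incl M''.subtype M'.subtype (fun _ => rfl)
  let σ := conjHom M' r hrr hr
  have hσi : ∀ a : M', σ (incl a) = a := by
    intro a
    have h1 := conjHom_apply M' r hrr hr (incl a) a.2 M'.zero_mem (by
      show (a : L) = _
      ring)
    rw [h1]; ring
  have hσ : V''.map σ = V := by
    rw [← hV]
    exact map_map' VM incl σ M'.subtype hσi
  have hxM : x ∈ M'' := le_quadSub M' r hrr hx
  have h2M : (2 : L) ∈ M' := ofNat_mem M' 2
  have hyeq : y = (-(V.a₁ * x) - V.a₃) * 2⁻¹ + 2⁻¹ * r := by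
    rw [← hη]
    unfold eta
    field_simp
    ring
  have hy1 : (-(V.a₁ * x) - V.a₃) * 2⁻¹ ∈ M' :=
    M'.mul_mem (M'.sub_mem (M'.neg_mem (M'.mul_mem a1 hx)) a3) (M'.inv_mem h2M)
  have hyM : y ∈ M'' := ⟨_, hy1, 2⁻¹, M'.inv_mem h2M, hyeq⟩
  obtain ⟨P'', hP''⟩ := mem_range_mapHom hV'' h hxM hyM
  have hP''eq : ∃ h'', P'' = Affine.Point.some ⟨x, hxM⟩ ⟨y, hyM⟩ h'' := by
    rcases P'' with _ | ⟨x', y', h'⟩
    · exact absurd hP''.symm (Affine.Point.some_ne_zero _)
    · rw [mapHom_some] at hP''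
      simp only [Affine.Point.some.injEq] at hP''
      have e1 : x' = ⟨x, hxM⟩ := Subtype.ext hP''.1
      have e2 : y' = ⟨y, hyM⟩ := Subtype.ext hP''.2
      subst e1 e2
      exact ⟨h', rfl⟩
  obtain ⟨h'', rfl⟩ := hP''eq
  have hneg : mapHom σ hσ (.some ⟨x, hxM⟩ ⟨y, hyM⟩ h'') = -Affine.Point.some x y h := by
    rw [mapHom_some, Affine.Point.neg_some]
    simp only [Affine.Point.some.injEq]
    constructor
    · exact hσi ⟨x, hx⟩
    · have h1 := conjHom_apply M' r hrr hr ⟨y, hyM⟩ hy1 (M'.inv_mem h2M) hyeq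
      rw [show σ ⟨y, hyM⟩ = _ from h1, Affine.negY]
      rw [← hη]
      unfold eta
      field_simp
      ring
  have hinj := mapHom_injective M''.subtype hV''
  have e1 : n • Affine.Point.some (⟨x, hxM⟩ : M'') ⟨y, hyM⟩ h'' = mapHom incl rfl P₀ := by
    apply hinj
    rw [map_nsmul, hP'', ← hP₀]
    exact (mapHom_comp incl M''.subtype M'.subtype rfl hV'' hV (fun _ => rfl) P₀).symm
  have e2 := congrArg (mapHom σ hσ) e1
  rw [map_nsmul, hneg, mapHom_comp incl σ M'.subtype rfl hσ hV hσi P₀, hP₀] at e2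
  rw [two_mul, add_smul]
  nth_rewrite 1 [← e2]
  rw [smul_neg, neg_add_cancel]

end conj

end Pool.Agent.H54.Larsen
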