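import Pool.Agent.H54.Larsen.PartOne

/-! The contradiction in characteristic zero, main step. -/

namespace Pool.Agent.H54.Larsen

open WeierstrassCurve WithZero

universe u

section
variable {L : Type u} [Field L] [DecidableEq L] {Q : Type*} [Group Q] [Fintype Q]
  [MulSemiringAction Q L]

theorem part_one [CharZero L] (M : Subfield L) [Field.FG M] [hMQ : IsInvariantSubfield Q M]
    (θ : M) (hθ : ∀ q : Q, q ≠ 1 → q • θ ≠ θ) (VM : Affine M) (V : Affine L) [V.IsElliptic]
    (hV : VM.map M.subtype = V)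
    (hVQ : ∀ q : Q, V.map (MulSemiringAction.toRingHom Q L q) = V)
    (e : Fin 3 → M) (hpsi : ∀ x : L, 4 * x ^ 3 + V.b₂ * x ^ 2 + 2 * V.b₄ * x + V.b₆ =
      4 * ∏ i, (x - e i))
    {κ : Type*} [Finite κ] (col : L → κ)
    (hcol : ∀ z z', z ≠ 0 → z' ≠ 0 → col z = col z' → IsSquare (z * z'))
    (H : ∀ T : V.Point, (∀ q : Q, act hVQ q T = T) →
      ∃ n : ℕ, 0 < n ∧ n • T ∈ (mapHom M.subtype hV).range) : False := by
  classical
  have h2 : (2 : L) ≠ 0 := two_ne_zero
  have hjinj := M.subtype.injective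
  obtain ⟨X, hXf, hX0, hX⟩ := exists_family M.subtype (fun z : M => col (z : L))
    (by
      intro z z' hz hz' h
      rw [map_mul]
      exact hcol _ _ (fun h0 => hz (Subtype.ext h0)) (fun h0 => hz' (Subtype.ext h0)) h)
    (Finset.univ.image (fun i => - e i))
  let R : Set M := insert 2 (⋃ q : Q, (fun p : M × M => q • p.2) '' X)
  have hRf : R.Finite := (Set.finite_iUnion (fun q => hXf.image _)).insert _
  have hR0 : ∀ ρ ∈ R, ρ ≠ 0 := by
    intro ρ hρ
    rcases Set.mem_insert_iff.1 hρ with h | h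
    · rw [h]; exact two_ne_zero
    · obtain ⟨q, p, hp, rfl⟩ := Set.mem_iUnion.1 h
      exact (smul_ne_zero_iff_ne q).2 (hX0 p hp)
  obtain ⟨w, v, z, ϖ, hG, hv4, hvw⟩ := place_supply (Q := Q) θ hθ R hRf hR0
  have hw2 : w 2 = 1 := hG.unit 2 (Set.mem_insert _ _)
  have hwR : ∀ (q : Q) (p : M × M), p ∈ X → w (q • p.2) = 1 := by
    intro q p hp
    exact hG.unit _ (Set.mem_insert_of_mem _ (Set.mem_iUnion.2 ⟨q, p, hp, rfl⟩))
  have hM4 : (4 : M) ≠ 0 := by norm_num
  have hv40 : v (4 : M) ≠ 0 := (Valuation.ne_zero_iff v).2 hM4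
  set b2 := VM.b₂ with hb2
  set b4 := VM.b₄ with hb4
  set b6 := VM.b₆ with hb6
  set b8 := VM.b₈ with hb8
  -- the bounds
  obtain ⟨C, hC1, hC⟩ := exists_pos_bound {v b2 / v 4, v b4 / v 4, v b6 / v 4, v b8 / v 4}
    (by simp)
  obtain ⟨B, hB1, hB⟩ := exists_pos_bound ({w b2, w b4, w b6} ∪
      ((fun p : M × M => v p.1) '' X ∪ ((fun p : M × M => C * v p.2) '' X ∪
        ⋃ q : Q, (fun p : M × M => w (q • p.1)) '' X)))
    (((Set.finite_singleton _).insert _ |>.insert _).union ((hXf.image _).union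
      ((hXf.image _).union (Set.finite_iUnion (fun q => hXf.image _)))))
  have hBb2 : w b2 ≤ B := hB _ (Or.inl (by simp))
  have hBb4 : w b4 ≤ B := hB _ (Or.inl (by simp))
  have hBb6 : w b6 ≤ B := hB _ (Or.inl (by simp))
  have hBv1 : ∀ p ∈ X, v p.1 ≤ B := fun p hp => hB _ (Or.inr (Or.inl ⟨p, hp, rfl⟩))
  have hBv2 : ∀ p ∈ X, C * v p.2 ≤ B := fun p hp => hB _ (Or.inr (Or.inr (Or.inl ⟨p, hp, rfl⟩)))
  have hBw : ∀ (q : Q), ∀ p ∈ X, w (q • p.1) ≤ B := fun q p hp =>
    hB _ (Or.inr (Or.inr (Or.inr (Set.mem_iUnion.2 ⟨q, p, hp, rfl⟩))))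
  obtain ⟨c, hc1, hcq, hcB, hcv⟩ := exists_c0 hG (Set.mem_insert _ _) two_ne_zero hvw B
  obtain ⟨p, hp, hps⟩ := hX c
  set x : M := (c + p.1) / p.2 with hx
  have hwx : ∀ q : Q, w (q • x) = w (q • c) := by
    intro q
    have e1 : q • x = (q • c + q • p.1) / (q • p.2) := by
      rw [hx, div_eq_mul_inv, smul_mul', smul_add, smul_inv'', ← div_eq_mul_inv]
    rw [e1, map_div₀, hwR q p hp, div_one,
      Valuation.map_add_eq_of_lt_left _ ((hBw q p hp).trans_lt (hcB q))]
  have hvx : C < v x := by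
    have e2 : 0 < v p.2 := zero_lt_iff.2 ((Valuation.ne_zero_iff v).2 (hX0 p hp))
    rw [hx, map_div₀, Valuation.map_add_eq_of_lt_left _ ((hBv1 p hp).trans_lt hcv),
      lt_div_iff₀ e2]
    exact (hBv2 p hp).trans_lt hcv
  have hL : Large v b2 b4 b6 b8 x := large_of_bound v hv40 hC1 hvx
    (hC _ (by simp)) (hC _ (by simp)) (hC _ (by simp)) (hC _ (by simp))
  -- invariance of the coefficients
  have hsubQ : ∀ (q : Q) (a : M), ((q • a : M) : L) = q • (a : L) := fun _ _ => rfl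
  have qb2 : ∀ q : Q, q • b2 = b2 := by
    intro q
    apply Subtype.ext
    rw [hsubQ]
    have h1 : V.b₂ = (b2 : L) := by rw [← hV, map_b₂]; rfl
    rw [← h1]
    conv_rhs => rw [← hVQ q, map_b₂]
    rfl
  have qb4 : ∀ q : Q, q • b4 = b4 := by
    intro q
    apply Subtype.ext
    rw [hsubQ]
    have h1 : V.b₄ = (b4 : L) := by rw [← hV, map_b₄]; rfl
    rw [← h1]
    conv_rhs => rw [← hVQ q, map_b₄]
    rfl
  have qb6 : ∀ q : Q, q • b6 = b6 := by
    intro q
    apply Subtype.ext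
    rw [hsubQ]
    have h1 : V.b₆ = (b6 : L) := by rw [← hV, map_b₆]; rfl
    rw [← h1]
    conv_rhs => rw [← hVQ q, map_b₆]
    rfl
  let f : M → M := fun y => 4 * y ^ 3 + b2 * y ^ 2 + 2 * b4 * y + b6
  have hqf : ∀ (q : Q) (y : M), q • f y = f (q • y) := by
    intro q y
    have q4 : q • (4 : M) = 4 := map_ofNat (MulSemiringAction.toRingHom Q M q) 4
    have q2 : q • (2 : M) = 2 := map_ofNat (MulSemiringAction.toRingHom Q M q) 2
    simp only [f, smul_add, smul_mul', smul_pow', q4, q2, qb2, qb4, qb6]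
  have hwf : ∀ q : Q, w (q • f x) = w (q • c) ^ 3 := by
    intro q
    rw [hqf]
    have h1 : B < w (q • x) := by rw [hwx]; exact hcB q
    rw [w_cubic w hw2 (hB1.trans_lt h1) (hBb2.trans_lt h1) (hBb4.trans_lt h1)
      (hBb6.trans_lt h1), hwx]
  have hfL : (f x : L) = 4 * (x : L) ^ 3 + V.b₂ * (x : L) ^ 2 + 2 * V.b₄ * (x : L) + V.b₆ := by
    rw [← hV, map_b₂, map_b₄, map_b₆]
    rfl
  -- the square root
  obtain ⟨r, hr0, hr⟩ : ∃ r : L, r ≠ 0 ∧ (f x : L) = r ^ 2 := by
    have h5 : ∀ i, ∃ ρ : L, ρ ≠ 0 ∧ (x : L) - e i = ρ ^ 2 := by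
      intro i
      obtain ⟨h6, ρ, h7⟩ := hps (- e i) (Finset.mem_image_of_mem _ (Finset.mem_univ i))
      have h8 : (x : L) - e i = ρ ^ 2 := by
        rw [pow_two, ← h7, map_add, map_neg]
        exact sub_eq_add_neg _ _
      refine ⟨ρ, ?_, h8⟩
      rintro rfl
      apply h6
      apply hjinj
      rw [h7, map_zero, mul_zero]
    choose ρ hρ0 hρ using h5
    refine ⟨2 * ∏ i, ρ i, mul_ne_zero h2 (Finset.prod_ne_zero_iff.2 (fun i _ => hρ0 i)), ?_⟩
    rw [hfL, hpsi, mul_pow, ← Finset.prod_pow]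
    congr 1
    · norm_num
    · exact Finset.prod_congr rfl (fun i _ => hρ i)
  obtain ⟨y, hns, heta⟩ := exists_point (V := V) h2 (x := (x : L)) (r := r)
    (by rw [← hfL, hr])
  -- the multiquadratic field
  let E : Set L := {a | ∃ a' : M, (a' : L) = a ∧ ∃ k : ℤ, w a' = exp (2 * k)}
  have hE1 : ∀ a ∈ M, a ≠ 0 → a * a ∈ E := by
    intro a ha h0
    refine ⟨⟨a, ha⟩ * ⟨a, ha⟩, rfl, log (w ⟨a, ha⟩), ?_⟩
    have h1 : w ⟨a, ha⟩ ≠ 0 := (Valuation.ne_zero_iff w).2 (fun h => h0 (congrArg Subtype.val h))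
    rw [map_mul, two_mul, exp_add, exp_log h1]
  have hEM : ∀ a ∈ E, a ∈ M ∧ a ≠ 0 := by
    rintro _ ⟨a, rfl, k, hk⟩
    refine ⟨a.2, ?_⟩
    intro h0
    have : a = 0 := Subtype.ext h0
    rw [this, map_zero] at hk
    exact exp_ne_zero hk.symm
  have hE2 : ∀ a ∈ E, ∀ b ∈ E, a * b ∈ E := by
    rintro _ ⟨a, rfl, k, hk⟩ _ ⟨b, rfl, l, hl⟩
    refine ⟨a * b, rfl, k + l, ?_⟩
    rw [map_mul, hk, hl, ← exp_add]
    congr 1
    ring
  have hqr : ∀ q : Q, ((q • f x : M) : L) = (q • r) * (q • r) := by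
    intro q
    rw [hsubQ, hr, smul_pow', pow_two]
  obtain ⟨M', hMM', hTM', hz⟩ := exists_multiquad h2 M E hE1 hEM hE2
    ((Finset.univ.filter (fun q : Q => q ≠ 1)).image (fun q => q • r)) (by
      intro s hs
      obtain ⟨q, hq, rfl⟩ := Finset.mem_image.1 hs
      rw [Finset.mem_filter] at hq
      refine ⟨q • f x, hqr q, ?_⟩
      obtain ⟨k, hk⟩ := hcq q hq.2
      refine ⟨3 * k, ?_⟩
      rw [hwf, hk, ← exp_nsmul]
      congr 1
      rw [nsmul_eq_mul]
      push_cast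
      ring)
  have hrr : r * r ∈ M := by
    rw [← pow_two, ← hr]
    exact (f x).2
  have hrM' : r ∉ M' := by
    intro hrM'
    obtain ⟨a, ha, k, hk⟩ := hz r hrM' hr0 hrr
    have h1 : a = f x := by
      apply Subtype.ext
      rw [ha, hr, pow_two]
    obtain ⟨l, hl⟩ := hc1
    have h3 := hwf 1
    rw [one_smul, one_smul, hl, ← h1, hk, ← exp_nsmul, exp_inj, nsmul_eq_mul] at h3
    push_cast at h3
    omega
  -- descent to the multiquadratic field
  let i' : M →+* M' := Subfield.inclusion hMM'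
  let VM' : Affine M' := VM.map i'
  have hVM' : VM'.map M'.subtype = V := by
    rw [← hV]
    exact map_map' VM i' M'.subtype M.subtype (fun _ => rfl)
  have hrange : (mapHom M.subtype hV).range ≤ (mapHom M'.subtype hVM').range := by
    rintro _ ⟨P, rfl⟩
    exact ⟨mapHom i' rfl P, mapHom_comp i' M'.subtype M.subtype rfl hVM' hV (fun _ => rfl) P⟩
  have hconj : ∀ q : Q, q ≠ 1 →
      act hVQ q (.some (x : L) y hns) ∈ (mapHom M'.subtype hVM').range := by
    intro q hq
    have e1 : act hVQ q (.some (x : L) y hns) = .some (q • (x : L)) (q • y)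
        (by
          have := (V.map_nonsingular (MulSemiringAction.toRingHom Q L q).injective x y).mpr hns
          rw [hVQ q] at this
          exact this) := rfl
    rw [e1]
    apply mem_range_mapHom
    · exact hMM' (q • x).2
    · have hq' : q • r ∈ M' := hTM' _ (Finset.mem_image_of_mem _ (by simp [hq]))
      have a1 : V.a₁ ∈ M' := by rw [← hV]; exact hMM' VM.a₁.2
      have a3 : V.a₃ ∈ M' := by rw [← hV]; exact hMM' VM.a₃.2
      have ha1 : q • V.a₁ = V.a₁ := congrArg WeierstrassCurve.a₁ (hVQ q)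
      have ha3 : q • V.a₃ = V.a₃ := congrArg WeierstrassCurve.a₃ (hVQ q)
      have e2 : q • r = 2 * (q • y) + V.a₁ * (q • (x : L)) + V.a₃ := by
        rw [← heta]
        unfold eta
        simp only [smul_add, smul_mul', ha1, ha3, show q • (2 : L) = 2 from
          map_ofNat (MulSemiringAction.toRingHom Q L q) 2]
      have e3 : q • y = 2⁻¹ * (q • r - V.a₁ * (q • (x : L)) - V.a₃) := by
        rw [e2]
        field_simp
        ring
      rw [e3]
      exact M'.mul_mem (M'.inv_mem (ofNat_mem M' 2))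
        (M'.sub_mem (M'.sub_mem hq' (M'.mul_mem a1 (hMM' (q • x).2))) a3)
  obtain ⟨n, hn0, hn⟩ := H (∑ q : Q, act hVQ q (.some (x : L) y hns)) (by
    intro q'
    rw [map_sum]
    simp_rw [act_mul]
    exact Fintype.sum_equiv (Equiv.mulLeft q') _ _ (fun q => rfl))
  have hone : act hVQ (1 : Q) (.some (x : L) y hns) = .some (x : L) y hns := by
    unfold act
    rw [mapHom_some]
    simp only [MulSemiringAction.toRingHom_apply, one_smul]
  have hnP : n • Affine.Point.some (x : L) y hns ∈ (mapHom M'.subtype hVM').range := by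
    have h1 := hrange hn
    rw [← Finset.add_sum_erase Finset.univ _ (Finset.mem_univ (1 : Q)), hone, smul_add] at h1
    refine (AddSubgroup.add_mem_cancel_right _ ?_).1 h1
    apply AddSubgroup.nsmul_mem
    apply AddSubgroup.sum_mem
    intro q hq
    exact hconj q (Finset.ne_of_mem_erase hq)
  have htor := conj_step h2 M' VM' V hVM' hns (hMM' x.2) heta hrM' (hMM' hrr) n hnP
  exact infinite_order (v := v) hM4 hv4 M.subtype V
    (by rw [← hV, map_b₂]) (by rw [← hV, map_b₄]) (by rw [← hV, map_b₆]) (by rw [← hV, map_b₈])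
    hL hns (2 * n) (by omega) htor

end

end Pool.Agent.H54.Larsen
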