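import Mathlib.RingTheory.DedekindDomain.FiniteAdeleRing
import Mathlib.NumberTheory.NumberField.Units.Basic
import Mathlib.NumberTheory.NumberField.InfinitePlace.Basic
import Mathlib.RingTheory.Ideal.GoingUp

/-! Supply of places with prescribed behaviour: number fields. -/

namespace Pool.Agent.H54.Larsen

open IsDedekindDomain

section general
variable (C : Type*) [CommRing C] [IsDedekindDomain C] {M : Type*} [Field M] [Algebra C M]
  [IsFractionRing C M]

lemma finite_ne_one {ρ : M} (hρ : ρ ≠ 0) :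
    {v : HeightOneSpectrum C | v.valuation M ρ ≠ 1}.Finite := by
  apply Set.Finite.subset ((HeightOneSpectrum.Support.finite C ρ).union
    (HeightOneSpectrum.Support.finite C ρ⁻¹))
  intro v hv
  rcases lt_or_gt_of_ne hv with h | h
  · right
    show 1 < v.valuation M ρ⁻¹
    rw [map_inv₀]
    exact (one_lt_inv₀ (zero_lt_iff.2 ((Valuation.ne_zero_iff _).2 hρ))).2 h
  · left
    exact h

end general

section nf
variable {M : Type*} [Field M] [NumberField M]

open NumberField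

omit [NumberField M] in
lemma exists_int_mem (I : Ideal (𝓞 M)) (hI : I ≠ ⊥) : ∃ b : ℤ, b ≠ 0 ∧ (b : 𝓞 M) ∈ I := by
  obtain ⟨x, hx, hx0⟩ := Submodule.exists_mem_ne_zero_of_ne_bot hI
  have h1 := Ideal.comap_ne_bot_of_integral_mem (R := ℤ) hx0 hx (Algebra.IsIntegral.isIntegral x)
  obtain ⟨b, hb, hb0⟩ := Submodule.exists_mem_ne_zero_of_ne_bot h1
  exact ⟨b, hb0, by simpa using hb⟩

/-- Some integer translate has a prime factor outside a given finite set. -/
theorem nf_supply (θ : 𝓞 M) (S : Set (HeightOneSpectrum (𝓞 M))) (hS : S.Finite) :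
    ∃ m : ℤ, ∃ v ∉ S, v.valuation M ((θ : M) - m) < 1 := by
  classical
  by_contra hcon
  push Not at hcon
  have hall : ∀ (m : ℤ) (v : HeightOneSpectrum (𝓞 M)), θ - m ∈ v.asIdeal → v ∈ S := by
    intro m v hv
    by_contra hvS
    have h1 := hcon m v hvS
    have h2 : v.valuation M (algebraMap (𝓞 M) M (θ - m)) < 1 :=
      (v.valuation_lt_one_iff_mem (θ - m)).2 hv
    rw [map_sub, map_intCast] at h2
    exact absurd h2 (not_lt.2 h1)
  obtain ⟨m₀, hm₀⟩ : ∃ m₀ : ℤ, θ - m₀ ≠ 0 := by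
    by_cases h : θ = 0
    · refine ⟨1, ?_⟩
      rw [h]; simp
    · exact ⟨0, by simpa using h⟩
  obtain ⟨a, ha0, ha⟩ := exists_int_mem (Ideal.span {θ - m₀}) (by
    rw [Ne, Ideal.span_singleton_eq_bot]; exact hm₀)
  obtain ⟨β, hβ⟩ := Ideal.mem_span_singleton'.1 ha
  -- an integer in all primes of S
  obtain ⟨b, hb0, hb⟩ : ∃ b : ℤ, b ≠ 0 ∧ ∀ v ∈ S, (b : 𝓞 M) ∈ v.asIdeal := by
    have h1 : ∀ v : HeightOneSpectrum (𝓞 M), ∃ b : ℤ, b ≠ 0 ∧ (b : 𝓞 M) ∈ v.asIdeal :=
      fun v => exists_int_mem _ v.ne_bot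
    choose f hf0 hf using h1
    refine ⟨∏ v ∈ hS.toFinset, f v, Finset.prod_ne_zero_iff.2 (fun v _ => hf0 v), ?_⟩
    intro v hv
    rw [← Finset.mul_prod_erase hS.toFinset f (hS.mem_toFinset.2 hv)]
    push_cast
    exact Ideal.mul_mem_right _ _ (hf v)
  -- the units
  have hunit : ∀ k : ℤ, IsUnit (1 - (k : 𝓞 M) * (b * β)) := by
    intro k
    by_contra hnu
    obtain ⟨P, hP, hmem⟩ := exists_max_ideal_of_mem_nonunits hnu
    have hPne : P ≠ ⊥ := by
      intro h
      rw [h] at hP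
      exact Ring.ne_bot_of_isMaximal_of_not_isField hP (RingOfIntegers.not_isField M) rfl
    let v : HeightOneSpectrum (𝓞 M) := ⟨P, hP.isPrime, hPne⟩
    have h1 : θ - ((m₀ + a * b * k : ℤ) : 𝓞 M) ∈ v.asIdeal := by
      have h2 : θ - ((m₀ + a * b * k : ℤ) : 𝓞 M) =
          (θ - m₀) * (1 - (k : 𝓞 M) * (b * β)) := by
        push_cast
        rw [← hβ]; ring
      rw [h2]
      exact Ideal.mul_mem_left _ _ hmem
    have h3 := hb v (hall _ v h1)
    apply hP.ne_top
    rw [Ideal.eq_top_iff_one]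
    have h4 : (1 : 𝓞 M) = (1 - (k : 𝓞 M) * (b * β)) + b * (k * β) := by ring
    rw [h4]
    exact Ideal.add_mem _ hmem (Ideal.mul_mem_right _ _ h3)
  have hβ0 : β ≠ 0 := by
    rintro rfl
    rw [zero_mul] at hβ
    exact ha0 (by exact_mod_cast hβ.symm)
  set c : 𝓞 M := b * β with hc
  have hc0 : c ≠ 0 := mul_ne_zero (by exact_mod_cast hb0) hβ0
  have hwc : ∀ w : InfinitePlace M, 0 < w (c : M) := by
    intro w
    rw [InfinitePlace.pos_iff]
    exact_mod_cast hc0
  obtain ⟨k, hk⟩ : ∃ k : ℕ, ∀ w : InfinitePlace M, 3 ≤ k * w (c : M) := by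
    have h1 : ∀ w : InfinitePlace M, ∃ k : ℕ, 3 ≤ k * w (c : M) := by
      intro w
      obtain ⟨k, hk⟩ := exists_nat_ge (3 / w (c : M))
      exact ⟨k, by rwa [div_le_iff₀ (hwc w)] at hk⟩
    choose g hg using h1
    refine ⟨∑ w, g w, fun w => (hg w).trans ?_⟩
    apply mul_le_mul_of_nonneg_right _ (hwc w).le
    exact_mod_cast Finset.single_le_sum (f := g) (fun _ _ => Nat.zero_le _) (Finset.mem_univ w)
  have hnorm : |Algebra.norm ℚ ((1 - ((k : ℤ) : 𝓞 M) * c : 𝓞 M) : M)| = 1 := by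
    have := NumberField.isUnit_iff_norm.1 (hunit k)
    rwa [RingOfIntegers.coe_norm] at this
  have hprod := InfinitePlace.prod_eq_abs_norm ((1 - ((k : ℤ) : 𝓞 M) * c : 𝓞 M) : M)
  rw [hnorm] at hprod
  have hgt : ∀ w : InfinitePlace M, 1 < w ((1 - ((k : ℤ) : 𝓞 M) * c : 𝓞 M) : M) ^ w.mult := by
    intro w
    apply one_lt_pow₀ _ w.mult_ne_zero
    have h1 : w ((k : M) * c) ≤ w ((1 - ((k : ℤ) : 𝓞 M) * c : 𝓞 M) : M) + w 1 := by
      have h2 : (k : M) * c = - ((1 - ((k : ℤ) : 𝓞 M) * c : 𝓞 M) : M) + 1 := by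
        push_cast
        ring
      rw [h2, ← InfinitePlace.norm_embedding_eq, ← InfinitePlace.norm_embedding_eq,
        ← InfinitePlace.norm_embedding_eq, map_add, map_neg]
      refine (norm_add_le _ _).trans ?_
      rw [norm_neg]
    have h3 : w ((k : M) * c) = k * w (c : M) := by
      rw [map_mul, ← InfinitePlace.norm_embedding_eq w (k : M), map_natCast]
      simp
    rw [h3, map_one] at h1
    have := hk w
    linarith
  have : (1 : ℝ) < ∏ w : InfinitePlace M, w ((1 - ((k : ℤ) : 𝓞 M) * c : 𝓞 M) : M) ^ w.mult := by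
    have h1 := Finset.prod_lt_prod_of_nonempty (s := (Finset.univ : Finset (InfinitePlace M)))
      (f := fun _ => (1 : ℝ)) (g := fun w => w ((1 - ((k : ℤ) : 𝓞 M) * c : 𝓞 M) : M) ^ w.mult)
      (fun _ _ => one_pos) (fun w _ => hgt w) Finset.univ_nonempty
    simpa using h1
  rw [hprod] at this
  simp at this

end nf

end Pool.Agent.H54.Larsen
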