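import Pool.Agent.H54.Larsen.Places
import Mathlib.RingTheory.AlgebraicIndependent.TranscendenceBasis
import Mathlib.FieldTheory.IntermediateField.Adjoin.Algebra
import Mathlib.RingTheory.DedekindDomain.IntegralClosure
import Mathlib.RingTheory.Polynomial.Basic

/-! Supply of places with prescribed behaviour: positive transcendence degree. -/

namespace Pool.Agent.H54.Larsen

open IsDedekindDomain Polynomial
open scoped IntermediateField.algebraAdjoinAdjoin

universe u

section ff
variable {M : Type*} [Field M] [CharZero M]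

lemma essFinite_rat [Field.FG M] : Algebra.EssFiniteType ℚ M := by
  rw [← IntermediateField.fg_top_iff]
  obtain ⟨S, hS⟩ := Field.FG.finitely_generated (L := M)
  refine ⟨S, ?_⟩
  rw [eq_top_iff]
  intro x _
  have h1 : Subfield.closure (S : Set M) ≤ (IntermediateField.adjoin ℚ (S : Set M)).toSubfield := by
    rw [Subfield.closure_le]
    exact IntermediateField.subset_adjoin ℚ _
  have : x ∈ Subfield.closure (S : Set M) := by rw [hS]; trivial
  exact h1 this

lemma transcendental_over (t : Set M) (ht : IsTranscendenceBasis ℚ ((↑) : t → M)) (θ : M)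
    (hθ : θ ∈ t) : Transcendental (IntermediateField.adjoin ℚ (t \ {θ})) θ := by
  have h1 := ht.1.transcendental_adjoin (s := {i : t | (i : M) ≠ θ}) (i := ⟨θ, hθ⟩) (by simp)
  have h2 : ((↑) '' {i : t | (i : M) ≠ θ} : Set M) = t \ {θ} := by
    ext x; simp [and_comm]
  rw [h2] at h1
  intro h3
  apply h1
  exact (IsFractionRing.isAlgebraic_iff (Algebra.adjoin ℚ (t \ {θ}))
    (IntermediateField.adjoin ℚ (t \ {θ})) M).2 h3

omit [CharZero M] in
lemma isAlgebraic_of_subset {A : Type*} [CommRing A] [Algebra A M]
    (B : Subring M) (hB : ∀ b ∈ B, b ∈ Set.range (algebraMap A M)) {x : M}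
    (hx : IsAlgebraic B x) : IsAlgebraic A x := by
  obtain ⟨p, hp, hpx⟩ := hx
  have hl : p.map (algebraMap B M) ∈ Polynomial.lifts (algebraMap A M) := by
    rw [Polynomial.lifts_iff_coeff_lifts]
    intro n
    rw [Polynomial.coeff_map]
    exact hB _ (p.coeff n).2
  obtain ⟨q, hq⟩ := (Polynomial.mem_lifts _).1 hl
  refine ⟨q, ?_, ?_⟩
  · rintro rfl
    rw [Polynomial.map_zero] at hq
    apply hp
    apply Polynomial.map_injective (algebraMap B M) Subtype.val_injective
    rw [← hq, Polynomial.map_zero]
  · have h1 : Polynomial.aeval x p = Polynomial.eval x (p.map (algebraMap B M)) := by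
      rw [Polynomial.eval_map_algebraMap]
    rw [← Polynomial.eval_map_algebraMap, hq, ← h1, hpx]

theorem ff_supply {M : Type u} [Field M] [CharZero M] [Field.FG M] (θ : M)
    (hθ : Transcendental ℚ θ) :
    ∃ (C : Type u) (_ : CommRing C) (_ : IsDedekindDomain C) (_ : Algebra C M)
      (_ : IsFractionRing C M),
      (∀ S : Set (HeightOneSpectrum C), S.Finite →
        ∃ m : ℤ, ∃ v ∉ S, v.valuation M (θ - m) < 1) ∧
      ∀ v : HeightOneSpectrum C, ∀ n : ℤ, n ≠ 0 → v.valuation M (n : M) = 1 := by
  have h1 : AlgebraicIndepOn ℚ id ({θ} : Set M) :=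
    (algebraicIndependent_singleton_iff (R := ℚ) (x := fun i : ({θ} : Set M) => (i : M))
      ⟨θ, rfl⟩).2 hθ
  obtain ⟨t, htθ, ht⟩ := exists_isTranscendenceBasis_superset h1
  have htr : Transcendental (IntermediateField.adjoin ℚ (t \ {θ})) θ :=
    transcendental_over t ht θ (htθ rfl)
  set k₀ := IntermediateField.adjoin ℚ (t \ {θ}) with hk₀
  have hφ : Function.Injective (Polynomial.aeval (R := k₀) θ) := transcendental_iff_injective.1 htr
  let _ : Algebra k₀[X] M := (Polynomial.aeval (R := k₀) θ).toRingHom.toAlgebra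
  have hamap : ∀ q : k₀[X], algebraMap k₀[X] M q = Polynomial.aeval θ q := fun _ => rfl
  have hfs : FaithfulSMul k₀[X] M := (faithfulSMul_iff_algebraMap_injective _ _).2 hφ
  let _ := FractionRing.liftAlgebra k₀[X] M
  have hst := FractionRing.isScalarTower_liftAlgebra k₀[X] M
  have halg : Algebra.IsAlgebraic k₀[X] M := by
    constructor
    intro x
    have h2 : IsAlgebraic (Algebra.adjoin ℚ (Set.range ((↑) : t → M))) x :=
      ht.isAlgebraic.isAlgebraic x
    refine isAlgebraic_of_subset (Algebra.adjoin ℚ (Set.range ((↑) : t → M))).toSubring ?_ h2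
    intro b hb
    have h3 : Algebra.adjoin ℚ (Set.range ((↑) : t → M)) ≤
        ((Polynomial.aeval (R := k₀) θ).restrictScalars ℚ).range := by
      rw [Algebra.adjoin_le_iff]
      rintro _ ⟨⟨s, hs⟩, rfl⟩
      by_cases hsθ : s = θ
      · exact ⟨Polynomial.X, by simp [hsθ]⟩
      · refine ⟨Polynomial.C ⟨s, IntermediateField.subset_adjoin ℚ _ ⟨hs, hsθ⟩⟩, ?_⟩
        simp
    exact h3 hb
  have halg' : Algebra.IsAlgebraic (FractionRing k₀[X]) M :=
    ⟨fun x => (IsFractionRing.isAlgebraic_iff k₀[X] (FractionRing k₀[X]) M).1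
      (halg.isAlgebraic x)⟩
  have hess : Algebra.EssFiniteType ℚ M := essFinite_rat
  have hess' : Algebra.EssFiniteType (FractionRing k₀[X]) M :=
    Algebra.EssFiniteType.of_comp ℚ (FractionRing k₀[X]) M
  have hfin : FiniteDimensional (FractionRing k₀[X]) M :=
    Algebra.finite_of_essFiniteType_of_isAlgebraic
  have hded : IsDedekindDomain (integralClosure k₀[X] M) :=
    integralClosure.isDedekindDomain_fractionRing k₀[X] (L := M)
  have hfr : IsFractionRing (integralClosure k₀[X] M) M :=
    integralClosure.isFractionRing_of_finite_extension (FractionRing k₀[X]) M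
  have hCinj : Function.Injective (algebraMap k₀[X] (integralClosure k₀[X] M)) :=
    fun a b h => hφ (congrArg Subtype.val h)
  refine ⟨integralClosure k₀[X] M, inferInstance, hded, inferInstance, hfr, ?_, ?_⟩
  · intro S hS
    have hQ : ∀ m : ℤ, ∃ v : HeightOneSpectrum (integralClosure k₀[X] M),
        v.asIdeal.comap (algebraMap k₀[X] (integralClosure k₀[X] M)) =
          Ideal.span {(Polynomial.X - Polynomial.C (m : k₀) : k₀[X])} := by
      intro m
      have hmax : (Ideal.span {(Polynomial.X - Polynomial.C (m : k₀) : k₀[X])}).IsMaximal :=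
        PrincipalIdealRing.isMaximal_of_irreducible (Polynomial.irreducible_X_sub_C _)
      obtain ⟨Q, hQ1, hQ2⟩ := Ideal.exists_ideal_over_maximal_of_isIntegral
        (S := integralClosure k₀[X] M)
        (Ideal.span {(Polynomial.X - Polynomial.C (m : k₀) : k₀[X])}) (by
          have : RingHom.ker (algebraMap k₀[X] (integralClosure k₀[X] M)) = ⊥ := by
            rw [← RingHom.injective_iff_ker_eq_bot]
            exact hCinj
          rw [this]; exact bot_le)
      refine ⟨⟨Q, hQ1.isPrime, ?_⟩, hQ2⟩
      rintro rfl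
      have h5 : (Polynomial.X - Polynomial.C (m : k₀) : k₀[X]) ∈
          (⊥ : Ideal (integralClosure k₀[X] M)).comap
            (algebraMap k₀[X] (integralClosure k₀[X] M)) := by
        rw [hQ2]; exact Ideal.mem_span_singleton_self _
      rw [Ideal.mem_comap, Ideal.mem_bot] at h5
      exact Polynomial.X_sub_C_ne_zero (m : k₀)
        (hCinj (h5.trans (map_zero _).symm))
    choose v hv using hQ
    have hmem : ∀ m : ℤ, (Polynomial.X - Polynomial.C (m : k₀) : k₀[X]) ∈
        (v m).asIdeal.comap (algebraMap k₀[X] (integralClosure k₀[X] M)) := by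
      intro m
      rw [hv]; exact Ideal.mem_span_singleton_self _
    have hinj : Function.Injective v := by
      intro m m' hmm
      by_contra hne
      have h5 := hmem m
      have h6 := hmem m'
      rw [← hmm] at h6
      have h7 := Ideal.sub_mem _ h5 h6
      have h8 : (Polynomial.X - Polynomial.C (m : k₀) : k₀[X]) -
          (Polynomial.X - Polynomial.C (m' : k₀)) = Polynomial.C ((m' : k₀) - m) := by
        rw [Polynomial.C_sub]; ring
      rw [h8] at h7
      have h9 : IsUnit (Polynomial.C ((m' : k₀) - m)) := by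
        rw [Polynomial.isUnit_C]
        apply Ne.isUnit
        rw [sub_ne_zero]
        intro h
        exact hne (by exact_mod_cast h.symm)
      have h10 := Ideal.eq_top_of_isUnit_mem _ h7 h9
      rw [Ideal.comap_eq_top_iff] at h10
      exact (v m).isPrime.ne_top h10
    obtain ⟨w, ⟨m, rfl⟩, hmS⟩ := (Set.infinite_range_of_injective hinj).exists_notMem_finite hS
    refine ⟨m, v m, hmS, ?_⟩
    have h5 := ((v m).valuation_lt_one_iff_mem (K := M) _).2 (hmem m)
    have h6 : algebraMap (integralClosure k₀[X] M) M (algebraMap k₀[X]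
        (integralClosure k₀[X] M) (Polynomial.X - Polynomial.C (m : k₀))) = θ - m := by
      rw [← IsScalarTower.algebraMap_apply, hamap]
      simp
    rw [← h6]
    exact h5
  · intro v n hn
    have h5 : (n : M) = algebraMap (integralClosure k₀[X] M) M (n : integralClosure k₀[X] M) := by
      simp
    rw [h5, (v.valuation_eq_one_iff_notMem)]
    intro h6
    apply v.isPrime.ne_top
    apply Ideal.eq_top_of_isUnit_mem _ h6
    have h7 : (n : integralClosure k₀[X] M) = algebraMap k₀[X] (integralClosure k₀[X] M)
        (Polynomial.C (n : k₀)) := by simp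
    rw [h7]
    apply IsUnit.map
    rw [Polynomial.isUnit_C]
    apply Ne.isUnit
    exact_mod_cast hn

end ff

end Pool.Agent.H54.Larsen
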