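import Pool.Agent.H54.Larsen.Places2
import Mathlib.FieldTheory.Fixed

/-! Places of a finitely generated field of characteristic zero with a group action. -/

namespace Pool.Agent.H54.Larsen

open IsDedekindDomain WithZero

universe u

section
variable {M : Type u} [Field M] {Q : Type*} [Group Q] [Finite Q] [MulSemiringAction Q M]

/-- the conclusion we want for a place -/
structure GoodPlace (Q : Type*) [Group Q] [MulSemiringAction Q M] (R : Set M)
    (w : Valuation M ℤᵐ⁰) (z ϖ : M) : Prop where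
  unit : ∀ ρ ∈ R, w ρ = 1
  ne_zero : z ≠ 0
  lt_one : w z < 1
  conj : ∀ q : Q, q ≠ 1 → w (q • z) = 1
  unif : w ϖ = exp (-1)

lemma good_of_supply (C : Type*) [CommRing C] [IsDedekindDomain C] [Algebra C M]
    [IsFractionRing C M] (θ : M) (hθ : ∀ q : Q, q ≠ 1 → q • θ ≠ θ)
    (hsup : ∀ S : Set (HeightOneSpectrum C), S.Finite →
        ∃ m : ℤ, ∃ v ∉ S, v.valuation M (θ - m) < 1) (R : Set M) (hRf : R.Finite)
    (hR : ∀ ρ ∈ R, ρ ≠ 0) :
    ∃ (v : HeightOneSpectrum C) (z ϖ : M), GoodPlace Q R (v.valuation M) z ϖ := by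
  classical
  have hS1 : (⋃ ρ ∈ R, {v : HeightOneSpectrum C | v.valuation M ρ ≠ 1}).Finite :=
    hRf.biUnion (fun ρ hρ => finite_ne_one C (hR ρ hρ))
  have hS2 : (⋃ q : {q : Q // q ≠ 1},
      {v : HeightOneSpectrum C | v.valuation M ((q : Q) • θ - θ) ≠ 1}).Finite :=
    Set.finite_iUnion (fun q => finite_ne_one C (sub_ne_zero.2 (hθ q.1 q.2)))
  obtain ⟨m, v, hv, hlt⟩ := hsup _ (hS1.union hS2)
  rw [Set.mem_union, not_or] at hv
  obtain ⟨hv1, hv2⟩ := hv
  have hu : ∀ ρ ∈ R, v.valuation M ρ = 1 := by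
    intro ρ hρ
    by_contra h
    exact hv1 (Set.mem_biUnion hρ h)
  have hc : ∀ q : Q, q ≠ 1 → v.valuation M (q • θ - θ) = 1 := by
    intro q hq
    by_contra h
    exact hv2 (Set.mem_iUnion.2 ⟨⟨q, hq⟩, h⟩)
  obtain ⟨ϖ, hϖ⟩ := v.valuation_exists_uniformizer M
  have hconj : ∀ q : Q, q ≠ 1 → v.valuation M (q • (θ - m)) = 1 := by
    intro q hq
    have h1 : q • (θ - (m : M)) = (q • θ - θ) + (θ - m) := by
      rw [smul_sub]
      have : q • (m : M) = m := map_intCast (MulSemiringAction.toRingHom Q M q) m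
      rw [this]; ring
    rw [h1, Valuation.map_add_eq_of_lt_left _ (by rw [hc q hq]; exact hlt), hc q hq]
  by_cases hz : θ - (m : M) = 0
  · refine ⟨v, ϖ, ϖ, hu, ?_, ?_, ?_, hϖ⟩
    · rintro rfl
      rw [map_zero] at hϖ
      exact absurd hϖ.symm exp_ne_zero
    · rw [hϖ, ← exp_zero, exp_lt_exp]
      norm_num
    · intro q hq
      have := hconj q hq
      rw [hz, smul_zero, map_zero] at this
      exact absurd this zero_ne_one
  · exact ⟨v, θ - m, ϖ, hu, hz, hlt, hconj, hϖ⟩

lemma exists_two_place [NumberField M] :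
    ∃ v : HeightOneSpectrum (NumberField.RingOfIntegers M), v.valuation M (2 : M) < 1 := by
  have hmax : (Ideal.span {(2 : ℤ)}).IsMaximal :=
    PrincipalIdealRing.isMaximal_of_irreducible Int.prime_two.irreducible
  obtain ⟨P, hP1, hP2⟩ := Ideal.exists_ideal_over_maximal_of_isIntegral
    (S := NumberField.RingOfIntegers M) (Ideal.span {(2 : ℤ)}) (by
      have : RingHom.ker (algebraMap ℤ (NumberField.RingOfIntegers M)) = ⊥ := by
        rw [← RingHom.injective_iff_ker_eq_bot]
        exact FaithfulSMul.algebraMap_injective _ _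
      rw [this]; exact bot_le)
  have h2 : (2 : NumberField.RingOfIntegers M) ∈ P := by
    have : (2 : ℤ) ∈ P.comap (algebraMap ℤ (NumberField.RingOfIntegers M)) := by
      rw [hP2]; exact Ideal.mem_span_singleton_self _
    rw [Ideal.mem_comap] at this
    simpa using this
  let v : HeightOneSpectrum (NumberField.RingOfIntegers M) := ⟨P, hP1.isPrime, by
    rintro rfl
    rw [Ideal.mem_bot] at h2
    exact two_ne_zero h2⟩
  refine ⟨v, ?_⟩
  have h3 := (v.valuation_lt_one_iff_mem (K := M) (2 : NumberField.RingOfIntegers M)).2 h2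
  have h4 : algebraMap (NumberField.RingOfIntegers M) M 2 = 2 := map_ofNat _ 2
  rw [← h4]
  exact h3

lemma four_pow_of_two {Γ : Type*} [LinearOrderedCommGroupWithZero Γ] (v : Valuation M Γ)
    (h2 : v 2 < 1) (n : ℕ) (hn : 0 < n) : 1 ≤ v (4 ^ n - 1) := by
  have h4 : v ((4 : M) ^ n) < 1 := by
    have : (4 : M) = 2 * 2 := by norm_num
    rw [this, map_pow, map_mul]
    exact pow_lt_one₀ zero_le (mul_lt_one_of_lt_of_le h2 h2.le) hn.ne'
  rw [Valuation.map_sub_swap, Valuation.map_one_sub_of_lt _ h4]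

theorem place_supply [CharZero M] [Field.FG M] (θ₀ : M) (hθ₀ : ∀ q : Q, q ≠ 1 → q • θ₀ ≠ θ₀)
    (R : Set M) (hRf : R.Finite) (hR : ∀ ρ ∈ R, ρ ≠ 0) :
    ∃ (w v : Valuation M ℤᵐ⁰) (z ϖ : M), GoodPlace Q R w z ϖ ∧
      (∀ n : ℕ, 0 < n → 1 ≤ v (4 ^ n - 1)) ∧ (v = w ∨ v 2 < 1) := by
  classical
  by_cases halg : Algebra.IsAlgebraic ℚ M
  · have hess : Algebra.EssFiniteType ℚ M := essFinite_rat
    have hfd : FiniteDimensional ℚ M := Algebra.finite_of_essFiniteType_of_isAlgebraic
    have hNF : NumberField M := { }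
    obtain ⟨d, hd0, hd⟩ := ((IsFractionRing.isAlgebraic_iff ℤ ℚ M).2
      (halg.isAlgebraic θ₀)).exists_integral_multiple
    let θ : NumberField.RingOfIntegers M := ⟨d • θ₀, hd⟩
    have hθ : ∀ q : Q, q ≠ 1 → q • (θ : M) ≠ θ := by
      intro q hq h
      apply hθ₀ q hq
      have h1 : q • ((d : M) * θ₀) = (d : M) * θ₀ := by
        have : (θ : M) = (d : M) * θ₀ := by
          show d • θ₀ = _
          rw [zsmul_eq_mul]
        rwa [this] at h
      rw [smul_mul', show q • (d : M) = d from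
        map_intCast (MulSemiringAction.toRingHom Q M q) d] at h1
      exact mul_left_cancel₀ (by exact_mod_cast hd0) h1
    obtain ⟨w, z, ϖ, hw⟩ := good_of_supply (Q := Q) (NumberField.RingOfIntegers M) (θ : M) hθ
      (fun S hS => nf_supply θ S hS) R hRf hR
    obtain ⟨v, hv⟩ := exists_two_place (M := M)
    exact ⟨_, v.valuation M, z, ϖ, hw, four_pow_of_two _ hv, Or.inr hv⟩
  · -- positive transcendence degree
    have h1 : ¬ Algebra.IsAlgebraic ℚ (FixedPoints.subfield Q M) := by
      intro h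
      apply halg
      have h2 : Algebra.IsAlgebraic (FixedPoints.subfield Q M) M :=
        ⟨fun x => (FixedPoints.isIntegral Q M x).isAlgebraic⟩
      exact Algebra.IsAlgebraic.trans ℚ (FixedPoints.subfield Q M) M
    obtain ⟨t, ht⟩ : ∃ t : FixedPoints.subfield Q M, Transcendental ℚ t := by
      by_contra hcon
      push Not at hcon
      apply h1
      constructor
      intro x
      by_contra hx
      exact hcon x hx
    have htM : Transcendental ℚ (t : M) := by
      intro h
      apply ht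
      exact (isAlgebraic_algebraMap_iff (A := M)
        (FaithfulSMul.algebraMap_injective (FixedPoints.subfield Q M) M)).1 h
    obtain ⟨θ, hθt, hθ⟩ : ∃ θ : M, Transcendental ℚ θ ∧ ∀ q : Q, q ≠ 1 → q • θ ≠ θ := by
      by_cases h : IsAlgebraic ℚ θ₀
      · refine ⟨θ₀ + t, ?_, ?_⟩
        · intro h3
          apply htM
          have : (t : M) = (θ₀ + t) - θ₀ := by ring
          rw [this]
          exact h3.sub h
        · intro q hq h3
          apply hθ₀ q hq
          rw [smul_add, show q • (t : M) = t from t.2 q] at h3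
          exact add_right_cancel h3
      · exact ⟨θ₀, h, hθ₀⟩
    obtain ⟨C, i1, i2, i3, i4, hsup, hunit⟩ := ff_supply θ hθt
    obtain ⟨w, z, ϖ, hw⟩ := good_of_supply (Q := Q) C θ hθ hsup R hRf hR
    refine ⟨w.valuation M, w.valuation M, z, ϖ, hw, ?_, Or.inl rfl⟩
    intro n hn
    have h5 : ((4 : M) ^ n - 1) = ((4 ^ n - 1 : ℤ) : M) := by push_cast; ring
    rw [h5, hunit w _ (by
      have : (1 : ℤ) < 4 ^ n := one_lt_pow₀ (by norm_num) hn.ne'
      omega)]

end

end Pool.Agent.H54.Larsen
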