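import Mathlib.LinearAlgebra.Dimension.Finite
import Mathlib.LinearAlgebra.FreeModule.StrongRankCondition
import Mathlib.Algebra.Module.ZMod
import Mathlib.GroupTheory.FiniteAbelian.Basic
import Mathlib.GroupTheory.Index
import Mathlib.GroupTheory.Torsion
import Mathlib.Algebra.Field.ZMod
import Mathlib.LinearAlgebra.FreeModule.PID

/-! A criterion for infinite rank of abelian groups. -/

namespace Pool.Agent.H54.Larsen

open Cardinal

section
variable {A V : Type*} [AddCommGroup A] [AddCommGroup V] (p : ℕ) [hp : Fact p.Prime]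

/-- independence from an infinite image killing the p-primary torsion -/
lemma indep_of_image' [Module (ZMod p) V] (δ : A →+ V)
    (hinf : (Set.range δ).Infinite) (hT : ∀ (k : ℕ) (a : A), p ^ k • a = 0 → δ a = 0) (n : ℕ) :
    ∃ a : Fin n → A, LinearIndependent ℤ a := by
  let S : Submodule (ZMod p) V := AddSubgroup.toZModSubmodule p (AddMonoidHom.range δ)
  have hmemS : ∀ v : ↥S, ∃ a, δ a = (v : V) := fun v => by
    have h := v.2
    exact h
  have hSinf : Infinite ↥S := by
    have : Infinite (Set.range δ) := hinf.to_subtype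
    exact this
  have hnf : ¬ Module.Finite (ZMod p) ↥S := by
    intro h
    have : Finite ↥S := Module.finite_of_finite (ZMod p)
    exact not_finite ↥S
  have hrank : (n : Cardinal) ≤ Module.rank (ZMod p) ↥S := by
    have : ℵ₀ ≤ Module.rank (ZMod p) ↥S := by
      rw [← not_lt]
      intro h
      exact hnf (Module.rank_lt_aleph0_iff.1 h)
    exact (natCast_le_aleph0).trans this
  obtain ⟨v, hv⟩ := exists_linearIndependent_of_le_rank hrank
  have hv2 : LinearIndependent (ZMod p) (fun i => (v i : V)) :=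
    hv.map' S.subtype (Submodule.ker_subtype S)
  choose a ha using fun i => hmemS (v i)
  refine ⟨a, ?_⟩
  -- divisibility
  have key : ∀ (k : ℕ) (g : Fin n → ℤ), (∃ m : ℕ, p ^ m • (∑ i, g i • a i) = 0) →
      ∀ i, (p : ℤ) ^ k ∣ g i := by
    intro k
    induction k with
    | zero => intro g _ i; simp
    | succ k ih =>
      intro g hg
      choose h hh using ih g hg
      obtain ⟨m, hm⟩ := hg
      have e1 : ∑ i, g i • a i = p ^ k • ∑ i, h i • a i := by
        rw [Finset.smul_sum]
        apply Finset.sum_congr rfl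
        intro i _
        rw [hh i, ← natCast_zsmul, smul_smul]
        push_cast
        rfl
      rw [e1, smul_smul, ← pow_add] at hm
      have h0 := hT _ _ hm
      have h1 : ∑ i, ((h i : ℤ) : ZMod p) • (v i : V) = 0 := by
        rw [map_sum] at h0
        rw [← h0]
        apply Finset.sum_congr rfl
        intro i _
        rw [map_zsmul, ha i]
        exact Int.cast_smul_eq_zsmul (ZMod p) (h i) _
      have h2 := Fintype.linearIndependent_iff.1 hv2 _ h1
      intro i
      have h3 := h2 i
      rw [ZMod.intCast_zmod_eq_zero_iff_dvd] at h3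
      rw [hh i, pow_succ]
      exact mul_dvd_mul_left _ h3
  rw [Fintype.linearIndependent_iff]
  intro g hg i
  by_contra hne
  have h1 : ∀ k, (p : ℤ) ^ k ∣ g i := fun k => key k g ⟨0, by rw [hg]; simp⟩ i
  have h2 := Int.finiteMultiplicity_iff (a := (p : ℤ)) (b := g i)
  have h3 : FiniteMultiplicity (p : ℤ) (g i) := by
    rw [h2]
    refine ⟨?_, hne⟩
    simpa using hp.out.ne_one
  exact h3.not_pow_dvd_of_multiplicity_lt (Nat.lt_succ_self _) (h1 _)

lemma indep_of_image (δ : A →+ V) (hV : ∀ v : V, p • v = 0)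
    (hinf : (Set.range δ).Infinite) (hT : ∀ (k : ℕ) (a : A), p ^ k • a = 0 → δ a = 0) (n : ℕ) :
    ∃ a : Fin n → A, LinearIndependent ℤ a :=
  @indep_of_image' A V _ _ p hp (AddCommGroup.zmodModule hV) δ hinf hT n

omit hp in
lemma card_image_le (H : Type*) [AddCommGroup H] [Finite H] (δ : H →+ V) (hV : ∀ v : V, p • v = 0) :
    Nat.card (Set.range δ) ≤ Nat.card {h : H // p • h = 0} := by
  let μ : H →+ H := nsmulAddMonoidHom p
  have e1 : Nat.card μ.ker * Nat.card μ.range = Nat.card H := by
    rw [← AddSubgroup.index_ker μ]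
    exact AddSubgroup.card_mul_index _
  have e2 : Nat.card δ.ker * Nat.card δ.range = Nat.card H := by
    rw [← AddSubgroup.index_ker δ]
    exact AddSubgroup.card_mul_index _
  have hle : μ.range ≤ δ.ker := by
    rintro _ ⟨h, rfl⟩
    rw [AddMonoidHom.mem_ker]
    show δ (p • h) = 0
    rw [map_nsmul, hV]
  have e3 : Nat.card μ.range ≤ Nat.card δ.ker := Nat.card_mono (Set.toFinite _) hle
  have e4 : Nat.card {h : H // p • h = 0} = Nat.card μ.ker := rfl
  have e5 : Nat.card (Set.range δ) = Nat.card δ.range := rfl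
  rw [e4, e5]
  have hpos : 0 < Nat.card μ.range := Nat.card_pos
  by_contra hlt
  push Not at hlt
  have : Nat.card μ.ker * Nat.card μ.range < Nat.card δ.ker * Nat.card δ.range := by
    calc Nat.card μ.ker * Nat.card μ.range ≤ Nat.card μ.ker * Nat.card δ.ker :=
          Nat.mul_le_mul_left _ e3
      _ < Nat.card δ.range * Nat.card δ.ker := by
          apply Nat.mul_lt_mul_of_pos_right hlt
          exact Nat.card_pos
      _ = _ := mul_comm _ _
  rw [e1, e2] at this
  exact lt_irrefl _ this

/-- the image of the p-primary torsion is finite if the p-torsion is -/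
lemma finite_image_torsion (δ : A →+ V) (hV : ∀ v : V, p • v = 0)
    (hfin : {a : A | p • a = 0}.Finite) :
    {v : V | ∃ (k : ℕ) (a : A), p ^ k • a = 0 ∧ δ a = v}.Finite := by
  classical
  set S := {v : V | ∃ (k : ℕ) (a : A), p ^ k • a = 0 ∧ δ a = v}
  by_contra hinf
  obtain ⟨T, hTS, hTc⟩ := Set.Infinite.exists_subset_card_eq hinf (Nat.card {a : A // p • a = 0} + 1)
  have hch : ∀ v : T, ∃ a : A, (∃ k : ℕ, p ^ k • a = 0) ∧ δ a = v := by
    intro v
    obtain ⟨k, a, h1, h2⟩ := hTS v.2
    exact ⟨a, ⟨k, h1⟩, h2⟩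
  choose f hf1 hf2 using hch
  let H : AddSubgroup A := AddSubgroup.closure (Set.range f)
  have hfg : AddGroup.FG H := by
    have : H.FG := ⟨(Set.finite_range f).toFinset, by simp [H]⟩
    exact (AddGroup.fg_iff_addSubgroup_fg H).2 this
  have htors : ∀ h ∈ H, ∃ k : ℕ, p ^ k • h = 0 := by
    intro h hh
    induction hh using AddSubgroup.closure_induction with
    | mem x hx => obtain ⟨v, rfl⟩ := hx; exact hf1 v
    | zero => exact ⟨0, by simp⟩
    | add x y _ _ hx hy =>
      obtain ⟨k, hk⟩ := hx
      obtain ⟨l, hl⟩ := hy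
      refine ⟨k + l, ?_⟩
      rw [smul_add, pow_add, mul_smul, mul_smul, hl, smul_comm, hk]
      simp
    | neg x _ hx =>
      obtain ⟨k, hk⟩ := hx
      exact ⟨k, by rw [smul_neg, hk, neg_zero]⟩
  have hfinH : Finite H := by
    apply AddCommGroup.finite_of_fg_isAddTorsion
    intro h
    obtain ⟨k, hk⟩ := htors h h.2
    rw [isOfFinAddOrder_iff_nsmul_eq_zero]
    refine ⟨p ^ k, pow_pos hp.out.pos _, ?_⟩
    ext
    exact hk
  have h1 := card_image_le p H (δ.comp H.subtype) hV
  have h2 : Nat.card {h : H // p • h = 0} ≤ Nat.card {a : A // p • a = 0} := by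
    have : Finite {a : A // p • a = 0} := hfin.to_subtype
    apply Nat.card_le_card_of_injective (fun h => ⟨h.1.1, by
      have := h.2
      exact congrArg Subtype.val this⟩)
    intro x y hxy
    simp only [Subtype.mk.injEq] at hxy
    exact Subtype.ext (Subtype.ext hxy)
  have h3 : T.card ≤ Nat.card (Set.range (δ.comp H.subtype)) := by
    have : Finite (Set.range (δ.comp H.subtype)) := Set.toFinite _
    have h4 : (T : Set V) ⊆ Set.range (δ.comp H.subtype) := by
      intro v hv
      exact ⟨⟨f ⟨v, hv⟩, AddSubgroup.subset_closure ⟨_, rfl⟩⟩, hf2 ⟨v, hv⟩⟩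
    have h5 := Nat.card_mono (Set.toFinite (Set.range (δ.comp H.subtype))) h4
    simpa using h5
  omega

end

section
variable {A B V : Type*} [AddCommGroup A] [AddCommGroup B] [AddCommGroup V]
  (p : ℕ) [hp : Fact p.Prime]

theorem rank_criterion (φ : B →+ A)
    (hpA : ∀ a : A, ∃ b, φ b = p • a) (δ : A →+ V) (hV : ∀ v : V, p • v = 0)
    (hinf : (Set.range δ).Infinite) (hfin : {a : A | p • a = 0}.Finite) :
    ℵ₀ ≤ Module.rank ℤ B := by
  rw [Cardinal.aleph0_le]
  intro n
  let T : AddSubgroup V :=
    { carrier := {v : V | ∃ (k : ℕ) (a : A), p ^ k • a = 0 ∧ δ a = v}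
      zero_mem' := ⟨0, 0, by simp, by simp⟩
      add_mem' := by
        rintro _ _ ⟨k, a, h1, rfl⟩ ⟨l, b, h2, rfl⟩
        refine ⟨k + l, a + b, ?_, map_add _ _ _⟩
        rw [smul_add, pow_add, mul_smul, mul_smul, h2, smul_comm, h1]
        simp
      neg_mem' := by
        rintro _ ⟨k, a, h1, rfl⟩
        exact ⟨k, -a, by rw [smul_neg, h1, neg_zero], map_neg _ _⟩ }
  have hTfin : (T : Set V).Finite := finite_image_torsion p δ hV hfin
  let δ' : A →+ V ⧸ T := (QuotientAddGroup.mk' T).comp δ
  have hinf' : (Set.range δ').Infinite := by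
    intro hf
    apply hinf
    have : Set.range δ ⊆ ⋃ q ∈ Set.range δ', (QuotientAddGroup.mk' T) ⁻¹' {q} := by
      rintro _ ⟨a, rfl⟩
      simp only [Set.mem_iUnion]
      exact ⟨δ' a, ⟨a, rfl⟩, rfl⟩
    apply Set.Finite.subset _ this
    apply Set.Finite.biUnion hf
    intro q _
    obtain ⟨v, rfl⟩ := QuotientAddGroup.mk'_surjective T q
    apply Set.Finite.subset (hTfin.image (fun t => v + t))
    intro w hw
    simp only [Set.mem_preimage, Set.mem_singleton_iff, QuotientAddGroup.mk'_apply] at hw
    refine ⟨-v + w, ?_, by simp⟩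
    exact (QuotientAddGroup.eq (s := T)).1 hw.symm
  have hV' : ∀ q : V ⧸ T, p • q = 0 := by
    intro q
    obtain ⟨v, rfl⟩ := QuotientAddGroup.mk'_surjective T q
    rw [← map_nsmul, hV, map_zero]
  have hT' : ∀ (k : ℕ) (a : A), p ^ k • a = 0 → δ' a = 0 := by
    intro k a ha
    show (QuotientAddGroup.mk' T) (δ a) = 0
    rw [QuotientAddGroup.mk'_apply, QuotientAddGroup.eq_zero_iff]
    exact ⟨k, a, ha, rfl⟩
  obtain ⟨a, ha⟩ := indep_of_image p δ' hV' hinf' hT' n
  choose b hb using fun i => hpA (a i)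
  have hbi : LinearIndependent ℤ b := by
    rw [Fintype.linearIndependent_iff] at ha ⊢
    intro g hg i
    have h1 : ∑ i, (g i * p) • a i = 0 := by
      have h2 := congrArg φ hg
      rw [map_sum, map_zero] at h2
      rw [← h2]
      apply Finset.sum_congr rfl
      intro j _
      rw [map_zsmul, hb j, mul_smul, natCast_zsmul]
    have h3 := ha _ h1 i
    rcases mul_eq_zero.1 h3 with h | h
    · exact h
    · exfalso
      exact hp.out.ne_zero (by exact_mod_cast h)
  have := hbi.cardinal_lift_le_rank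
  simpa using this

end

end Pool.Agent.H54.Larsen
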